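import Pool.Agent.Lib.MP_a52643_an.Glob

/-!
The local fourth moment inequality for an abstract quartic functional.
-/

open Complex MeasureTheory Set Filter Topology Asymptotics Metric Polynomial
open scoped ComplexConjugate ContDiff ENNReal

noncomputable section

namespace Pool.Agent.Lib.MP_a52643_an

variable {J : Type} {U : Ultrafilter J} {Φ : J → ℤ → V → ℂ} {μ : Measure V} {χ : ℂ → ℝ}
  {Q : LA (Fin 4) →ₗ[ℝ] ℂ}

structure QF (μ : Measure V) (χ : ℂ → ℝ) (Q : LA (Fin 4) →ₗ[ℝ] ℂ) : Prop where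
  kills : Kills Q
  rel : ∀ (σ : Fin 4 ≃ Fin 4) P, Q (rel σ P) = Q P
  pos : ∀ (p : ℝ[X]) (ψ : ℂ → ℝ), Continuous ψ →
    2 * (p.eval (-1) * ∫ v, χ (pr v) * ψ (pr v) ∂μ) - ∫ z, χ z * ψ z ^ 2 ∂hyp
      ≤ (Q (aeval (cc 0 1) p * aeval (cc 2 3) p)).re
  dc : ∀ a b c d : ℤ, ∃ δ > 0, ∃ C : ℝ, ∀ ε, 0 < ε → ε ≤ δ →
      ‖((∫ x, (cht χ x : ℂ) * mm μ ε c d x * mm μ ε (a + 1) (b + 1) x)
        - ∫ x, (cht χ x : ℂ) * mm μ ε (c + 1) (d + 1) x * mm μ ε a b x)
        - (Q (AddMonoidAlgebra.single ![a + 1, b + 1, c, d] 1)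
          - Q (AddMonoidAlgebra.single ![a, b, c + 1, d + 1] 1))‖ ≤ C * ε

lemma QF.wb (h : QF μ χ Q) : WB μ χ (Q 1).re := fun ψ hψ => by
  simpa using h.pos 1 ψ hψ

theorem QF.tendsto_LL (h : QF μ χ Q) (hμ : IsLim U Φ μ) (hχ : TF1 χ) (P : LA (Fin 4)) :
    Tendsto (fun ε => LL μ χ ε ((W 2 * W 3 - W 0 * W 1) * P)) (𝓝[>] 0)
      (𝓝 (Q ((W 2 * W 3 - W 0 * W 1) * P))) := by
  induction P using AddMonoidAlgebra.induction_linear with
  | zero => simp [LL]
  | add f g hf hg =>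
    rw [mul_add, map_add]
    refine (hf.add hg).congr' ?_
    filter_upwards [eventually_UH hχ.toTF] with ε hε
    simp only [LL, map_add, mul_add]
    rw [integral_add (hμ.integrable_LL hχ hε.1 hε.2 _) (hμ.integrable_LL hχ hε.1 hε.2 _)]
  | single a c =>
    have e : (W 2 * W 3 - W 0 * W 1) * AddMonoidAlgebra.single a c
        = -c • (AddMonoidAlgebra.single ![a 0 + 1, a 1 + 1, a 2, a 3] 1
          - AddMonoidAlgebra.single ![a 0, a 1, a 2 + 1, a 3 + 1] (1 : ℝ) : LA (Fin 4)) := by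
      have e1 : (Pi.single 2 1 + Pi.single 3 1 + a : Fin 4 → ℤ) = ![a 0, a 1, a 2 + 1, a 3 + 1] := by
        ext i; fin_cases i <;> simp [add_comm]
      have e2 : (Pi.single 0 1 + Pi.single 1 1 + a : Fin 4 → ℤ) = ![a 0 + 1, a 1 + 1, a 2, a 3] := by
        ext i; fin_cases i <;> simp [add_comm]
      simp only [W, sub_mul, AddMonoidAlgebra.single_mul_single, e1, e2, smul_sub, neg_smul,
        AddMonoidAlgebra.smul_single, one_mul, smul_eq_mul, mul_one]
      ring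
    rw [e, map_smul, map_sub]
    obtain ⟨δ, hδ, C, hC⟩ := h.dc (a 0) (a 1) (a 2) (a 3)
    have t : Tendsto (fun ε => (∫ x, (cht χ x : ℂ) * mm μ ε (a 2) (a 3) x
        * mm μ ε (a 0 + 1) (a 1 + 1) x)
        - ∫ x, (cht χ x : ℂ) * mm μ ε (a 2 + 1) (a 3 + 1) x * mm μ ε (a 0) (a 1) x) (𝓝[>] 0)
        (𝓝 (Q (AddMonoidAlgebra.single ![a 0 + 1, a 1 + 1, a 2, a 3] 1)
          - Q (AddMonoidAlgebra.single ![a 0, a 1, a 2 + 1, a 3 + 1] 1))) := by
      rw [tendsto_iff_norm_sub_tendsto_zero]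
      have t0 : Tendsto (fun ε : ℝ => C * ε) (𝓝[>] 0) (𝓝 0) := by
        simpa using (tendsto_id.mono_left (nhdsWithin_le_nhds (a := (0 : ℝ)) (s := Ioi 0))).const_mul C
      refine squeeze_zero' (Eventually.of_forall fun _ => norm_nonneg _) ?_ t0
      filter_upwards [Ioc_mem_nhdsGT hδ] with ε hε using hC ε hε.1 hε.2
    refine (t.const_smul (-c)).congr' ?_
    filter_upwards [eventually_UH hχ.toTF] with ε hε
    rw [← hμ.LL_single hχ hε.1 hε.2, ← hμ.LL_single hχ hε.1 hε.2]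
    simp only [LL, map_smul, map_sub]
    rw [← integral_sub (hμ.integrable_LL hχ hε.1 hε.2 _) (hμ.integrable_LL hχ hε.1 hε.2 _),
      ← integral_smul]
    congr 1; ext p
    simp only [real_smul]; ring

theorem QF.tendsto_JJ (h : QF μ χ Q) (hμ : IsLim U Φ μ) (hχ : TF1 χ) (k : ℝ[X]) :
    Tendsto (fun ε => 2 * JJ μ χ ε fun c => ((1 - X ^ 2) * k).eval c) (𝓝[>] 0)
      (𝓝 (Q (aeval (cc 0 1) ((1 - X ^ 2) * k))).re) := by
  rw [h.kills.split h.rel]
  have := (continuous_re.tendsto _).comp ((h.tendsto_LL hμ hχ (dcP k)).const_mul 2)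
  refine this.congr fun ε => ?_
  have e : LL μ χ ε ((W 2 * W 3 - W 0 * W 1) * dcP k)
      = ((JJ μ χ ε fun c => ((1 - X ^ 2) * k).eval c : ℝ) : ℂ) := by
    rw [LL, JJ, ← integral_complex_ofReal]
    congr 1; ext p
    rw [ofReal_mul]
    congr 1
    exact evC_dcP (norm_ou _) (norm_ou _) _ k
  simp [e]

theorem QF.local_four (h : QF μ χ Q) (hμ : IsLim U Φ μ) (hχ : TF1 χ) (n1 : NC μ 1)
    (n2 : NC μ (-1)) {ψ : ℂ → ℝ} (hψ : Continuous ψ) :
    3 * (2 * ∫ v, χ (pr v) * ψ (pr v) ∂μ - ∫ z, χ z * ψ z ^ 2 ∂hyp)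
      ≤ (Q 1).re := by
  set A := 2 * ∫ v, χ (pr v) * ψ (pr v) ∂μ - ∫ z, χ z * ψ z ^ 2 ∂hyp with hA
  have main : ∀ η : ℝ, 0 < η → η < 1 →
      3 * A - η * (2 * A + 4) ≤ (Q 1).re := by
    intro η hη hη1
    obtain ⟨δ1, hδ1, s1⟩ := JJ_small hμ hχ n1 hη
    obtain ⟨δ2, hδ2, s2⟩ := JJ_small hμ hχ n2 hη
    obtain ⟨m, hm⟩ := exists_pow_lt_of_lt_one hη
      (show max 0 (1 - min δ1 δ2) < 1 from max_lt one_pos (by simp [hδ1, hδ2]))
    set k : ℝ[X] := ∑ i ∈ Finset.range (2 * m), (X ^ 2) ^ i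
    have ek : (1 - X ^ 2) * k = 1 - X ^ (2 * m) * X ^ (2 * m) := by
      rw [mul_neg_geom_sum]; ring
    have e1 : (Q 1).re
        = (Q (aeval (cc 0 1) (X ^ (2 * m) * X ^ (2 * m) : ℝ[X]))).re
          + (Q (aeval (cc 0 1) ((1 - X ^ 2) * k))).re := by
      rw [← add_re, ← map_add, ← map_add, ek]; simp
    have b1 : A ≤ (Q
        (aeval (cc 0 1) (X ^ (2 * m) * X ^ (2 * m) : ℝ[X]))).re := by
      have t := h.pos (X ^ (2 * m)) ψ hψ
      rw [h.kills.swap_pair] at t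
      simpa only [eval_pow, eval_X, pow_mul, neg_one_sq, one_pow, one_mul] using t
    have b2 : 2 * ((1 - η) * A - 2 * η)
        ≤ (Q (aeval (cc 0 1) ((1 - X ^ 2) * k))).re := by
      obtain ⟨S, hS, hS'⟩ := JJ_one_ge hμ hχ hψ
      refine le_of_tendsto_of_tendsto
        (((((hS.const_mul 2).sub_const _).const_mul (1 - η)).sub_const (2 * η)).const_mul 2)
        (h.tendsto_JJ hμ hχ k) ?_
      filter_upwards [hS', s1, s2, eventually_UH hχ.toTF] with ε h0 s1 s2 hε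
      obtain ⟨C, hC⟩ := exists_bound_poly ((1 - X ^ 2) * k)
      have i0 := hμ.integrable_JJ hχ hε.1 hε.2 (g := fun _ => 1) measurable_const (C := 1) (by simp)
      have i1 := hμ.integrable_JJ hχ hε.1 hε.2 (measurable_ind 1 δ1) fun c _ => abs_ind_le _ _ c
      have i2 := hμ.integrable_JJ hχ hε.1 hε.2 (measurable_ind (-1) δ2) fun c _ => abs_ind_le _ _ c
      have i3 := hμ.integrable_JJ hχ hε.1 hε.2 ((1 - X ^ 2) * k).continuous.measurable hC
      have key : (1 - η) * JJ μ χ ε (fun _ => 1) - JJ μ χ ε (ind 1 δ1) - JJ μ χ ε (ind (-1) δ2)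
          ≤ JJ μ χ ε fun c => ((1 - X ^ 2) * k).eval c := by
        simp only [JJ]
        rw [← integral_const_mul, ← integral_sub (i0.const_mul _) i1,
          ← integral_sub (by exact (i0.const_mul _).sub i1) i2]
        refine integral_mono (((i0.const_mul _).sub i1).sub i2) i3 fun p => ?_
        have h1 := hχ.Th_nonneg ε p
        have h2 := abs_cs_le p.2.1 p.2.2
        set c := cs p.2.1 p.2.2
        have : (1 - η) - ind 1 δ1 c - ind (-1) δ2 c ≤ ((1 - X ^ 2) * k).eval c := by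
          rw [ek]
          simp only [eval_sub, eval_one, eval_mul, eval_pow, eval_X]
          have e : c ^ (2 * m) * c ^ (2 * m) = |c| ^ m * |c| ^ (3 * m) := by
            rw [← pow_add, ← pow_add, show m + 3 * m = 2 * (2 * m) by ring, pow_mul |c|, sq_abs]
            ring
          have a0 := abs_nonneg c
          have a1 : |c| ^ (3 * m) ≤ 1 := pow_le_one₀ a0 h2
          have a2 : |c| ^ m ≤ 1 := pow_le_one₀ a0 h2
          have a3 : |c| ^ m * |c| ^ (3 * m) ≤ |c| ^ m := mul_le_of_le_one_right (by positivity) a1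
          have := ind_nonneg 1 δ1 c
          have := ind_nonneg (-1) δ2 c
          rw [e]
          by_cases c1 : |c - 1| ≤ δ1
          · have : ind 1 δ1 c = 1 := if_pos c1
            linarith
          by_cases c2 : |c - -1| ≤ δ2
          · have : ind (-1) δ2 c = 1 := if_pos c2
            linarith
          have a4 : |c| ≤ max 0 (1 - min δ1 δ2) := by
            refine le_max_of_le_right ?_
            have := min_le_left δ1 δ2
            have := min_le_right δ1 δ2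
            rw [abs_le] at h2
            rw [abs_of_nonpos (by linarith)] at c1
            rw [abs_of_nonneg (by linarith)] at c2
            rw [abs_le]; constructor <;> linarith
          have := pow_le_pow_left₀ a0 a4 m
          linarith
        simp only
        nlinarith
      have : (1 - η) * (2 * S ε - ∫ z, χ z * ψ z ^ 2 ∂hyp) ≤ (1 - η) * JJ μ χ ε fun _ => 1 :=
        mul_le_mul_of_nonneg_left h0 (by linarith)
      linarith
    rw [e1]; linarith
  have t : Tendsto (fun η : ℝ => 3 * A - η * (2 * A + 4)) (𝓝[>] 0) (𝓝 (3 * A)) := by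
    simpa using ((tendsto_id.mono_left (nhdsWithin_le_nhds (a := (0 : ℝ)) (s := Ioi 0))).mul_const
      (2 * A + 4)).const_sub (3 * A)
  refine le_of_tendsto t ?_
  filter_upwards [Ioo_mem_nhdsGT one_pos] with η hη using main η hη.1 hη.2

end Pool.Agent.Lib.MP_a52643_an
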