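import Mathlib

/-!
Lipschitz truncation in the plane.
-/

open MeasureTheory Set Filter Topology Metric
open scoped ENNReal NNReal

noncomputable section

namespace Pool.Agent.Lib.MP_a52643_an

theorem lip_scale (f : ℂ → ℝ) (x : ℂ) {s : ℝ} (hs : 0 < s) :
    ∫ z in closedBall x s, f z = s ^ 2 * ∫ a in closedBall (0 : ℂ) 1, f (x + s • a) := by
  have h1 := Measure.setIntegral_comp_smul_of_pos volume (fun w => f (x + w))
    (closedBall (0 : ℂ) 1) hs
  have h2 := (measurePreserving_add_left volume x).setIntegral_preimage_emb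
    (measurableEmbedding_addLeft x) f (closedBall x s)
  rw [_root_.smul_closedBall _ _ zero_le_one, smul_zero, mul_one, Real.norm_of_nonneg hs.le,
    Complex.finrank_real_complex] at h1
  rw [preimage_add_closedBall, sub_self] at h2
  rw [h1, h2, smul_eq_mul, mul_inv_cancel_left₀ (by positivity)]

theorem lip_vol (x : ℂ) {s : ℝ} (hs : 0 ≤ s) : volume.real (closedBall x s) = Real.pi * s ^ 2 := by
  rw [Measure.real, Complex.volume_closedBall, ENNReal.toReal_mul, ENNReal.toReal_pow,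
    ENNReal.toReal_ofReal hs, mul_comm]
  rfl

theorem lip_osc {Ψ : ℂ → ℂ} (hΨ : ContDiff ℝ 1 Ψ) (x : ℂ) {s L : ℝ} (hs : 0 ≤ s)
    (h : ∀ t ∈ Icc 0 s, ∫ a in closedBall (0 : ℂ) 1, ‖fderiv ℝ Ψ (x + t • a)‖ ≤ L) :
    ∫ a in closedBall (0 : ℂ) 1, ‖Ψ (x + s • a) - Ψ x‖ ≤ s * L := by
  have hc := hΨ.continuous
  have hd := hΨ.continuous_fderiv one_ne_zero
  have hj : Continuous (Function.uncurry fun (t : ℝ) (a : ℂ) => ‖fderiv ℝ Ψ (x + t • a)‖) := by
    unfold Function.uncurry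
    fun_prop
  have h1 : ∀ a ∈ closedBall (0 : ℂ) 1,
      ‖Ψ (x + s • a) - Ψ x‖ ≤ ∫ t in (0 : ℝ)..s, ‖fderiv ℝ Ψ (x + t • a)‖ := fun a ha => by
    have h2 : ∀ t : ℝ, HasDerivAt (fun t : ℝ => Ψ (x + t • a)) (fderiv ℝ Ψ (x + t • a) a) t :=
      fun t => (hΨ.differentiable one_ne_zero _).hasFDerivAt.comp_hasDerivAt t
        (by simpa using ((hasDerivAt_id t).smul_const a).const_add x)
    have h3 := norm_sub_le_integral_of_norm_deriv_le_of_le (f := fun t : ℝ => Ψ (x + t • a))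
      (B := fun t => ‖fderiv ℝ Ψ (x + t • a)‖) hs (Continuous.continuousOn (by fun_prop))
      (fun t _ => (h2 t).differentiableAt.differentiableWithinAt)
      (Eventually.of_forall fun t _ => by
        rw [(h2 t).deriv]
        exact (ContinuousLinearMap.le_opNorm _ _).trans
          (mul_le_of_le_one_right (norm_nonneg _) (mem_closedBall_zero_iff.1 ha)))
      (Continuous.intervalIntegrable (by fun_prop) _ _)
    simpa using h3
  have h4 : Integrable (Function.uncurry fun (t : ℝ) (a : ℂ) => ‖fderiv ℝ Ψ (x + t • a)‖)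
      ((volume.restrict (uIoc 0 s)).prod (volume.restrict (closedBall (0 : ℂ) 1))) := by
    rw [Measure.prod_restrict]
    exact (hj.continuousOn.integrableOn_compact
      (isCompact_uIcc.prod (isCompact_closedBall _ _))).mono_set
      (prod_mono uIoc_subset_uIcc Subset.rfl)
  calc _ ≤ ∫ a in closedBall (0 : ℂ) 1, ∫ t in (0 : ℝ)..s, ‖fderiv ℝ Ψ (x + t • a)‖ := by
        refine setIntegral_mono_on (Continuous.continuousOn (by fun_prop)
          |>.integrableOn_compact (isCompact_closedBall _ _)) ?_ measurableSet_closedBall h1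
        simp only [intervalIntegral.integral_of_le hs]
        rw [uIoc_of_le hs] at h4
        exact h4.integral_prod_right
    _ = ∫ t in (0 : ℝ)..s, ∫ a in closedBall (0 : ℂ) 1, ‖fderiv ℝ Ψ (x + t • a)‖ :=
        (intervalIntegral_integral_swap h4).symm
    _ ≤ ∫ _ in (0 : ℝ)..s, L := intervalIntegral.integral_mono_on hs
        ((continuous_parametric_integral_of_continuous hj
          (isCompact_closedBall _ _)).intervalIntegrable _ _) intervalIntegrable_const h
    _ = s * L := by simp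

theorem lip_two {Ψ : ℂ → ℂ} (hΨ : ContDiff ℝ 1 Ψ) (x y : ℂ) {L : ℝ}
    (hx : ∀ t ∈ Icc 0 (2 * dist x y),
      ∫ a in closedBall (0 : ℂ) 1, ‖fderiv ℝ Ψ (x + t • a)‖ ≤ L)
    (hy : ∀ t ∈ Icc 0 (2 * dist x y),
      ∫ a in closedBall (0 : ℂ) 1, ‖fderiv ℝ Ψ (y + t • a)‖ ≤ L) :
    dist (Ψ x) (Ψ y) ≤ 3 * L * dist x y := by
  rcases eq_or_ne x y with rfl | hxy
  · simp
  have hc := hΨ.continuous
  have hr : 0 < dist x y := dist_pos.2 hxy
  have hsub : closedBall x (dist x y) ⊆ closedBall y (2 * dist x y) :=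
    closedBall_subset_closedBall' (by linarith)
  generalize dist x y = r at *
  have h1 := lip_osc hΨ x hr.le fun t ht => hx t ⟨ht.1, by linarith [ht.2]⟩
  have h2 := lip_osc hΨ y (by linarith) hy
  have h3 := lip_scale (fun z => ‖Ψ z - Ψ x‖) x hr
  have h4 := lip_scale (fun z => ‖Ψ z - Ψ y‖) y (s := 2 * r) (by linarith)
  have hi : ∀ w p s, IntegrableOn (fun z => ‖Ψ z - Ψ w‖) (closedBall p s) := fun w p s =>
    (Continuous.continuousOn (by fun_prop)).integrableOn_compact (isCompact_closedBall _ _)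
  have h5 : ∫ z in closedBall x r, ‖Ψ z - Ψ y‖ ≤ ∫ z in closedBall y (2 * r), ‖Ψ z - Ψ y‖ :=
    setIntegral_mono_set (hi _ _ _) (Eventually.of_forall fun _ => norm_nonneg _) hsub.eventuallyLE
  have h6 : ∫ _ in closedBall x r, dist (Ψ x) (Ψ y) ≤
      ∫ z in closedBall x r, (‖Ψ z - Ψ x‖ + ‖Ψ z - Ψ y‖) :=
    setIntegral_mono_on (continuousOn_const.integrableOn_compact (isCompact_closedBall _ _))
      ((hi _ _ _).add (hi _ _ _)) measurableSet_closedBall fun z _ => by
        simpa only [dist_eq_norm] using dist_triangle_left (Ψ x) (Ψ y) (Ψ z)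
  rw [integral_add (hi _ _ _) (hi _ _ _), setIntegral_const, lip_vol x hr.le, smul_eq_mul] at h6
  have h7 := mul_le_mul_of_nonneg_left h1 (sq_nonneg r)
  have h8 := mul_le_mul_of_nonneg_left h2 (sq_nonneg (2 * r))
  have h9 : 3 * r ^ 2 * dist (Ψ x) (Ψ y) ≤ Real.pi * r ^ 2 * dist (Ψ x) (Ψ y) := by
    gcongr
    exact Real.pi_gt_three.le
  refine le_of_mul_le_mul_left ?_ (show 0 < 3 * r ^ 2 by positivity)
  nlinarith

theorem lip_vitali {h : ℂ → ℝ} (hi : Integrable h) (h0 : ∀ z, 0 ≤ h z) {t : Set ℂ} {c T : ℝ}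
    (hc : 0 < c) (ht : ∀ x ∈ t, ∃ s, 0 < s ∧ s ≤ T ∧ c * s ^ 2 ≤ ∫ z in closedBall x s, h z) :
    volume.real t ≤ 64 / c * ∫ z, h z := by
  choose! r hr using ht
  obtain ⟨u, hu, hd, hcov⟩ := Vitali.exists_disjoint_subfamily_covering_enlargement_closedBall t
    (fun x => x) r T (fun a ha => (hr a ha).2.1) 4 (by norm_num)
  have hcount : u.Countable := hd.countable_of_nonempty_interior fun a ha =>
    ⟨a, ball_subset_interior_closedBall (mem_ball_self (hr a (hu ha)).1)⟩
  have hI : 0 ≤ ∫ z, h z := integral_nonneg h0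
  refine ENNReal.toReal_le_of_le_ofReal (by positivity) ?_
  calc volume t ≤ volume (⋃ b ∈ u, closedBall b (4 * r b)) := measure_mono fun a ha => by
        obtain ⟨b, hb, hab⟩ := hcov a ha
        exact mem_biUnion hb (hab (mem_closedBall_self (hr a ha).1.le))
    _ ≤ ∑' b : u, volume (closedBall (b : ℂ) (4 * r b)) := measure_biUnion_le _ hcount _
    _ ≤ ∑' b : u, ENNReal.ofReal (64 / c) *
          ∫⁻ z in closedBall (b : ℂ) (r b), ENNReal.ofReal (h z) := by
        refine ENNReal.tsum_le_tsum fun b => ?_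
        obtain ⟨h1, -, h2⟩ := hr b (hu b.2)
        rw [← ofReal_integral_eq_lintegral_ofReal hi.integrableOn (Eventually.of_forall h0),
          ← ENNReal.ofReal_mul (by positivity),
          ← ofReal_measureReal measure_closedBall_lt_top.ne, lip_vol _ (by positivity)]
        refine ENNReal.ofReal_le_ofReal ?_
        calc _ ≤ 4 * (4 * r b) ^ 2 := by gcongr; exact Real.pi_le_four
          _ = 64 / c * (c * r b ^ 2) := by field_simp; norm_num
          _ ≤ _ := by gcongr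
    _ = ENNReal.ofReal (64 / c) * ∫⁻ z in ⋃ b ∈ u, closedBall b (r b), ENNReal.ofReal (h z) := by
        rw [ENNReal.tsum_mul_left, lintegral_biUnion hcount (fun _ _ => measurableSet_closedBall) hd]
    _ ≤ ENNReal.ofReal (64 / c) * ∫⁻ z, ENNReal.ofReal (h z) := by
        gcongr
        exact Measure.restrict_le_self
    _ = _ := by
        rw [← ofReal_integral_eq_lintegral_ofReal hi (Eventually.of_forall h0),
          ← ENNReal.ofReal_mul (by positivity)]

/-- the good set -/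
theorem lip_good (R : ℝ) {Ψ : ℂ → ℂ} {Λ : ℝ} {H : ℂ → ℝ} (hΨ : ContDiff ℝ 1 Ψ) (hΛ : 0 < Λ)
    (hH : Integrable H) (h0 : ∀ z, 0 ≤ H z) (h : ∀ z, ‖fderiv ℝ Ψ z‖ ≤ Λ + H z) :
    ∃ S : Set ℂ, IsOpen S ∧ (∀ x ∈ S, ∀ y ∈ S, dist (Ψ x) (Ψ y) ≤ 15 * Λ * dist x y) ∧
      Λ * volume.real (closedBall (0 : ℂ) R \ S) ≤ 128 * ∫ z, H z := by
  have hd := hΨ.continuous_fderiv one_ne_zero
  obtain ⟨k, hk, hk0, hk1, hk2⟩ : ∃ k : ℂ → ℝ, Continuous k ∧ (∀ z, 0 ≤ k z) ∧ (∀ z, k z ≤ H z) ∧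
      ∀ z, ‖fderiv ℝ Ψ z‖ ≤ Λ + k z :=
    ⟨fun z => max (‖fderiv ℝ Ψ z‖ - Λ) 0, by fun_prop, fun z => le_max_right _ _,
      fun z => max_le (by linarith [h z]) (h0 z),
      fun z => by linarith [le_max_left (‖fderiv ℝ Ψ z‖ - Λ) 0]⟩
  have hki : Integrable k := hH.mono' hk.aestronglyMeasurable
    (Eventually.of_forall fun z => by rw [Real.norm_of_nonneg (hk0 z)]; exact hk1 z)
  obtain ⟨N, hN, hNc⟩ : ∃ N : ℂ × ℝ → ℝ,
      (∀ x s, N (x, s) = ∫ a in closedBall (0 : ℂ) 1, k (x + s • a)) ∧ Continuous N :=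
    ⟨fun p => ∫ a in closedBall (0 : ℂ) 1, k (p.1 + p.2 • a), fun _ _ => rfl,
      continuous_parametric_integral_of_continuous (by unfold Function.uncurry; fun_prop)
        (isCompact_closedBall _ _)⟩
  have hR : 0 < |R| + 1 := by positivity
  refine ⟨ball 0 (|R| + 1) ∩ {x | ∀ s ∈ Icc 0 (4 * (|R| + 1)), N (x, s) < Λ},
    isOpen_ball.inter (isOpen_iff_mem_nhds.2 fun x hx => ?_), fun x hx y hy => ?_, ?_⟩
  · exact isCompact_Icc.eventually_forall_of_forall_eventually (P := fun x s => N (x, s) < Λ)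
      fun s hs => hNc.continuousAt.eventually_lt continuousAt_const (hx s hs)
  · have h1 : dist x y ≤ 2 * (|R| + 1) := by
      linarith [dist_triangle_right x y 0, mem_ball.1 hx.1, mem_ball.1 hy.1]
    have key : ∀ w : ℂ, (∀ s ∈ Icc 0 (4 * (|R| + 1)), N (w, s) < Λ) → ∀ t ∈ Icc 0 (2 * dist x y),
        ∫ a in closedBall (0 : ℂ) 1, ‖fderiv ℝ Ψ (w + t • a)‖ ≤ 5 * Λ := fun w hw t ht => by
      have h2 := hw t ⟨ht.1, by linarith [ht.2]⟩
      have i1 : IntegrableOn (fun _ : ℂ => Λ) (closedBall (0 : ℂ) 1) :=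
        continuousOn_const.integrableOn_compact (isCompact_closedBall _ _)
      have i2 : IntegrableOn (fun a : ℂ => k (w + t • a)) (closedBall (0 : ℂ) 1) :=
        (Continuous.continuousOn (by fun_prop)).integrableOn_compact (isCompact_closedBall _ _)
      have h3 : ∫ a in closedBall (0 : ℂ) 1, ‖fderiv ℝ Ψ (w + t • a)‖ ≤
          ∫ a in closedBall (0 : ℂ) 1, (Λ + k (w + t • a)) :=
        setIntegral_mono_on ((Continuous.continuousOn (by fun_prop)).integrableOn_compact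
          (isCompact_closedBall _ _)) (i1.add i2) measurableSet_closedBall fun a _ => hk2 _
      rw [integral_add i1 i2, setIntegral_const, lip_vol _ zero_le_one, ← hN, smul_eq_mul] at h3
      nlinarith [Real.pi_le_four]
    have := lip_two hΨ x y (key x hx.2) (key y hy.2)
    linarith
  · have h1 := lip_vitali hki hk0 (t := closedBall (0 : ℂ) R \
        (ball 0 (|R| + 1) ∩ {x | ∀ s ∈ Icc 0 (4 * (|R| + 1)), N (x, s) < Λ}))
        (T := 4 * (|R| + 1)) (half_pos hΛ) fun x hx => by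
      have h2 : x ∈ ball (0 : ℂ) (|R| + 1) :=
        closedBall_subset_ball (by linarith [le_abs_self R]) hx.1
      obtain ⟨s, hs, h3⟩ : ∃ s ∈ Icc 0 (4 * (|R| + 1)), Λ ≤ N (x, s) := by
        by_contra h3
        push Not at h3
        exact hx.2 ⟨h2, h3⟩
      obtain ⟨s, hs, h3⟩ : ∃ s ∈ Ioc 0 (4 * (|R| + 1)), Λ / 2 < N (x, s) := by
        rcases hs.1.eq_or_lt with rfl | h4
        · have h4 : ∀ᶠ s in 𝓝 (0 : ℝ), Λ / 2 < N (x, s) :=
            continuousAt_const.eventually_lt (hNc.comp (Continuous.prodMk_right x)).continuousAt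
              (show Λ / 2 < N (x, 0) by linarith)
          exact ((h4.filter_mono nhdsWithin_le_nhds).and
            (Ioc_mem_nhdsGT (show 0 < 4 * (|R| + 1) by positivity))).exists.imp fun s h => h.symm
        · exact ⟨s, ⟨h4, hs.2⟩, by linarith⟩
      refine ⟨s, hs.1, hs.2, ?_⟩
      rw [lip_scale k x hs.1, ← hN, mul_comm]
      gcongr
    have h2 : ∫ z, k z ≤ ∫ z, H z := integral_mono hki hH hk1
    calc _ ≤ Λ * (64 / (Λ / 2) * ∫ z, k z) := by gcongr
      _ = 128 * ∫ z, k z := by field_simp; ring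
      _ ≤ _ := by gcongr

open scoped Convolution in
open ContinuousLinearMap in
/-- mollification of a Lipschitz extension -/
theorem lip_moll {Ψ Ψ' : ℂ → ℂ} (hΨ : ContDiff ℝ 1 Ψ) (hs : HasCompactSupport Ψ) {K : ℝ≥0}
    (hL : LipschitzWith K Ψ') {S : Set ℂ} (hS : IsOpen S) (he : EqOn Ψ Ψ' S) :
    ∃ G : ℕ → ℂ → ℂ, (∀ k, ContDiff ℝ 2 (G k)) ∧ (∀ k z, ‖fderiv ℝ (G k) z‖ ≤ K) ∧
      ∀ x ∈ S, Tendsto (fun k => fderiv ℝ (G k) x) atTop (𝓝 (fderiv ℝ Ψ x)) := by
  let φ : ℕ → ContDiffBump (0 : ℂ) := fun k =>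
    ⟨1 / ((k : ℝ) + 1) / 2, 1 / ((k : ℝ) + 1), by positivity, half_lt_self (by positivity)⟩
  have hφ : Tendsto (fun k => (φ k).rOut) atTop (𝓝 0) := tendsto_one_div_add_atTop_nhds_zero_nat
  have hl : LocallyIntegrable Ψ' := hL.continuous.locallyIntegrable
  refine ⟨fun k => (φ k).normed volume ⋆[lsmul ℝ ℝ, volume] Ψ', fun k =>
    (φ k).hasCompactSupport_normed.contDiff_convolution_left (n := 2) _ (φ k).contDiff_normed hl,
    fun k z => norm_fderiv_le_of_lipschitz ℝ (LipschitzWith.of_dist_le_mul fun x y => ?_),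
    fun x hx => ?_⟩
  · have hex : ConvolutionExists ((φ k).normed volume) Ψ' (lsmul ℝ ℝ) volume :=
      (φ k).hasCompactSupport_normed.convolutionExists_left _ (φ k).continuous_normed hl
    dsimp only
    rw [dist_eq_norm, convolution_def, convolution_def, ← integral_sub (hex x) (hex y)]
    refine (norm_integral_le_of_norm_le (((φ k).integrable_normed (μ := volume)).mul_const
      (K * dist x y))
      (Eventually.of_forall fun t => ?_)).trans ?_
    · rw [← map_sub, lsmul_apply, norm_smul, Real.norm_of_nonneg ((φ k).nonneg_normed t),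
        ← dist_eq_norm]
      refine mul_le_mul_of_nonneg_left ?_ ((φ k).nonneg_normed t)
      simpa using hL.dist_le_mul (x - t) (y - t)
    · rw [integral_mul_const, (φ k).integral_normed, one_mul]
  · obtain ⟨ε, hε, hb⟩ := Metric.isOpen_iff.1 hS x hx
    refine (ContDiffBump.convolution_tendsto_right_of_continuous (μ := volume) hφ
      (hΨ.continuous_fderiv one_ne_zero) x).congr' ?_
    filter_upwards [hφ.eventually_lt_const (half_pos hε)] with k hk
    have h1 : ((φ k).normed volume ⋆[lsmul ℝ ℝ, volume] Ψ') =ᶠ[𝓝 x]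
        ((φ k).normed volume ⋆[lsmul ℝ ℝ, volume] Ψ) := by
      filter_upwards [ball_mem_nhds x (half_pos hε)] with y hy
      rw [convolution_def, convolution_def]
      refine integral_congr_ae (Eventually.of_forall fun t => ?_)
      by_cases ht : (φ k).normed volume t = 0
      · simp [ht]
      · have h2 : t ∈ ball (0 : ℂ) (φ k).rOut := (φ k).support_normed_eq (μ := volume) ▸ ht
        have h3 : y - t ∈ ball x ε := by
          have h4 : dist (y - t) y = ‖t‖ := by simp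
          rw [mem_ball]
          linarith [dist_triangle (y - t) y x, mem_ball.1 hy, mem_ball_zero_iff.1 h2]
        dsimp only
        rw [he (hb h3)]
    rw [h1.fderiv_eq, (hs.hasFDerivAt_convolution_right (lsmul ℝ ℝ)
      (φ k).integrable_normed.locallyIntegrable hΨ x).fderiv, convolution_def, convolution_def]
    refine integral_congr_ae (Eventually.of_forall fun t => ?_)
    ext v
    simp

theorem lip_trunc : ∃ C : ℝ, 0 < C ∧ ∀ (R : ℝ) (Ψ : ℂ → ℂ) (Λ σ : ℝ) (H : ℂ → ℝ),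
    ContDiff ℝ 1 Ψ → HasCompactSupport Ψ → 0 < Λ → 0 < σ → Integrable H → (∀ z, 0 ≤ H z) →
    (∀ z, ‖fderiv ℝ Ψ z‖ ≤ Λ + H z) →
    ∃ G : ℂ → ℂ, ContDiff ℝ 2 G ∧ (∀ z, ‖fderiv ℝ G z‖ ≤ C * Λ) ∧
      ∫ z in closedBall (0 : ℂ) R, ‖fderiv ℝ G z - fderiv ℝ Ψ z‖ ≤ C * (∫ z, H z) + σ := by
  obtain ⟨c, hc⟩ : ∃ c : ℝ≥0, c = lipschitzExtensionConstant ℂ := ⟨_, rfl⟩
  have hc0 : (0 : ℝ) ≤ c := c.2
  refine ⟨128 * (15 * c + 1) + 1, by positivity, fun R Ψ Λ σ H hΨ hs hΛ hσ hH h0 h => ?_⟩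
  obtain ⟨S, hS, h1, h2⟩ := lip_good R hΨ hΛ hH h0 h
  have h3 : LipschitzOnWith ⟨15 * Λ, by positivity⟩ Ψ S := LipschitzOnWith.of_dist_le_mul h1
  obtain ⟨Ψ', hL, he⟩ := h3.extend_finite_dimension
  obtain ⟨G, hG, hG1, hG2⟩ := lip_moll hΨ hs hL hS he
  rw [← hc] at hG1
  have hG3 : ∀ k z, ‖fderiv ℝ (G k) z‖ ≤ c * (15 * Λ) := hG1
  have hd := hΨ.continuous_fderiv one_ne_zero
  have hcont : ∀ k, Continuous fun z => ‖fderiv ℝ (G k) z - fderiv ℝ Ψ z‖ := fun k =>
    (((hG k).continuous_fderiv two_ne_zero).sub hd).norm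
  have hb : ∀ k z, ‖fderiv ℝ (G k) z - fderiv ℝ Ψ z‖ ≤ (15 * c + 1) * Λ + H z := fun k z => by
    linarith [norm_sub_le (fderiv ℝ (G k) z) (fderiv ℝ Ψ z), hG3 k z, h z]
  have i1 : IntegrableOn (fun _ : ℂ => (15 * c + 1) * Λ) (closedBall (0 : ℂ) R) :=
    continuousOn_const.integrableOn_compact (isCompact_closedBall _ _)
  have h4 : Tendsto (fun k => ∫ z in closedBall (0 : ℂ) R ∩ S,
      ‖fderiv ℝ (G k) z - fderiv ℝ Ψ z‖) atTop (𝓝 (∫ _ in closedBall (0 : ℂ) R ∩ S, 0)) := by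
    refine tendsto_integral_of_dominated_convergence (fun z => (15 * c + 1) * Λ + H z)
      (fun k => (hcont k).aestronglyMeasurable)
      ((i1.mono_set inter_subset_left).add hH.integrableOn)
      (fun k => Eventually.of_forall fun z => by rw [norm_norm]; exact hb k z) ?_
    filter_upwards [ae_restrict_mem (measurableSet_closedBall.inter hS.measurableSet)] with z hz
    exact tendsto_iff_norm_sub_tendsto_zero.1 (hG2 z hz.2)
  rw [integral_zero] at h4
  obtain ⟨k, hk⟩ := (h4.eventually_lt_const hσ).exists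
  refine ⟨G k, hG k, fun z => (hG3 k z).trans (by nlinarith), ?_⟩
  have i2 : IntegrableOn (fun z => ‖fderiv ℝ (G k) z - fderiv ℝ Ψ z‖) (closedBall (0 : ℂ) R) :=
    (hcont k).continuousOn.integrableOn_compact (isCompact_closedBall _ _)
  have h5 : ∫ z in closedBall (0 : ℂ) R \ S, ‖fderiv ℝ (G k) z - fderiv ℝ Ψ z‖ ≤
      ∫ z in closedBall (0 : ℂ) R \ S, ((15 * c + 1) * Λ + H z) :=
    integral_mono (i2.mono_set sdiff_subset) ((i1.mono_set sdiff_subset).add hH.integrableOn) (hb k)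
  have h6 : ∫ z in closedBall (0 : ℂ) R \ S, H z ≤ ∫ z, H z :=
    setIntegral_le_integral hH (Eventually.of_forall h0)
  rw [integral_add (i1.mono_set sdiff_subset) hH.integrableOn, setIntegral_const, smul_eq_mul] at h5
  rw [← integral_inter_add_sdiff hS.measurableSet i2]
  have h7 := mul_le_mul_of_nonneg_left h2 (show (0 : ℝ) ≤ 15 * c + 1 by positivity)
  nlinarith

end Pool.Agent.Lib.MP_a52643_an
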