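import Pool.Agent.Lib.MP_a52643_an.DivCurl
import Pool.Agent.Lib.MP_a52643_an.Law.Lip

/-!
Truncation of a planar vector field together with its divergence.
-/

open Complex MeasureTheory Set Filter Topology Metric
open scoped ComplexConjugate ContDiff ENNReal

noncomputable section

namespace Pool.Agent.Lib.MP_a52643_an

namespace FTr

section Seg

variable {F : Type*} [NormedAddCommGroup F] [NormedSpace ℝ F]

/-- integral of `u` over the horizontal segment of length `L` ending at `z` -/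
def seg (L : ℝ) (u : ℂ → F) (z : ℂ) : F := ∫ s in (-L)..0, u (z + (s : ℝ))

omit [NormedSpace ℝ F] in
lemma ii_shift {u : ℂ → F} (hu : Continuous u) (z : ℂ) (a b : ℝ) :
    IntervalIntegrable (fun s : ℝ => u (z + (s : ℝ))) volume a b :=
  (by fun_prop : Continuous fun s : ℝ => u (z + (s : ℝ))).intervalIntegrable a b

lemma seg_cont (L : ℝ) {u : ℂ → F} (hu : Continuous u) : Continuous (seg L u) := by
  unfold seg
  exact intervalIntegral.continuous_parametric_intervalIntegral_of_continuous'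
    (f := fun (z : ℂ) (s : ℝ) => u (z + (s : ℝ))) (by unfold Function.uncurry; fun_prop) _ _

lemma seg_hcs {L : ℝ} (hL : 0 ≤ L) {u : ℂ → F} (hc : HasCompactSupport u) :
    HasCompactSupport (seg L u) := by
  obtain ⟨r, hr⟩ := hc.isCompact.isBounded.subset_closedBall 0
  refine HasCompactSupport.intro (isCompact_closedBall (0 : ℂ) (r + L)) fun z hz => ?_
  unfold seg
  rw [intervalIntegral.integral_congr (g := fun _ => (0 : F))]
  · simp
  intro s hs
  rw [uIcc_of_le (by linarith)] at hs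
  by_contra hne
  have h1 := hr (subset_tsupport _ hne)
  simp only [mem_closedBall, dist_zero_right, not_le] at h1 hz
  have h2 : ‖z‖ ≤ ‖z + (s : ℝ)‖ + ‖((s : ℝ) : ℂ)‖ := by
    simpa using norm_sub_le (z + (s : ℝ)) ((s : ℝ) : ℂ)
  have h3 : ‖((s : ℝ) : ℂ)‖ ≤ L := by
    rw [Complex.norm_real, Real.norm_eq_abs, abs_le]
    exact ⟨hs.1, hs.2.trans hL⟩
  linarith

lemma seg_sub (L : ℝ) {u v : ℂ → F} (hu : Continuous u) (hv : Continuous v) (z : ℂ) :
    seg L (fun w => u w - v w) z = seg L u z - seg L v z :=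
  intervalIntegral.integral_sub (ii_shift hu z _ _) (ii_shift hv z _ _)

lemma norm_seg_le {L : ℝ} (hL : 0 ≤ L) {u : ℂ → F} {h : ℂ → ℝ} (hh : Continuous h) {a : ℝ}
    (hb : ∀ w, ‖u w‖ ≤ a + h w) (z : ℂ) : ‖seg L u z‖ ≤ L * a + seg L h z := by
  have h1 : ‖seg L u z‖ ≤ ∫ s in (-L)..0, (a + h (z + (s : ℝ))) := by
    refine intervalIntegral.norm_integral_le_of_norm_le (by linarith)
      (Eventually.of_forall fun s _ => hb _) ?_
    exact (by fun_prop : Continuous fun s : ℝ => a + h (z + (s : ℝ))).intervalIntegrable _ _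
  rw [intervalIntegral.integral_add intervalIntegrable_const (ii_shift hh z _ _)] at h1
  simpa [seg] using h1

lemma seg_nonneg {L : ℝ} (hL : 0 ≤ L) {h : ℂ → ℝ} (h0 : ∀ w, 0 ≤ h w) (z : ℂ) :
    0 ≤ seg L h z :=
  intervalIntegral.integral_nonneg (by linarith) fun _ _ => h0 _

lemma integral_seg {L : ℝ} (hL : 0 ≤ L) {h : ℂ → ℝ} (hh : Continuous h)
    (hc : HasCompactSupport h) : ∫ z, seg L h z = L * ∫ z, h z := by
  have hi : Integrable h := hh.integrable_of_hasCompactSupport hc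
  have hint : Integrable (Function.uncurry fun (z : ℂ) (s : ℝ) => h (z + (s : ℝ)))
      ((volume : Measure ℂ).prod (volume.restrict (Ioc (-L) 0))) := by
    rw [integrable_prod_iff'
      (by apply Continuous.aestronglyMeasurable; unfold Function.uncurry; fun_prop)]
    refine ⟨Eventually.of_forall fun s => hi.comp_add_right (s : ℂ), ?_⟩
    have : (fun s : ℝ => ∫ z : ℂ, ‖h (z + (s : ℝ))‖) = fun _ => ∫ z, ‖h z‖ := by
      funext s
      exact integral_add_right_eq_self (fun z => ‖h z‖) _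
    simp only [Function.uncurry_apply_pair]
    rw [this]
    exact integrable_const _
  have h1 : ∀ z, seg L h z = ∫ s in Ioc (-L) 0, h (z + (s : ℝ)) := fun z =>
    intervalIntegral.integral_of_le (by linarith)
  simp only [h1]
  rw [integral_integral_swap hint]
  have : (fun s : ℝ => ∫ z : ℂ, h (z + (s : ℝ))) = fun _ => ∫ z, h z := by
    funext s
    exact integral_add_right_eq_self h _
  rw [this]
  simp [hL]

end Seg

lemma seg_hasFDerivAt (L : ℝ) {u : ℂ → ℂ} (hu : ContDiff ℝ 1 u) (hc : HasCompactSupport u)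
    (z : ℂ) : HasFDerivAt (seg L u) (seg L (fderiv ℝ u) z) z := by
  have hd := hu.continuous_fderiv one_ne_zero
  have hu0 := hu.continuous
  obtain ⟨M, hM⟩ := hd.bounded_above_of_compact_support (hc.fderiv ℝ)
  refine intervalIntegral.hasFDerivAt_integral_of_dominated_of_fderiv_le (𝕜 := ℝ) (μ := volume)
    (F := fun (w : ℂ) (s : ℝ) => u (w + (s : ℝ)))
    (F' := fun (w : ℂ) (s : ℝ) => fderiv ℝ u (w + (s : ℝ))) (s := univ) (bound := fun _ => M)
    univ_mem (Eventually.of_forall fun w => ?_) (ii_shift hu0 z _ _) ?_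
    (Eventually.of_forall fun s _ w _ => hM _) intervalIntegrable_const
    (Eventually.of_forall fun s _ w _ => ?_)
  · exact (by fun_prop : Continuous fun s : ℝ => u (w + (s : ℝ))).aestronglyMeasurable
  · exact (by fun_prop : Continuous fun s : ℝ => fderiv ℝ u (z + (s : ℝ))).aestronglyMeasurable
  · have h1 := ((hu.differentiable one_ne_zero) (w + (s : ℝ))).hasFDerivAt
    exact (hasFDerivAt_comp_add_right _).2 h1

lemma seg_contDiff (L : ℝ) {u : ℂ → ℂ} (hu : ContDiff ℝ 1 u) (hc : HasCompactSupport u) :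
    ContDiff ℝ 1 (seg L u) := by
  rw [contDiff_one_iff_fderiv]
  refine ⟨fun z => (seg_hasFDerivAt L hu hc z).differentiableAt, ?_⟩
  have : fderiv ℝ (seg L u) = seg L (fderiv ℝ u) := funext fun z =>
    (seg_hasFDerivAt L hu hc z).fderiv
  rw [this]
  exact seg_cont L (hu.continuous_fderiv one_ne_zero)

lemma seg_fderiv_apply (L : ℝ) {u : ℂ → ℂ} (hu : ContDiff ℝ 1 u) (hc : HasCompactSupport u)
    (z v : ℂ) : fderiv ℝ (seg L u) z v = seg L (fun w => fderiv ℝ u w v) z := by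
  rw [(seg_hasFDerivAt L hu hc z).fderiv]
  exact ContinuousLinearMap.intervalIntegral_apply
    (ii_shift (hu.continuous_fderiv one_ne_zero) z _ _) v

lemma seg_one (L : ℝ) {u : ℂ → ℂ} (hu : ContDiff ℝ 1 u) (z : ℂ) :
    seg L (fun w => fderiv ℝ u w 1) z = u z - u (z - L) := by
  have hd := hu.continuous_fderiv one_ne_zero
  have h1 : ∀ s ∈ uIcc (-L) 0, HasDerivAt (fun s : ℝ => u (z + (s : ℝ)))
      (fderiv ℝ u (z + (s : ℝ)) 1) s := by
    intro s _
    have h2 : HasDerivAt (fun s : ℝ => z + (s : ℂ)) 1 s := by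
      simpa using (Complex.ofRealCLM.hasDerivAt (x := s)).const_add z
    exact ((hu.differentiable one_ne_zero) (z + (s : ℝ))).hasFDerivAt.comp_hasDerivAt s h2
  have := intervalIntegral.integral_eq_sub_of_hasDerivAt h1
    (ii_shift (u := fun w => fderiv ℝ u w 1) (by fun_prop) z _ _)
  unfold seg
  rw [this]
  simp [sub_eq_add_neg]

lemma opNorm_le_two (A : ℂ →L[ℝ] ℂ) : ‖A‖ ≤ ‖A 1‖ + ‖A I‖ := by
  refine A.opNorm_le_bound (by positivity) fun v => ?_
  have h1 : A v = v.re • A 1 + v.im • A I := by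
    rw [← map_smul, ← map_smul, ← map_add]
    congr 1
    simp
  rw [h1]
  have h2 := Complex.abs_re_le_norm v
  have h3 := Complex.abs_im_le_norm v
  calc ‖v.re • A 1 + v.im • A I‖ ≤ ‖v.re • A 1‖ + ‖v.im • A I‖ := norm_add_le _ _
    _ = |v.re| * ‖A 1‖ + |v.im| * ‖A I‖ := by simp only [norm_smul, Real.norm_eq_abs]
    _ ≤ ‖v‖ * ‖A 1‖ + ‖v‖ * ‖A I‖ := by gcongr
    _ = (‖A 1‖ + ‖A I‖) * ‖v‖ := by ring

lemma eP_PQ {P Q : ℂ → ℂ} {z : ℂ} (hP : DifferentiableAt ℝ P z) (hQ : DifferentiableAt ℝ Q z) :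
    eP (fun w => P w + I * Q w) (fun w => P w - I * Q w) z
      = fderiv ℝ P z 1 + fderiv ℝ Q z I := by
  have h1 : HasFDerivAt (fun w => P w + I * Q w) (fderiv ℝ P z + I • fderiv ℝ Q z) z :=
    hP.hasFDerivAt.add (hQ.hasFDerivAt.const_mul I)
  have h2 : HasFDerivAt (fun w => P w - I * Q w) (fderiv ℝ P z - I • fderiv ℝ Q z) z :=
    hP.hasFDerivAt.sub (hQ.hasFDerivAt.const_mul I)
  unfold eP dz dzb wp wm
  rw [h1.fderiv, h2.fderiv]
  simp only [add_apply, sub_apply, smul_apply, smul_eq_mul, mul_one]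
  linear_combination (-(fderiv ℝ Q z I)) * I_mul_I

lemma clamp {f : ℂ → ℂ} (hf : Continuous f) {h : ℂ → ℝ} (h0 : ∀ z, 0 ≤ h z) {Λ s : ℝ}
    (hΛ : 0 < Λ) (hs : 0 < s) (hb : ∀ z, ‖f z‖ ≤ Λ + h z) :
    ∃ g : ℂ → ℂ, ContDiff ℝ 1 g ∧ (∀ z, ‖g z‖ ≤ 2 * Λ) ∧ (∀ z, ‖g z - f z‖ ≤ s + h z) ∧
      ∀ z, f z = 0 → g z = 0 := by
  have hm : ∀ z, 0 < max Λ ‖f z‖ := fun z => hΛ.trans_le (le_max_left _ _)
  set τ : ℂ → ℂ := fun z => (Λ / max Λ ‖f z‖) • f z with hτ
  have hτc : Continuous τ :=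
    (continuous_const.div (continuous_const.max hf.norm) fun z => (hm z).ne').smul hf
  have hτ1 : ∀ z, ‖τ z‖ ≤ Λ := by
    intro z
    simp only [hτ, norm_smul, Real.norm_eq_abs, abs_of_pos (div_pos hΛ (hm z))]
    rw [div_mul_eq_mul_div, div_le_iff₀ (hm z)]
    gcongr
    exact le_max_right _ _
  have hτ2 : ∀ z, ‖τ z - f z‖ ≤ h z := by
    intro z
    rcases le_total ‖f z‖ Λ with hz | hz
    · simp [hτ, max_eq_left hz, hΛ.ne', h0 z]
    · have hp : 0 < ‖f z‖ := hΛ.trans_le hz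
      have e1 : τ z - f z = (Λ / ‖f z‖ - 1) • f z := by
        simp only [hτ, max_eq_right hz, sub_smul, one_smul]
      have e2 : Λ / ‖f z‖ - 1 ≤ 0 := by
        rw [sub_nonpos, div_le_one hp]; exact hz
      rw [e1, norm_smul, Real.norm_eq_abs, abs_of_nonpos e2]
      have e3 : -(Λ / ‖f z‖ - 1) * ‖f z‖ = ‖f z‖ - Λ := by field_simp; ring
      rw [e3]
      linarith [hb z]
  obtain ⟨g, hg1, hg2, hg3⟩ := hτc.exists_contDiff_approx 1 (ε := fun _ => min Λ s)
    continuous_const (fun _ => lt_min hΛ hs)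
  refine ⟨g, hg1, fun z => ?_, fun z => ?_, fun z hz => ?_⟩
  · have h1 := hg2 z
    rw [dist_eq_norm] at h1
    have h2 := norm_le_norm_add_norm_sub' (g z) (τ z)
    have h3 := min_le_left Λ s
    linarith [hτ1 z]
  · have h1 := hg2 z
    rw [dist_eq_norm] at h1
    have h2 := norm_sub_le_norm_sub_add_norm_sub (g z) (τ z) (f z)
    have h3 := min_le_right Λ s
    linarith [hτ2 z]
  · by_contra hne
    have := hg3 hne
    simp [hτ, hz] at this

lemma fderiv_apply_const {G : ℂ → ℂ} (hG : ContDiff ℝ 2 G) (z v w : ℂ) :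
    fderiv ℝ (fun x => fderiv ℝ G x v) z w = fderiv ℝ (fderiv ℝ G) z w v := by
  have h1 : ContDiff ℝ 1 (fderiv ℝ G) := hG.fderiv_right (by norm_num)
  rw [fderiv_clm_apply (h1.differentiable one_ne_zero z) (differentiableAt_const _)]
  simp

lemma setInt_le {R : ℝ} {e g : ℂ → ℝ} (he0 : ∀ z, 0 ≤ e z) {a b : ℝ} {k : ℂ → ℝ}
    (hk : Continuous k) (hg : Integrable g) (hg0 : ∀ z, 0 ≤ g z)
    (hb : ∀ z ∈ closedBall (0 : ℂ) R, e z ≤ a + g z + b * k z) :
    ∫ z in closedBall (0 : ℂ) R, e z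
      ≤ a * volume.real (closedBall (0 : ℂ) R) + (∫ z, g z)
        + b * ∫ z in closedBall (0 : ℂ) R, k z := by
  have hK := isCompact_closedBall (0 : ℂ) R
  have i1 : IntegrableOn (fun _ : ℂ => a) (closedBall (0 : ℂ) R) :=
    continuous_const.continuousOn.integrableOn_compact hK
  have i2 : IntegrableOn g (closedBall (0 : ℂ) R) := hg.integrableOn
  have i3 : IntegrableOn (fun z => b * k z) (closedBall (0 : ℂ) R) :=
    (continuous_const.mul hk).continuousOn.integrableOn_compact hK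
  have i12 : IntegrableOn (fun z => a + g z) (closedBall (0 : ℂ) R) := i1.add i2
  have h1 : ∫ z in closedBall (0 : ℂ) R, e z
      ≤ ∫ z in closedBall (0 : ℂ) R, (a + g z + b * k z) := by
    refine integral_mono_of_nonneg (Eventually.of_forall he0) (i12.add i3) ?_
    exact (ae_restrict_mem measurableSet_closedBall).mono hb
  rw [integral_add i12 i3, integral_add i1 i2, integral_const_mul] at h1
  have h2 : ∫ z in closedBall (0 : ℂ) R, g z ≤ ∫ z, g z :=
    setIntegral_le_integral hg (Eventually.of_forall hg0)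
  have h3 : ∫ _ in closedBall (0 : ℂ) R, a = a * volume.real (closedBall (0 : ℂ) R) := by
    simp [mul_comm]
  linarith

/-- the truncation, written for the two components `P`, `Q` -/
lemma comp_trunc {R : ℝ} (hR : 0 < R) : ∃ C : ℝ, 1 ≤ C ∧ ∀ (P Q : ℂ → ℂ) (Λ σ : ℝ) (h : ℂ → ℝ),
    ContDiff ℝ 1 P → ContDiff ℝ 1 Q → (∀ z, R < ‖z‖ → P z = 0 ∧ Q z = 0) → 0 < Λ → 0 < σ →
    Continuous h → HasCompactSupport h → (∀ z, 0 ≤ h z) →
    (∀ z, ‖P z‖ ≤ Λ + h z ∧ ‖Q z‖ ≤ Λ + h z ∧ ‖fderiv ℝ P z 1 + fderiv ℝ Q z I‖ ≤ Λ + h z) →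
    ∃ P' Q' : ℂ → ℂ, ContDiff ℝ 1 P' ∧ ContDiff ℝ 1 Q' ∧
      (∀ z, ‖P' z‖ + ‖Q' z‖ ≤ C * Λ ∧ ‖fderiv ℝ P' z 1 + fderiv ℝ Q' z I‖ ≤ C * Λ) ∧
      ∫ z in closedBall (0 : ℂ) R, (‖P' z - P z‖ + ‖Q' z - Q z‖) ≤ C * (∫ z, h z) + σ ∧
      ∫ z in closedBall (0 : ℂ) R, ‖fderiv ℝ P' z 1 + fderiv ℝ Q' z I
        - (fderiv ℝ P z 1 + fderiv ℝ Q z I)‖ ≤ C * (∫ z, h z) + σ := by
  obtain ⟨C0, hC0, hlip⟩ := lip_trunc
  obtain ⟨L, hL⟩ : ∃ L : ℝ, L = 2 * R + 1 := ⟨_, rfl⟩
  have hL0 : 0 < L := by linarith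
  refine ⟨2 * L + 2 * (C0 * (4 + L)) + 4, by nlinarith, ?_⟩
  intro P Q Λ σ h hP hQ hz hΛ hσ hh hhc h0 hb
  have hPc : HasCompactSupport P :=
    HasCompactSupport.intro (isCompact_closedBall (0 : ℂ) R) fun z hz' =>
      (hz z (by simpa using hz')).1
  have hQc : HasCompactSupport Q :=
    HasCompactSupport.intro (isCompact_closedBall (0 : ℂ) R) fun z hz' =>
      (hz z (by simpa using hz')).2
  have hPd := hP.continuous_fderiv one_ne_zero
  have hQd := hQ.continuous_fderiv one_ne_zero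
  have hi : Integrable h := hh.integrable_of_hasCompactSupport hhc
  have hI0 : 0 ≤ ∫ z, h z := integral_nonneg h0
  have hsi : Integrable (seg L h) :=
    (seg_cont L hh).integrable_of_hasCompactSupport (seg_hcs hL0.le hhc)
  obtain ⟨f, hf⟩ : ∃ f : ℂ → ℂ, f = fun z => fderiv ℝ P z 1 + fderiv ℝ Q z I := ⟨_, rfl⟩
  have hfz : ∀ z, fderiv ℝ P z 1 + fderiv ℝ Q z I = f z := fun z => by rw [hf]
  have hfc : Continuous f := by rw [hf]; fun_prop
  have hf0 : ∀ z, R < ‖z‖ → f z = 0 := by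
    intro z hz'
    have hn : ∀ᶠ w in 𝓝 z, R < ‖w‖ := (isOpen_lt continuous_const continuous_norm).mem_nhds hz'
    have e1 : P =ᶠ[𝓝 z] fun _ => 0 := hn.mono fun w hw => (hz w hw).1
    have e2 : Q =ᶠ[𝓝 z] fun _ => 0 := hn.mono fun w hw => (hz w hw).2
    rw [← hfz, e1.fderiv_eq, e2.fderiv_eq]
    simp
  have hsh : ∀ z ∈ closedBall (0 : ℂ) R, R < ‖z - (L : ℂ)‖ := by
    intro z hz'
    have h1 : ‖(L : ℂ)‖ = L := by rw [Complex.norm_real, Real.norm_eq_abs, abs_of_pos hL0]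
    have h2 := norm_le_norm_add_norm_sub' (L : ℂ) z
    rw [norm_sub_rev] at h2
    simp only [mem_closedBall, dist_zero_right] at hz'
    linarith
  -- the stream function
  have hΨ1 : ∀ z, fderiv ℝ (seg L Q) z 1 = Q z - Q (z - L) := fun z => by
    rw [seg_fderiv_apply L hQ hQc, seg_one L hQ]
  have hΨI : ∀ z, fderiv ℝ (seg L Q) z I = seg L f z - (P z - P (z - L)) := fun z => by
    rw [seg_fderiv_apply L hQ hQc, ← seg_one L hP, ← seg_sub L hfc (by fun_prop)]
    congr 1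
    funext w
    rw [← hfz]
    ring
  have hi' : Integrable fun z : ℂ => h (z - L) := hi.comp_sub_right (L : ℂ)
  have hi2 : Integrable fun z : ℂ => 2 * h z + 2 * h (z - L) :=
    (hi.const_mul 2).add (hi'.const_mul 2)
  obtain ⟨G, hG, hGb, hGi⟩ := hlip R (seg L Q) ((4 + L) * Λ) (σ / 4)
    (fun z => 2 * h z + 2 * h (z - L) + seg L h z) (seg_contDiff L hQ hQc) (seg_hcs hL0.le hQc)
    (by positivity) (by positivity) (hi2.add hsi)
    (fun z => by have := h0 z; have := h0 (z - L); have := seg_nonneg hL0.le h0 z; positivity)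
    (fun z => by
      refine (opNorm_le_two _).trans ?_
      rw [hΨ1, hΨI]
      have a1 := norm_sub_le (Q z) (Q (z - L))
      have a2 := norm_sub_le (P z) (P (z - L))
      have a3 := norm_sub_le (seg L f z) (P z - P (z - L))
      have a4 := norm_seg_le hL0.le hh (u := f) (a := Λ) (fun w => by rw [← hfz]; exact (hb w).2.2) z
      linarith [(hb z).1, (hb z).2.1, (hb (z - L)).1, (hb (z - L)).2.1])
  have hH : ∫ z, (2 * h z + 2 * h (z - L) + seg L h z) = (4 + L) * ∫ z, h z := by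
    rw [integral_add hi2 hsi, integral_add (hi.const_mul 2) (hi'.const_mul 2), integral_const_mul,
      integral_const_mul, integral_sub_right_eq_self h (L : ℂ), integral_seg hL0.le hh hhc]
    ring
  rw [hH] at hGi
  -- the clamped divergence
  obtain ⟨V, hV⟩ : ∃ V : ℝ, V = volume.real (closedBall (0 : ℂ) R) := ⟨_, rfl⟩
  have hV0 : 0 ≤ V := by rw [hV]; exact measureReal_nonneg
  obtain ⟨s, hs⟩ : ∃ s : ℝ, s = σ / (2 * (L + 1) * (V + 1)) := ⟨_, rfl⟩
  have hs0 : 0 < s := by rw [hs]; positivity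
  have hsV : (L + 1) * s * (V + 1) = σ / 2 := by rw [hs]; field_simp
  obtain ⟨g, hg, hgb, hgf, hg0⟩ := clamp hfc h0 hΛ hs0 (fun w => by rw [← hfz]; exact (hb w).2.2)
  have hgc : HasCompactSupport g :=
    HasCompactSupport.intro (isCompact_closedBall (0 : ℂ) R) fun z hz' =>
      hg0 z (hf0 z (by simpa using hz'))
  have hG1 : ContDiff ℝ 1 (fderiv ℝ G) := hG.fderiv_right (by norm_num)
  have hGv : ∀ v : ℂ, ContDiff ℝ 1 fun z => fderiv ℝ G z v := fun v =>
    hG1.clm_apply contDiff_const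
  have hsg := seg_contDiff L hg hgc
  have hdiv : ∀ z, fderiv ℝ (fun z => seg L g z - fderiv ℝ G z I) z 1
      + fderiv ℝ (fun z => fderiv ℝ G z 1) z I = g z - g (z - L) := by
    intro z
    have e1 : HasFDerivAt (fun z => seg L g z - fderiv ℝ G z I)
        (fderiv ℝ (seg L g) z - fderiv ℝ (fun z => fderiv ℝ G z I) z) z :=
      (hsg.differentiable one_ne_zero z).hasFDerivAt.sub
        ((hGv I).differentiable one_ne_zero z).hasFDerivAt
    have e2 : IsSymmSndFDerivAt ℝ G z := hG.contDiffAt.isSymmSndFDerivAt (by simp)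
    rw [e1.fderiv, sub_apply, seg_fderiv_apply L hg hgc, seg_one L hg, fderiv_apply_const hG,
      fderiv_apply_const hG, e2 1 I]
    ring
  have hap : ∀ (A : ℂ →L[ℝ] ℂ), ‖A 1‖ ≤ ‖A‖ ∧ ‖A I‖ ≤ ‖A‖ := fun A =>
    ⟨by simpa using A.le_opNorm 1, by simpa using A.le_opNorm I⟩
  have hkc : Continuous fun z => ‖fderiv ℝ G z - fderiv ℝ (seg L Q) z‖ :=
    (hG1.continuous.sub ((seg_contDiff L hQ hQc).continuous_fderiv one_ne_zero)).norm
  have hCL : 0 < C0 * (4 + L) := by positivity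
  refine ⟨fun z => seg L g z - fderiv ℝ G z I, fun z => fderiv ℝ G z 1, hsg.sub (hGv I), hGv 1,
    fun z => ⟨?_, ?_⟩, ?_, ?_⟩
  · have a1 := norm_sub_le (seg L g z) (fderiv ℝ G z I)
    have a2 := norm_seg_le hL0.le (h := fun _ => 0) continuous_const (u := g) (a := 2 * Λ)
      (fun w => by simpa using hgb w) z
    have a3 : seg L (fun _ : ℂ => (0 : ℝ)) z = 0 := by simp [seg]
    have a4 := hap (fderiv ℝ G z)
    have a5 := hGb z
    nlinarith [a4.1, a4.2]
  · rw [hdiv]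
    have a1 := norm_sub_le (g z) (g (z - L))
    have a2 := mul_pos hCL hΛ
    have a3 := mul_pos hL0 hΛ
    nlinarith [hgb z, hgb (z - L)]
  · have key := setInt_le (R := R)
      (e := fun z => ‖seg L g z - fderiv ℝ G z I - P z‖ + ‖fderiv ℝ G z 1 - Q z‖)
      (fun z => by positivity) (a := L * s) (b := 2) hkc hsi (seg_nonneg hL0.le h0) (fun z hz' => by
        have b1 := hΨ1 z
        have b2 := hΨI z
        rw [(hz _ (hsh z hz')).2, sub_zero] at b1
        rw [(hz _ (hsh z hz')).1, sub_zero] at b2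
        have c1 : fderiv ℝ G z 1 - Q z = (fderiv ℝ G z - fderiv ℝ (seg L Q) z) 1 := by
          rw [sub_apply, b1]
        have c2 : seg L g z - fderiv ℝ G z I - P z
            = seg L (fun w => g w - f w) z - (fderiv ℝ G z - fderiv ℝ (seg L Q) z) I := by
          rw [sub_apply, b2, seg_sub L hg.continuous hfc]
          ring
        have a1 := norm_seg_le hL0.le hh (u := fun w => g w - f w) (a := s) hgf z
        have a2 := hap (fderiv ℝ G z - fderiv ℝ (seg L Q) z)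
        have a3 := norm_sub_le (seg L (fun w => g w - f w) z)
          ((fderiv ℝ G z - fderiv ℝ (seg L Q) z) I)
        rw [c1, c2]
        linarith [a2.1, a2.2])
    rw [integral_seg hL0.le hh hhc, ← hV] at key
    have a1 := mul_nonneg hL0.le hI0
    have a2 := mul_pos hL0 hs0
    have a3 := mul_nonneg hs0.le hV0
    nlinarith
  · simp only [hdiv, hfz]
    have key := setInt_le (R := R) (e := fun z => ‖g z - g (z - L) - f z‖)
      (fun z => by positivity) (a := s) (b := 0) hkc hi h0 (fun z hz' => by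
        rw [hg0 _ (hf0 _ (hsh z hz')), sub_zero]
        linarith [hgf z])
    rw [← hV] at key
    have a1 := mul_nonneg hL0.le hI0
    have a2 := mul_pos hL0 hs0
    have a3 := mul_nonneg hs0.le hV0
    have a4 := mul_nonneg hCL.le hI0
    have a5 := mul_nonneg a2.le hV0
    nlinarith

end FTr

open FTr in
theorem field_trunc {R : ℝ} (hR : 0 < R) : ∃ C : ℝ, 1 ≤ C ∧ ∀ (W W' : ℂ → ℂ) (Λ σ : ℝ) (h : ℂ → ℝ),
    ContDiff ℝ 1 W → ContDiff ℝ 1 W' → (∀ z, R < ‖z‖ → W z = 0 ∧ W' z = 0) → 0 < Λ → 0 < σ →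
    Continuous h → HasCompactSupport h → (∀ z, 0 ≤ h z) →
    (∀ z, ‖W z‖ ≤ Λ + h z ∧ ‖W' z‖ ≤ Λ + h z ∧ ‖eP W W' z‖ ≤ Λ + h z) →
    ∃ Y Y' : ℂ → ℂ, ContDiff ℝ 1 Y ∧ ContDiff ℝ 1 Y' ∧
      (∀ z, ‖Y z‖ ≤ C * Λ ∧ ‖Y' z‖ ≤ C * Λ ∧ ‖eP Y Y' z‖ ≤ C * Λ) ∧
      ∫ z in closedBall (0 : ℂ) R, ‖Y z - W z‖ ≤ C * (∫ z, h z) + σ ∧
      ∫ z in closedBall (0 : ℂ) R, ‖Y' z - W' z‖ ≤ C * (∫ z, h z) + σ ∧
      ∫ z in closedBall (0 : ℂ) R, ‖eP Y Y' z - eP W W' z‖ ≤ C * (∫ z, h z) + σ := by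
  obtain ⟨C, hC, hT⟩ := comp_trunc hR
  refine ⟨C, hC, ?_⟩
  intro W W' Λ σ h hW hW' hz hΛ hσ hh hhc h0 hb
  obtain ⟨P, hPd⟩ : ∃ P : ℂ → ℂ, P = fun z => (1 / 2 : ℂ) * (W z + W' z) := ⟨_, rfl⟩
  obtain ⟨Q, hQd⟩ : ∃ Q : ℂ → ℂ, Q = fun z => (-I / 2 : ℂ) * (W z - W' z) := ⟨_, rfl⟩
  have hP : ContDiff ℝ 1 P := by rw [hPd]; exact contDiff_const.mul (hW.add hW')
  have hQ : ContDiff ℝ 1 Q := by rw [hQd]; exact contDiff_const.mul (hW.sub hW')
  have eW : W = fun z => P z + I * Q z := by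
    funext z
    rw [hPd, hQd]
    linear_combination ((W z - W' z) / 2) * I_mul_I
  have eW' : W' = fun z => P z - I * Q z := by
    funext z
    rw [hPd, hQd]
    linear_combination (-(W z - W' z) / 2) * I_mul_I
  have he : ∀ z, eP W W' z = fderiv ℝ P z 1 + fderiv ℝ Q z I := fun z => by
    conv_lhs => rw [eW, eW']
    exact eP_PQ (hP.differentiable one_ne_zero z) (hQ.differentiable one_ne_zero z)
  obtain ⟨P', Q', hP', hQ', hb', i1, i2⟩ := hT P Q Λ σ h hP hQ
    (fun z hz' => by simp [hPd, hQd, (hz z hz').1, (hz z hz').2]) hΛ hσ hh hhc h0 (fun z => by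
      refine ⟨?_, ?_, by rw [← he]; exact (hb z).2.2⟩
      · have a1 := norm_add_le (W z) (W' z)
        have a2 : ‖P z‖ = 1 / 2 * ‖W z + W' z‖ := by simp [hPd]
        linarith [(hb z).1, (hb z).2.1]
      · have a1 := norm_sub_le (W z) (W' z)
        have a2 : ‖Q z‖ = 1 / 2 * ‖W z - W' z‖ := by simp [hQd]
        linarith [(hb z).1, (hb z).2.1])
  have he' : ∀ z, eP (fun z => P' z + I * Q' z) (fun z => P' z - I * Q' z) z
      = fderiv ℝ P' z 1 + fderiv ℝ Q' z I := fun z =>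
    eP_PQ (hP'.differentiable one_ne_zero z) (hQ'.differentiable one_ne_zero z)
  have hint : IntegrableOn (fun z => ‖P' z - P z‖ + ‖Q' z - Q z‖) (closedBall (0 : ℂ) R) :=
    ((hP'.continuous.sub hP.continuous).norm.add
      (hQ'.continuous.sub hQ.continuous).norm).continuousOn.integrableOn_compact
      (isCompact_closedBall _ _)
  have hn : ∀ a b : ℂ, ‖a + I * b‖ ≤ ‖a‖ + ‖b‖ ∧ ‖a - I * b‖ ≤ ‖a‖ + ‖b‖ := fun a b =>
    ⟨by simpa using norm_add_le a (I * b), by simpa using norm_sub_le a (I * b)⟩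
  refine ⟨fun z => P' z + I * Q' z, fun z => P' z - I * Q' z, hP'.add (contDiff_const.mul hQ'),
    hP'.sub (contDiff_const.mul hQ'), fun z => ⟨(hn _ _).1.trans (hb' z).1,
      (hn _ _).2.trans (hb' z).1, by rw [he']; exact (hb' z).2⟩, ?_, ?_, ?_⟩
  · refine le_trans (integral_mono_of_nonneg (Eventually.of_forall fun z => norm_nonneg _) hint
      (Eventually.of_forall fun z => ?_)) i1
    have e : P' z + I * Q' z - W z = (P' z - P z) + I * (Q' z - Q z) := by
      rw [congrFun eW z]; ring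
    simp only [e]
    exact (hn _ _).1
  · refine le_trans (integral_mono_of_nonneg (Eventually.of_forall fun z => norm_nonneg _) hint
      (Eventually.of_forall fun z => ?_)) i1
    have e : P' z - I * Q' z - W' z = (P' z - P z) - I * (Q' z - Q z) := by
      rw [congrFun eW' z]; ring
    simp only [e]
    exact (hn _ _).2
  · simp only [he, he']
    exact i2

end Pool.Agent.Lib.MP_a52643_an
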