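import Pool.Agent.Lib.MP_a52643_an.Moll
import Pool.Agent.Lib.MP_a52643_an.Law.Trunc

/-!
A div-curl inequality for fields that are square integrable only after truncation.
-/

open Complex MeasureTheory Set Filter Topology Metric
open scoped ComplexConjugate ContDiff ENNReal

noncomputable section

namespace Pool.Agent.Lib.MP_a52643_an

/-- a field dominated by `e`, with a truncated version on `K` -/
structure Pr (R Λ : ℝ) (e : ℂ → ℝ) (K : Set ℂ) (U U' u u' : ℂ → ℂ) : Prop where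
  cd : ContDiff ℝ 1 U
  cd' : ContDiff ℝ 1 U'
  zero : ∀ z, R < ‖z‖ → U z = 0 ∧ U' z = 0
  le : ∀ z, ‖U z‖ ≤ e z ∧ ‖U' z‖ ≤ e z ∧ ‖eP U U' z‖ ≤ e z
  cu : ContinuousOn u K
  cu' : ContinuousOn u' K
  bu : ∀ z ∈ K, ‖u z‖ ≤ 4 * Λ ∧ ‖u' z‖ ≤ 4 * Λ
  du : ∀ z ∈ K, ‖u z - U z‖ ≤ 4 * max (e z - Λ) 0 ∧ ‖u' z - U' z‖ ≤ 4 * max (e z - Λ) 0

lemma bite_pt {a M d e : ℝ} (ha : 0 ≤ a) (hM : a ≤ M) (hd : 0 ≤ d) (h : a ≤ e + d) (he : 0 ≤ e) :
    a ^ 2 ≤ min e M ^ 2 + 2 * M * d := by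
  have h1 : 0 ≤ M * d := mul_nonneg (ha.trans hM) hd
  rcases le_total a (min e M) with h' | h'
  · have := pow_le_pow_left₀ ha h' 2
    linarith
  · rcases le_total e M with h2 | h2
    · rw [min_eq_left h2] at h' ⊢
      have := mul_le_mul (show a - e ≤ d by linarith) (show a + e ≤ 2 * M by linarith)
        (add_nonneg ha he) hd
      linarith
    · rw [min_eq_right h2]
      have := pow_le_pow_left₀ ha hM 2
      linarith

lemma bite_sb {K : Set ℂ} {δ R B M β : ℝ}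
    (hR : cthickening δ K ⊆ closedBall 0 R) {G G' : ℂ → ℂ} {e : ℂ → ℝ} (cG : Continuous G)
    (cG' : Continuous G') (ce : Continuous e) (se : HasCompactSupport e) (hM : 0 ≤ M)
    (h1 : ∀ z, ‖G z‖ ≤ e z) (h2 : ∀ z, ‖G' z‖ ≤ M) (h3 : ∫ z, min (e z) M ^ 2 ≤ B)
    (h4 : ∫ z in closedBall (0 : ℂ) R, ‖G' z - G z‖ ≤ β) : SB K δ (B + 2 * M * β) G' := by
  intro a ha
  have hD := isCompact_closedBall (0 : ℂ) R
  have hm : ∀ x ∈ K, x + a ∈ closedBall (0 : ℂ) R := fun x hx =>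
    hR (mem_cthickening_of_dist_le _ x δ K hx (by simpa using ha))
  have i1 : IntegrableOn (fun z => ‖G' z‖ ^ 2) (closedBall (0 : ℂ) R) :=
    (cG'.norm.pow 2).continuousOn.integrableOn_compact hD
  have c2 : Continuous fun z => min (e z) M ^ 2 := (ce.min continuous_const).pow 2
  have s2 : HasCompactSupport fun z => min (e z) M ^ 2 :=
    se.comp_left (g := fun t => min t M ^ 2) (by simp [hM])
  have i2 : Integrable fun z => min (e z) M ^ 2 := c2.integrable_of_hasCompactSupport s2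
  have i3 : IntegrableOn (fun z => ‖G' z - G z‖) (closedBall (0 : ℂ) R) :=
    (cG'.sub cG).norm.continuousOn.integrableOn_compact hD
  calc ∫ x in K, ‖G' (x + a)‖ ^ 2 = ∫ x in (fun x => x + a) '' K, ‖G' x‖ ^ 2 :=
        ((measurePreserving_add_right volume a).setIntegral_image_emb
          (measurableEmbedding_addRight a) (fun x => ‖G' x‖ ^ 2) K).symm
    _ ≤ ∫ x in closedBall (0 : ℂ) R, ‖G' x‖ ^ 2 :=
        setIntegral_mono_set i1 (Eventually.of_forall fun x => by positivity)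
          (show (fun x => x + a) '' K ⊆ closedBall (0 : ℂ) R from
            image_subset_iff.2 hm).eventuallyLE
    _ ≤ ∫ x in closedBall (0 : ℂ) R, (min (e x) M ^ 2 + 2 * M * ‖G' x - G x‖) := by
        refine integral_mono i1 (i2.integrableOn.add (i3.const_mul _)) fun z => ?_
        have a1 : ‖G' z‖ ≤ e z + ‖G' z - G z‖ :=
          (norm_le_insert' (G' z) (G z)).trans (add_le_add (h1 z) le_rfl)
        exact bite_pt (norm_nonneg (G' z)) (h2 z) (norm_nonneg (G' z - G z)) a1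
          ((norm_nonneg (G z)).trans (h1 z))
    _ = (∫ x in closedBall (0 : ℂ) R, min (e x) M ^ 2) +
          2 * M * ∫ x in closedBall (0 : ℂ) R, ‖G' x - G x‖ := by
        rw [integral_add i2.integrableOn (i3.const_mul _), integral_const_mul]
    _ ≤ _ := add_le_add
        ((setIntegral_le_integral i2 (Eventually.of_forall fun x => by positivity)).trans h3)
        (mul_le_mul_of_nonneg_left h4 (by positivity))

lemma bite_prod {χ : ℂ → ℂ} {K : Set ℂ} {C0 M γ : ℝ} (h : CutC χ K C0) (hM : 0 ≤ M)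
    {f g f' g' : ℂ → ℂ} (cf : ContinuousOn f K) (cg : ContinuousOn g K) (cf' : ContinuousOn f' K)
    (cg' : ContinuousOn g' K) (h1 : ∀ z ∈ K, ‖f z‖ ≤ M) (h2 : ∀ z ∈ K, ‖g' z‖ ≤ M)
    (h3 : ∫ z in K, ‖f z - f' z‖ ≤ γ) (h4 : ∫ z in K, ‖g z - g' z‖ ≤ γ) :
    ‖(∫ x, χ x * f x * g x) - ∫ x, χ x * f' x * g' x‖ ≤ 2 * C0 * (M * γ) := by
  have hC : 0 ≤ C0 := (norm_nonneg _).trans (h.b0 0)
  have z0 : ∀ x ∉ K, χ x = 0 := fun x hx => image_eq_zero_of_notMem_tsupport fun h' => hx (h.sub h')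
  have e : ∀ f g : ℂ → ℂ, ∫ x, χ x * f x * g x = ∫ x in K, χ x * f x * g x := fun f g =>
    (setIntegral_eq_integral_of_forall_compl_eq_zero fun x hx => by simp [z0 x hx]).symm
  have cχ : ContinuousOn χ K := h.cd.continuous.continuousOn
  have i1 : IntegrableOn (fun z => ‖f z - f' z‖) K := (cf.sub cf').norm.integrableOn_compact h.cpt
  have i2 : IntegrableOn (fun z => ‖g z - g' z‖) K := (cg.sub cg').norm.integrableOn_compact h.cpt
  rw [e, e, ← integral_sub (by exact ((cχ.mul cf).mul cg).integrableOn_compact h.cpt)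
    (by exact ((cχ.mul cf').mul cg').integrableOn_compact h.cpt)]
  calc _ ≤ ∫ z in K, C0 * M * (‖f z - f' z‖ + ‖g z - g' z‖) := by
        refine norm_integral_le_of_norm_le ((i1.add i2).const_mul _)
          ((ae_restrict_iff' h.cpt.measurableSet).2 (Eventually.of_forall fun z hz => ?_))
        rw [show χ z * f z * g z - χ z * f' z * g' z =
          χ z * ((f z - f' z) * g' z + f z * (g z - g' z)) by ring, norm_mul, mul_assoc]
        refine mul_le_mul (h.b0 z) ((norm_add_le _ _).trans ?_) (norm_nonneg _) hC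
        rw [norm_mul, norm_mul, mul_add, mul_comm ‖f z - f' z‖]
        exact add_le_add (mul_le_mul_of_nonneg_right (h2 z hz) (norm_nonneg _))
          (mul_le_mul_of_nonneg_right (h1 z hz) (norm_nonneg _))
    _ = C0 * M * ((∫ z in K, ‖f z - f' z‖) + ∫ z in K, ‖g z - g' z‖) := by
        rw [integral_const_mul, integral_add i1 i2]
    _ ≤ C0 * M * (γ + γ) := mul_le_mul_of_nonneg_left (add_le_add h3 h4) (mul_nonneg hC hM)
    _ = _ := by ring

lemma bite_moll_le {F : ℂ → ℂ} {M : ℝ} (h : ∀ z, ‖F z‖ ≤ M) (ε : ℝ) (x : ℂ) :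
    ‖moll ε F x‖ ≤ M := by
  have i1 : Integrable hk := continuous_hk.integrable_of_hasCompactSupport hcs_hk
  calc _ ≤ ∫ a, hk a * M := by
        refine norm_integral_le_of_norm_le (i1.mul_const _) (Eventually.of_forall fun a => ?_)
        rw [norm_mul, Complex.norm_real, Real.norm_of_nonneg (hk_nonneg a)]
        exact mul_le_mul_of_nonneg_left (h _) (hk_nonneg a)
    _ = M := by rw [integral_mul_const, integral_hk, one_mul]

lemma bite_moll_sub {F G : ℂ → ℂ} (cF : Continuous F) (cG : Continuous G) {H ε R β : ℝ}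
    (hH : ∀ a, hk a ≤ H) (hε : 0 < ε) {x : ℂ} (hx : closedBall x ε ⊆ closedBall 0 R)
    (h : ∫ z in closedBall (0 : ℂ) R, ‖F z - G z‖ ≤ β) :
    ‖moll ε F x - moll ε G x‖ ≤ (ε ^ 2)⁻¹ * H * β := by
  have hH0 : 0 ≤ H := (hk_nonneg 0).trans (hH 0)
  have ii : ∀ {F : ℂ → ℂ}, Continuous F → Integrable fun a => (hk a : ℂ) * F (x + ε • a) :=
    fun cF => Continuous.integrable_of_hasCompactSupport (by fun_prop) hcs_hkC.mul_right
  have e1 : moll ε F x - moll ε G x = ∫ a, hk a • (F (x + ε • a) - G (x + ε • a)) := by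
    rw [moll, moll, ← integral_sub (ii cF) (ii cG)]
    simp only [real_smul, mul_sub]
  have i1 : IntegrableOn (fun z => ‖F z - G z‖) (closedBall (0 : ℂ) R) :=
    (cF.sub cG).norm.continuousOn.integrableOn_compact (isCompact_closedBall _ _)
  rw [e1, integral_scale hε x fun z => F z - G z,
    ← setIntegral_eq_integral_of_forall_compl_eq_zero (s := closedBall (0 : ℂ) R)]
  · calc _ ≤ ∫ z in closedBall (0 : ℂ) R, (ε ^ 2)⁻¹ * H * ‖F z - G z‖ := by
          refine norm_integral_le_of_norm_le (i1.const_mul _) (Eventually.of_forall fun y => ?_)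
          have h0 := hk_nonneg (ε⁻¹ • (y - x))
          rw [norm_smul, Real.norm_of_nonneg (by positivity)]
          exact mul_le_mul_of_nonneg_right (mul_le_mul_of_nonneg_left (hH _) (by positivity))
            (norm_nonneg _)
      _ ≤ _ := by
          rw [integral_const_mul]
          exact mul_le_mul_of_nonneg_left h (by positivity)
  · intro y hy
    have h1 : 1 < ‖ε⁻¹ • (y - x)‖ := by
      have : ε < ‖y - x‖ := by
        by_contra h'
        exact hy (hx (by simpa [dist_eq_norm] using h'))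
      rw [norm_smul, norm_inv, Real.norm_of_nonneg hε.le, ← div_eq_inv_mul, one_lt_div hε]
      exact this
    rw [hk_zero h1, mul_zero, zero_smul]

/-- a bounded approximation `Z` of `U` and of its truncation `u` -/
structure BiteTri (K : Set ℂ) (ε M M' γ s : ℝ) (Z U u : ℂ → ℂ) : Prop where
  cZ : Continuous Z
  cU : Continuous U
  cu : ContinuousOn u K
  bZ : ∀ z, ‖Z z‖ ≤ M
  bu : ∀ z ∈ K, ‖u z‖ ≤ M'
  l1 : ∫ z in K, ‖Z z - u z‖ ≤ γ
  mo : ∀ z ∈ K, ‖moll ε Z z - moll ε U z‖ ≤ s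

lemma bite_tri {K : Set ℂ} (hK : IsCompact K) {δ R H ε M M' β ρ : ℝ}
    (hR : cthickening δ K ⊆ closedBall 0 R) (hH : ∀ a, hk a ≤ H) (hε : 0 < ε) (hεδ : ε ≤ δ)
    {Z U u : ℂ → ℂ} {hh : ℂ → ℝ} (cZ : Continuous Z) (cU : Continuous U) (cu : ContinuousOn u K)
    (ih : Integrable hh) (h0 : ∀ z, 0 ≤ hh z) (hρ : ∫ z, hh z ≤ ρ) (bZ : ∀ z, ‖Z z‖ ≤ M)
    (bu : ∀ z ∈ K, ‖u z‖ ≤ M') (du : ∀ z ∈ K, ‖u z - U z‖ ≤ 4 * hh z)
    (h : ∫ z in closedBall (0 : ℂ) R, ‖Z z - U z‖ ≤ β) :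
    BiteTri K ε M M' (β + 4 * ρ) ((ε ^ 2)⁻¹ * H * β) Z U u := by
  refine ⟨cZ, cU, cu, bZ, bu, ?_, fun z hz => bite_moll_sub cZ cU hH hε
    (((closedBall_subset_closedBall hεδ).trans (closedBall_subset_cthickening hz δ)).trans hR) h⟩
  have hKD : K ⊆ closedBall (0 : ℂ) R := (self_subset_cthickening K).trans hR
  have i1 : IntegrableOn (fun z => ‖Z z - U z‖) (closedBall (0 : ℂ) R) :=
    (cZ.sub cU).norm.continuousOn.integrableOn_compact (isCompact_closedBall _ _)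
  calc _ ≤ ∫ z in K, (‖Z z - U z‖ + 4 * hh z) := by
        refine setIntegral_mono_on ((cZ.continuousOn.sub cu).norm.integrableOn_compact hK)
          ((i1.mono_set hKD).add (ih.integrableOn.const_mul _)) hK.measurableSet fun z hz => ?_
        have a1 := du z hz
        have a2 := norm_sub_le_norm_sub_add_norm_sub (Z z) (U z) (u z)
        rw [norm_sub_rev (U z)] at a2
        linarith
    _ = (∫ z in K, ‖Z z - U z‖) + 4 * ∫ z in K, hh z := by
        rw [integral_add (i1.mono_set hKD) (ih.integrableOn.const_mul _), integral_const_mul]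
    _ ≤ _ := add_le_add
        ((setIntegral_mono_set i1 (Eventually.of_forall fun x => by positivity)
          hKD.eventuallyLE).trans h)
        (mul_le_mul_of_nonneg_left
          ((setIntegral_le_integral ih (Eventually.of_forall h0)).trans hρ) (by norm_num))

lemma bite_two {χ : ℂ → ℂ} {K : Set ℂ} {C0 ε M M' γ s : ℝ} (h : CutC χ K C0) (hM' : 0 ≤ M')
    (hs : 0 ≤ s) {Y W w Z U u : ℂ → ℂ} (h1 : BiteTri K ε M M' γ s Y W w)
    (h2 : BiteTri K ε M M' γ s Z U u) :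
    ‖(∫ x, χ x * Y x * Z x) - ∫ x, χ x * w x * u x‖ ≤ 2 * C0 * ((M + M') * γ) ∧
      ‖(∫ x, χ x * moll ε Y x * moll ε Z x) - ∫ x, χ x * moll ε W x * moll ε U x‖ ≤
        2 * C0 * ((M + s) * (s * volume.real K)) := by
  have hM : 0 ≤ M := (norm_nonneg _).trans (h1.bZ 0)
  have l1 : ∀ {Z U u : ℂ → ℂ}, BiteTri K ε M M' γ s Z U u →
      ∫ z in K, ‖moll ε Z z - moll ε U z‖ ≤ s * volume.real K := fun h3 =>
    (le_abs_self _).trans (norm_setIntegral_le_of_norm_le_const h.cpt.measure_lt_top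
      fun x hx => (norm_norm (moll ε _ x - moll ε _ x)).trans_le (h3.mo x hx))
  refine ⟨bite_prod h (add_nonneg hM hM') h1.cZ.continuousOn h2.cZ.continuousOn h1.cu h2.cu
      (fun z _ => (h1.bZ z).trans (le_add_of_nonneg_right hM'))
      (fun z hz => (h2.bu z hz).trans (le_add_of_nonneg_left hM)) h1.l1 h2.l1,
    bite_prod h (add_nonneg hM hs) (continuous_moll h1.cZ ε).continuousOn
      (continuous_moll h2.cZ ε).continuousOn (continuous_moll h1.cU ε).continuousOn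
      (continuous_moll h2.cU ε).continuousOn
      (fun z _ => (bite_moll_le h1.bZ ε z).trans (le_add_of_nonneg_right hs))
      (fun z hz => ?_) (l1 h1) (l1 h2)⟩
  have a1 := h2.mo z hz
  have a2 := bite_moll_le h2.bZ ε z
  have a3 := norm_le_insert (moll ε Z z) (moll ε U z)
  linarith

theorem bite {J : Type} {l : Filter J} {χ : ℂ → ℂ} {K : Set ℂ} {C0 δ R B : ℝ} (h : CutC χ K C0)
    (hδ : 0 < δ) (hR0 : 0 < R) (hR : cthickening δ K ⊆ closedBall 0 R)
    {U U' u u' W W' w w' : J → ℂ → ℂ} {e : J → ℂ → ℝ} {Λ : J → ℝ}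
    (ce : ∀ j, Continuous (e j)) (se : ∀ j, HasCompactSupport (e j)) (hΛ : ∀ᶠ j in l, 1 ≤ Λ j)
    (hU : ∀ᶠ j in l, Pr R (Λ j) (e j) K (U j) (U' j) (u j) (u' j))
    (hW : ∀ᶠ j in l, Pr R (Λ j) (e j) K (W j) (W' j) (w j) (w' j))
    (tail : Tendsto (fun j => Λ j * ∫ z, max (e j z - Λ j) 0) l (𝓝 0))
    (sq : ∀ c > 0, ∀ᶠ j in l, ∫ z, min (e j z) (c * Λ j) ^ 2 ≤ B) :
    ∃ C : ℝ, ∀ ε, 0 < ε → ε ≤ δ → ∀ η > 0, ∀ᶠ j in l,
      ‖((∫ x, χ x * moll ε (W j) x * moll ε (U' j) x) - ∫ x, χ x * moll ε (W' j) x * moll ε (U j) x)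
        - ((∫ x, χ x * w j x * u' j x) - ∫ x, χ x * w' j x * u j x)‖ ≤ C * ε + η := by
  obtain ⟨C1, hC1, ft⟩ := field_trunc hR0
  obtain ⟨H, hH⟩ : ∃ H, ∀ a, hk a ≤ H := by
    obtain ⟨H, hH⟩ := hcs_hk.exists_bound_of_continuous continuous_hk
    exact ⟨H, fun a => (le_abs_self _).trans (hH a)⟩
  have hH0 : 0 ≤ H := (hk_nonneg 0).trans (hH 0)
  have hC : 0 ≤ C0 := (norm_nonneg _).trans (h.b0 0)
  have hC1' : 0 < C1 := by linarith
  refine ⟨16 * kap * C0 * (B + 2 * C1 * (C1 + 1)), fun ε hε hεδ η hη => ?_⟩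
  obtain ⟨c, hc⟩ : ∃ c, c = (ε ^ 2)⁻¹ * H := ⟨_, rfl⟩
  have hc0 : 0 ≤ c := by rw [hc]; positivity
  obtain ⟨V, hV⟩ : ∃ V, V = volume.real K := ⟨_, rfl⟩
  have hV0 : 0 ≤ V := hV ▸ measureReal_nonneg
  obtain ⟨A, hA⟩ : ∃ A, A = 4 * C0 * ((C1 + 4) * (C1 + 5)) +
    4 * C0 * ((C1 + c * (C1 + 1)) * (c * (C1 + 1) * V)) := ⟨_, rfl⟩
  have hA0 : 0 ≤ A := by rw [hA]; positivity
  obtain ⟨t, ht0, ht1, htA⟩ : ∃ t, 0 < t ∧ t ≤ 1 ∧ A * t ≤ η := by
    refine ⟨min 1 (η / (A + 1)), by positivity, min_le_left _ _, ?_⟩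
    refine (mul_le_mul_of_nonneg_left (min_le_right _ _) hA0).trans ?_
    rw [← mul_div_assoc, div_le_iff₀ (by positivity)]
    nlinarith
  filter_upwards [hΛ, hU, hW, tail.eventually (ge_mem_nhds ht0), sq C1 hC1'] with j hL pU pW hρ hB
  have hL0 : 0 < Λ j := by linarith
  obtain ⟨τ, hτ⟩ : ∃ τ, τ = t / Λ j := ⟨_, rfl⟩
  have hτ0 : 0 < τ := by rw [hτ]; positivity
  have hτ1 : Λ j * τ = t := by rw [hτ]; field_simp
  have hτ2 : τ ≤ Λ j := by nlinarith
  have hρ' : ∫ z, max (e j z - Λ j) 0 ≤ τ := by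
    rw [hτ, le_div_iff₀ hL0, mul_comm]
    exact hρ
  have ch : Continuous fun z => max (e j z - Λ j) 0 :=
    ((ce j).sub continuous_const).max continuous_const
  have sh : HasCompactSupport fun z => max (e j z - Λ j) 0 :=
    (se j).comp_left (g := fun t => max (t - Λ j) 0) (by simp [hL0.le])
  have h0 : ∀ z, 0 ≤ max (e j z - Λ j) 0 := fun z => le_max_right _ _
  have he : ∀ z, e j z ≤ Λ j + max (e j z - Λ j) 0 := fun z => by
    linarith [le_max_left (e j z - Λ j) 0]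
  have key : ∀ {U U' u u' : ℂ → ℂ}, Pr R (Λ j) (e j) K U U' u u' → ∃ Z Z' : ℂ → ℂ,
      ContDiff ℝ 1 Z ∧ ContDiff ℝ 1 Z' ∧ SB K ε (B + 2 * C1 * (C1 + 1)) Z ∧
      SB K ε (B + 2 * C1 * (C1 + 1)) Z' ∧ SB K ε (B + 2 * C1 * (C1 + 1)) (eP Z Z') ∧
      BiteTri K ε (C1 * Λ j) (4 * Λ j) ((C1 + 1) * τ + 4 * τ) (c * ((C1 + 1) * τ)) Z U u ∧
      BiteTri K ε (C1 * Λ j) (4 * Λ j) ((C1 + 1) * τ + 4 * τ) (c * ((C1 + 1) * τ)) Z' U' u' := by
    intro U U' u u' p
    obtain ⟨Z, Z', c1, c2, b, e1, e2, e3⟩ := ft U U' (Λ j) τ _ p.cd p.cd' p.zero hL0 hτ0 ch sh h0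
      fun z => ⟨(p.le z).1.trans (he z), (p.le z).2.1.trans (he z), (p.le z).2.2.trans (he z)⟩
    have hβ : C1 * (∫ z, max (e j z - Λ j) 0) + τ ≤ (C1 + 1) * τ := by
      nlinarith [mul_le_mul_of_nonneg_left hρ' hC1'.le]
    have hM : 0 ≤ C1 * Λ j := by positivity
    have hB' : B + 2 * (C1 * Λ j) * ((C1 + 1) * τ) ≤ B + 2 * C1 * (C1 + 1) := by
      have : 2 * (C1 * Λ j) * ((C1 + 1) * τ) = 2 * C1 * (C1 + 1) * t := by rw [← hτ1]; ring
      rw [this]
      exact add_le_add le_rfl (mul_le_of_le_one_right (by positivity) ht1)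
    have ih := ch.integrable_of_hasCompactSupport (μ := volume) sh
    refine ⟨Z, Z', c1, c2,
      (bite_sb hR p.cd.continuous c1.continuous (ce j) (se j) hM (fun z => (p.le z).1)
        (fun z => (b z).1) hB (e1.trans hβ)).mono hεδ hB',
      (bite_sb hR p.cd'.continuous c2.continuous (ce j) (se j) hM (fun z => (p.le z).2.1)
        (fun z => (b z).2.1) hB (e2.trans hβ)).mono hεδ hB',
      (bite_sb hR (continuous_eP p.cd p.cd') (continuous_eP c1 c2) (ce j) (se j) hM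
        (fun z => (p.le z).2.2) (fun z => (b z).2.2) hB (e3.trans hβ)).mono hεδ hB', ?_, ?_⟩
    · rw [hc]
      exact bite_tri h.cpt hR hH hε hεδ c1.continuous p.cd.continuous p.cu ih h0 hρ'
        (fun z => (b z).1) (fun z hz => (p.bu z hz).1) (fun z hz => (p.du z hz).1) (e1.trans hβ)
    · rw [hc]
      exact bite_tri h.cpt hR hH hε hεδ c2.continuous p.cd'.continuous p.cu' ih h0 hρ'
        (fun z => (b z).2.1) (fun z hz => (p.bu z hz).2) (fun z hz => (p.du z hz).2) (e2.trans hβ)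
  obtain ⟨Z, Z', z1, z2, z3, z4, z5, z6, z7⟩ := key pU
  obtain ⟨Y, Y', y1, y2, y3, y4, y5, y6, y7⟩ := key pW
  have dc := div_curl hε h z1 z2 y1 y2 z3 z4 z5 y3 y4 y5
  have hs : 0 ≤ c * ((C1 + 1) * τ) := by positivity
  obtain ⟨a1, a2⟩ := bite_two h (by positivity) hs y6 z7
  obtain ⟨a3, a4⟩ := bite_two h (by positivity) hs y7 z6
  rw [← hV] at a2 a4
  have n1 : 2 * C0 * ((C1 * Λ j + 4 * Λ j) * ((C1 + 1) * τ + 4 * τ)) =
      2 * C0 * ((C1 + 4) * (C1 + 5)) * t := by rw [← hτ1]; ring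
  have n2 : 2 * C0 * ((C1 * Λ j + c * ((C1 + 1) * τ)) * (c * ((C1 + 1) * τ) * V)) ≤
      2 * C0 * ((C1 + c * (C1 + 1)) * (c * (C1 + 1) * V)) * t := by
    calc _ ≤ 2 * C0 * ((C1 * Λ j + c * ((C1 + 1) * Λ j)) * (c * ((C1 + 1) * τ) * V)) := by gcongr
      _ = _ := by rw [← hτ1]; ring
  have tri : ∀ p q r s p' q' r' s' : ℂ, ‖(p - q) - (r - s)‖ ≤
      ‖(p' - q') - (r' - s')‖ + ‖p' - p‖ + ‖q' - q‖ + ‖r' - r‖ + ‖s' - s‖ := by
    intro p q r s p' q' r' s'
    rw [show (p - q) - (r - s) =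
      ((p' - q') - (r' - s')) - (p' - p) + (q' - q) + (r' - r) - (s' - s) by ring]
    exact (norm_sub_le _ _).trans (add_le_add ((norm_add_le _ _).trans (add_le_add
      ((norm_add_le _ _).trans (add_le_add (norm_sub_le _ _) le_rfl)) le_rfl)) le_rfl)
  refine (tri _ _ _ _ _ _ _ _).trans
    ((add_le_add (add_le_add (add_le_add (add_le_add dc a2) a4) a1) a3).trans ?_)
  rw [hA] at htA
  rw [n1]
  linarith

end Pool.Agent.Lib.MP_a52643_an
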