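import Pool.Agent.Lib.MP_a52643_an.Moll

/-!
A pointwise bound for the next ladder function at the scale of the wavelength.
-/

open Complex MeasureTheory Set Filter Topology Metric
open scoped ComplexConjugate ContDiff ENNReal

noncomputable section

namespace Pool.Agent.Lib.MP_a52643_an

/-- the modulus of the Cauchy kernel on the unit disc -/
def kS (a : ℂ) : ℝ := (closedBall (0 : ℂ) 1).indicator (fun a => ‖a‖⁻¹) a

lemma measurable_kS : Measurable kS :=
  measurable_norm.inv.indicator measurableSet_closedBall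

lemma kS_nonneg (a : ℂ) : 0 ≤ kS a := indicator_nonneg (fun _ _ => by positivity) a

lemma kS_zero {a : ℂ} (h : 1 < ‖a‖) : kS a = 0 := indicator_of_notMem (by simpa using h) _

lemma kS_of_le {a : ℂ} (h : ‖a‖ ≤ 1) : kS a = ‖a‖⁻¹ := indicator_of_mem (by simpa using h) _

lemma one_le_kS {a : ℂ} (h0 : a ≠ 0) (h : ‖a‖ ≤ 1) : 1 ≤ kS a := by
  rw [kS_of_le h]
  exact (one_le_inv₀ (norm_pos_iff.2 h0)).2 h

lemma integrableOn_inv_norm : IntegrableOn (fun a : ℂ => ‖a‖⁻¹) (closedBall 0 1) := by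
  have h : IntegrableOn (fun a : ℂ => ‖a‖⁻¹) (ball 0 2) :=
    integrableOn_ball_of_norm_le_rpow (μ := volume) (C := 1) (α := 1) (r := 2)
      (by simp) (by simp) (Eventually.of_forall fun a => by simp [Real.rpow_neg_one])
      measurable_norm.inv.aestronglyMeasurable
  exact h.mono_set (closedBall_subset_ball (by norm_num))

lemma integrable_kS : Integrable kS :=
  (integrable_indicator_iff measurableSet_closedBall).2 integrableOn_inv_norm

lemma integrable_kS_mul {f : ℂ → ℝ} (hf : ContinuousOn f (closedBall 0 1)) :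
    Integrable fun a => kS a * f a := by
  have : (fun a => kS a * f a) = (closedBall (0 : ℂ) 1).indicator fun a => ‖a‖⁻¹ * f a := by
    ext a
    by_cases h : a ∈ closedBall (0 : ℂ) 1 <;> simp [kS, h]
  rw [this, integrable_indicator_iff measurableSet_closedBall]
  exact integrableOn_inv_norm.mul_continuousOn hf (isCompact_closedBall 0 1)

/-- the truncated Cauchy kernel with ratio `s` -/
def kr (s : ℝ) (a : ℂ) : ℂ := ((bet (normSq a) - bet (s ^ 2 * normSq a)) / cH : ℝ) * a⁻¹

lemma kr_eventually {s : ℝ} (hs : 1 ≤ s) : kr s =ᶠ[𝓝 0] fun _ => 0 := by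
  have c : Continuous fun a : ℂ => s ^ 2 * normSq a := continuous_const.mul continuous_normSq
  have : ∀ᶠ a : ℂ in 𝓝 0, s ^ 2 * normSq a < 1 / 2 :=
    c.continuousAt.eventually (gt_mem_nhds (by simp))
  filter_upwards [this] with a ha
  have h1 : 1 ≤ s ^ 2 := one_le_pow₀ hs
  have h2 := normSq_nonneg a
  simp [kr, bet_zero (t := normSq a) (by nlinarith), bet_zero (t := s ^ 2 * normSq a) ha.le]

lemma contDiff_kr {s : ℝ} (hs : 1 ≤ s) : ContDiff ℝ 1 (kr s) := by
  have hM : ContDiff ℝ 1 fun a : ℂ => (bet (normSq a) - bet (s ^ 2 * normSq a)) / cH :=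
    (((contDiff_bet.of_le (by simp)).comp contDiff_normSq).sub
      ((contDiff_bet.of_le (by simp)).comp (contDiff_const.mul contDiff_normSq))).div_const _
  rw [contDiff_iff_contDiffAt]
  intro a
  by_cases ha : a = 0
  · rw [ha]; exact contDiffAt_const.congr_of_eventuallyEq (kr_eventually hs)
  · exact (ofRealCLM.contDiff.comp hM).contDiffAt.mul (contDiffAt_id.inv ha)

lemma kr_zero {s : ℝ} (hs : 1 ≤ s) {a : ℂ} (h : 1 < ‖a‖) : kr s a = 0 := by
  have : 1 ≤ normSq a := by rw [normSq_eq_norm_sq]; nlinarith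
  have h1 : 1 ≤ s ^ 2 := one_le_pow₀ hs
  simp [kr, bet_one this, bet_one (t := s ^ 2 * normSq a) (by nlinarith)]

lemma hcs_kr {s : ℝ} (hs : 1 ≤ s) : HasCompactSupport (kr s) :=
  HasCompactSupport.intro (isCompact_closedBall 0 1) fun a ha => kr_zero hs (by simpa using ha)

lemma norm_kr_le {s : ℝ} (hs : 1 ≤ s) (a : ℂ) : ‖kr s a‖ ≤ cH⁻¹ * kS a := by
  have hc := cH_pos
  by_cases h : ‖a‖ ≤ 1
  · rw [kS_of_le h, kr, norm_mul, norm_inv, Complex.norm_real, norm_div, Real.norm_of_nonneg hc.le,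
      div_eq_inv_mul]
    refine mul_le_mul_of_nonneg_right (mul_le_of_le_one_right (by positivity) ?_) (by positivity)
    have a1 : ∀ t, 0 ≤ bet t := fun t => Real.smoothTransition.nonneg _
    have a2 : ∀ t, bet t ≤ 1 := fun t => Real.smoothTransition.le_one _
    rw [Real.norm_eq_abs, abs_le]
    constructor <;> linarith [a1 (normSq a), a2 (normSq a), a1 (s ^ 2 * normSq a),
      a2 (s ^ 2 * normSq a)]
  · rw [kr_zero hs (not_le.1 h), norm_zero]
    exact mul_nonneg (by positivity) (kS_nonneg a)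

lemma dzb_kr {s : ℝ} (hs : 1 ≤ s) (a : ℂ) : dzb (kr s) a = hk a - s ^ 2 * hk (s • a) := by
  by_cases ha : a = 0
  · have : deriv bet 0 = 0 := deriv_bet_zero (Or.inl (by norm_num))
    simp [ha, dzb, (kr_eventually hs).fderiv_eq, wm, hk, h0, this]
  · have hb := fun t => (contDiff_bet.differentiable (by simp) t).hasDerivAt
    have hn : HasFDerivAt (normSq : ℂ → ℝ) ((2 * a.re) • reCLM + (2 * a.im) • imCLM) a := by
      have : (normSq : ℂ → ℝ) = fun a => reCLM a * reCLM a + imCLM a * imCLM a := by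
        ext a; simp [normSq_apply]
      rw [this]
      refine ((reCLM.hasFDerivAt.fun_mul reCLM.hasFDerivAt).fun_add
        (imCLM.hasFDerivAt.fun_mul imCLM.hasFDerivAt)).congr_fderiv ?_
      ext1 h; simp; ring
    have h1 := (((hb (normSq a)).comp_hasFDerivAt a hn).fun_sub
      ((hb (s ^ 2 * normSq a)).comp_hasFDerivAt a (hn.const_mul (s ^ 2)))).mul_const cH⁻¹
    have h2 := (ofRealCLM.hasFDerivAt.comp a h1).fun_mul
      ((hasFDerivAt_inv (𝕜 := ℂ) ha).restrictScalars ℝ)
    have h3 : fderiv ℝ (kr s) a = _ := h2.fderiv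
    have h4 : normSq (s • a) = s ^ 2 * normSq a := by simp [normSq_apply]; ring
    simp only [dzb, wm, h3, hk, h0, h4]
    simp
    have := cH_pos.ne'
    have e := re_add_im a
    have hc : (cH : ℂ) ≠ 0 := by exact_mod_cast this
    field_simp
    linear_combination
      (2 * a * (deriv bet (normSq a) - s ^ 2 * deriv bet (s ^ 2 * normSq a) : ℂ)) * e
      - ((bet (normSq a) - bet (s ^ 2 * normSq a) : ℂ)) * I_mul_I

lemma moll_div {U : ℂ → ℂ} (x : ℂ) (ε : ℝ) {s : ℝ} (hs : 0 < s) :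
    ∫ a, (s : ℂ) ^ 2 * hk (s • a) * U (x + ε • a) = moll (ε / s) U x := by
  have h1 := Measure.integral_comp_smul (volume : Measure ℂ)
    (fun b => (hk b : ℂ) * U (x + (ε / s) • b)) s
  simp only [smul_smul, div_mul_cancel₀ ε hs.ne', Complex.finrank_real_complex] at h1
  simp only [mul_assoc]
  rw [integral_const_mul, h1, abs_of_pos (by positivity), moll, real_smul, ← mul_assoc]
  have : (s : ℂ) ≠ 0 := by exact_mod_cast hs.ne'
  push_cast
  rw [mul_inv_cancel₀ (pow_ne_zero 2 this), one_mul]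

lemma moll_zero (U : ℂ → ℂ) (x : ℂ) : moll 0 U x = U x := by
  simp only [moll, zero_smul, add_zero]
  rw [integral_mul_const, integral_complex_ofReal, integral_hk]
  simp

lemma cauchy_pompeiu {U : ℂ → ℂ} (hU : ContDiff ℝ 1 U) (x : ℂ) {ε : ℝ} (hε : 0 < ε) :
    ‖U x - moll ε U x‖ ≤ ε / cH * ∫ a, kS a * ‖dzb U (x + ε • a)‖ := by
  have cU : Continuous fun a : ℂ => U (x + ε • a) := hU.continuous.comp (by fun_prop)
  have cD : Continuous fun a : ℂ => dzb U (x + ε • a) := (continuous_dzb hU).comp (by fun_prop)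
  have key : ∀ s : ℝ, 1 ≤ s →
      ‖moll (ε / s) U x - moll ε U x‖ ≤ ε / cH * ∫ a, kS a * ‖dzb U (x + ε • a)‖ := by
    intro s hs
    have hs0 : 0 < s := by linarith
    have h := ibp_shift (contDiff_kr hs) (hcs_kr hs) hU x ε
    simp only [dzb_kr hs, sub_mul] at h
    have i1 : Integrable fun a : ℂ => (hk a : ℂ) * U (x + ε • a) :=
      ((continuous_ofReal.comp continuous_hk).mul cU).integrable_of_hasCompactSupport
        hcs_hkC.mul_right
    have i2 : Integrable fun a : ℂ => (s : ℂ) ^ 2 * hk (s • a) * U (x + ε • a) := by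
      refine Continuous.integrable_of_hasCompactSupport (by fun_prop) ?_
      refine HasCompactSupport.intro (isCompact_closedBall 0 1) fun a ha => ?_
      have h1 : 1 < ‖a‖ := by simpa using ha
      have : 1 < ‖s • a‖ := by
        rw [norm_smul, Real.norm_of_nonneg hs0.le]; nlinarith
      rw [hk_zero this]; simp
    rw [integral_sub i1 i2, moll_div x ε hs0] at h
    have e : moll (ε / s) U x - moll ε U x = ε * ∫ a, kr s a * dzb U (x + ε • a) := by
      unfold moll at h ⊢
      linear_combination -h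
    rw [e, norm_mul, Complex.norm_real, Real.norm_of_nonneg hε.le, div_eq_mul_inv, mul_assoc,
      ← integral_const_mul]
    refine mul_le_mul_of_nonneg_left (norm_integral_le_of_norm_le
      ((integrable_kS_mul cD.norm.continuousOn).const_mul _) (Eventually.of_forall fun a => ?_))
      hε.le
    rw [norm_mul, ← mul_assoc]
    exact mul_le_mul_of_nonneg_right (norm_kr_le hs a) (norm_nonneg _)
  have cA : Continuous fun e : ℝ => moll e U x :=
    continuous_shift_integral (by fun_prop) hcs_hkC hU.continuous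
      (s := fun (e : ℝ) (a : ℂ) => x + e • a) (by fun_prop)
  have t : Tendsto (fun s : ℝ => ε / s) atTop (𝓝 0) := tendsto_id.const_div_atTop ε
  have t2 := (((cA.tendsto 0).comp t).sub_const (moll ε U x)).norm
  rw [moll_zero] at t2
  exact le_of_tendsto t2 ((eventually_ge_atTop 1).mono key)

lemma dz_shift {U : ℂ → ℂ} (hU : ContDiff ℝ 1 U) (x : ℂ) (ε : ℝ) (a : ℂ) :
    dz (fun a => U (x + ε • a)) a = ε * dz U (x + ε • a) := by
  simp only [dz, wp, fderiv_shift hU]; ring

lemma ibp_shift_dz {k U : ℂ → ℂ} (hk : ContDiff ℝ 1 k) (hc : HasCompactSupport k)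
    (hU : ContDiff ℝ 1 U) (x : ℂ) (ε : ℝ) :
    ∫ a, dz k a * U (x + ε • a) = -ε * ∫ a, k a * dz U (x + ε • a) := by
  have hU' : ContDiff ℝ 1 fun a => U (x + ε • a) :=
    hU.comp (contDiff_const.add (contDiff_id.const_smul ε))
  have h := integral_dz (hk.mul hU') hc.mul_right
  simp only [dz_mul (hk.differentiable one_ne_zero _) (hU'.differentiable one_ne_zero _),
    dz_shift hU] at h
  have c1 : Continuous fun a => dz U (x + ε • a) := (continuous_dz hU).comp (by fun_prop)
  have i1 : Integrable fun a => dz k a * U (x + ε • a) :=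
    ((continuous_dz hk).mul hU'.continuous).integrable_of_hasCompactSupport (hcs_dz hc).mul_right
  have i2 : Integrable fun a => k a * (ε * dz U (x + ε • a)) :=
    (hk.continuous.mul (continuous_const.mul c1)).integrable_of_hasCompactSupport hc.mul_right
  rw [integral_add i1 i2] at h
  have e : ∫ a, k a * (ε * dz U (x + ε • a)) = ε * ∫ a, k a * dz U (x + ε • a) := by
    rw [← integral_const_mul]; congr 1; ext a; ring
  rw [e] at h
  linear_combination h

lemma contDiff_hkC : ContDiff ℝ 1 fun a => (hk a : ℂ) := by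
  have h1 : ContDiff ℝ 1 (deriv bet) := (contDiff_succ_iff_deriv.1 contDiff_bet).2.2
  exact ofRealCLM.contDiff.comp ((h1.comp contDiff_normSq).div_const cH)

lemma dz_hkC_zero {a : ℂ} (h : 1 < ‖a‖) : dz (fun a => (hk a : ℂ)) a = 0 := by
  have : (fun a => (hk a : ℂ)) =ᶠ[𝓝 a] fun _ => 0 := by
    filter_upwards [continuous_norm.continuousAt.eventually (lt_mem_nhds h)] with b hb
    simp [hk_zero hb]
  simp [dz, this.fderiv_eq, wp]

lemma contDiff_imC : ContDiff ℝ 1 fun w : ℂ => (w.im : ℂ) := (ofRealCLM.comp imCLM).contDiff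

lemma dz_imC (w : ℂ) : dz (fun w : ℂ => (w.im : ℂ)) w = -I / 2 := by
  have h : fderiv ℝ (fun w : ℂ => (w.im : ℂ)) w = _ := (ofRealCLM.comp imCLM).fderiv
  simp [dz, wp, h]

lemma exists_hk_bound : ∃ M : ℝ, 0 ≤ M ∧ (∀ a, ‖(hk a : ℂ)‖ ≤ M) ∧
    ∀ a, ‖dz (fun a => (hk a : ℂ)) a‖ ≤ M := by
  obtain ⟨M1, h1⟩ := contDiff_hkC.continuous.bounded_above_of_compact_support hcs_hkC
  obtain ⟨M2, h2⟩ := (continuous_dz contDiff_hkC).bounded_above_of_compact_support (hcs_dz hcs_hkC)
  exact ⟨max M1 M2, (norm_nonneg _).trans ((h1 0).trans (le_max_left _ _)),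
    fun a => (h1 a).trans (le_max_left _ _), fun a => (h2 a).trans (le_max_right _ _)⟩

lemma moll_ladder {U U0 : ℂ → ℂ} (hU0 : ContDiff ℝ 1 U0) (z : ℂ) {ε : ℝ} {c : ℂ}
    (h : ∀ a : ℂ, ‖a‖ ≤ 1 → U (z + ε • a)
      = ε * (2 * (z + ε • a).im * dz U0 (z + ε • a)) + ε * c * U0 (z + ε • a)) :
    moll ε U z = ∫ a, (-2 * dz (fun a => (hk a : ℂ)) a * (z + ε • a).im + ε * (c + I) * hk a)
      * U0 (z + ε • a) := by
  have hU1 : ContDiff ℝ 1 fun w : ℂ => (w.im : ℂ) * U0 w := contDiff_imC.mul hU0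
  have h1 := ibp_shift_dz contDiff_hkC hcs_hkC hU1 z ε
  have cs : Continuous fun a : ℂ => z + ε • a := by fun_prop
  have ch := contDiff_hkC.continuous
  have i1 : Integrable fun a => dz (fun a => (hk a : ℂ)) a
      * (((z + ε • a).im : ℂ) * U0 (z + ε • a)) :=
    ((continuous_dz contDiff_hkC).mul (hU1.continuous.comp cs)).integrable_of_hasCompactSupport
      (hcs_dz hcs_hkC).mul_right
  have i2 : Integrable fun a => (hk a : ℂ) * U0 (z + ε • a) :=
    (ch.mul (hU0.continuous.comp cs)).integrable_of_hasCompactSupport hcs_hkC.mul_right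
  have i3 : Integrable fun a => (hk a : ℂ) * dz (fun w : ℂ => (w.im : ℂ) * U0 w) (z + ε • a) :=
    (ch.mul ((continuous_dz hU1).comp cs)).integrable_of_hasCompactSupport hcs_hkC.mul_right
  have e1 : moll ε U z = ∫ a, (2 * ε * ((hk a : ℂ) * dz (fun w : ℂ => (w.im : ℂ) * U0 w) (z + ε • a))
      + ε * (c + I) * ((hk a : ℂ) * U0 (z + ε • a))) := by
    unfold moll
    congr 1; ext a
    by_cases ha : ‖a‖ ≤ 1
    · rw [h a ha, dz_mul (contDiff_imC.differentiable one_ne_zero _)
        (hU0.differentiable one_ne_zero _), dz_imC]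
      ring
    · rw [hk_zero (not_le.1 ha)]; simp
  have e2 : ∫ a, (-2 * dz (fun a => (hk a : ℂ)) a * (z + ε • a).im + ε * (c + I) * hk a)
      * U0 (z + ε • a) = ∫ a, (-2 * (dz (fun a => (hk a : ℂ)) a
      * (((z + ε • a).im : ℂ) * U0 (z + ε • a))) + ε * (c + I) * ((hk a : ℂ) * U0 (z + ε • a))) := by
    congr 1; ext a; ring
  rw [e1, e2, integral_add (i3.const_mul _) (i2.const_mul _),
    integral_add (i1.const_mul _) (i2.const_mul _)]
  simp only [integral_const_mul]
  rw [h1]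
  ring

theorem ladder_pt {K : Set ℂ} (hK : IsCompact K) (hU : K ⊆ UH) (n : ℤ) :
    ∃ C T : ℝ, ∀ (lam : ℝ) (Φ : ℤ → V → ℂ), Ladder lam Φ → T ≤ al lam n → ∀ z ∈ K,
      ‖ph Φ (n + 1) z‖ ≤ C * ∫ a, kS a * (‖ph Φ n (z + (al lam n)⁻¹ • a)‖
        + (al lam n)⁻¹ * ‖ph Φ (n + 1) (z + (al lam n)⁻¹ • a)‖) := by
  obtain ⟨δ, hδ, hδU⟩ := hK.exists_cthickening_subset_open isOpen_UH hU
  have hK1 := hK.cthickening (r := δ)
  obtain ⟨θ, hθ, -, hθs, hθ1, -⟩ := exists_bump hK1 isOpen_UH hδU
  obtain ⟨Y, hY⟩ := hK1.exists_bound_of_continuousOn (f := fun w : ℂ => (w.im : ℂ)) (by fun_prop)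
  obtain ⟨Z, hZ⟩ := hK1.exists_bound_of_continuousOn
    ((contOn_inv_im 1 2 two_ne_zero).mono hδU)
  obtain ⟨M, hM0, hM1, hM2⟩ := exists_hk_bound
  have hc := cH_pos
  set C1 : ℝ := |Z| * (1 + ‖((n : ℂ) + 1)‖) with hC1
  set C2 : ℝ := 2 * M * |Y| + ‖-I * n + I‖ * M with hC2
  refine ⟨cH⁻¹ * C1 + C2, max 1 δ⁻¹, fun lam Φ hL hT z hz => ?_⟩
  set α := al lam n with hα
  have hα1 : 1 ≤ α := (le_max_left _ _).trans hT
  have hα0 : 0 < α := by linarith
  set ε := α⁻¹ with hεd
  have hε : 0 < ε := inv_pos.2 hα0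
  have hε1 : ε ≤ 1 := inv_le_one_of_one_le₀ hα1
  have hεδ : ε ≤ δ := inv_le_of_inv_le₀ hδ ((le_max_right _ _).trans hT)
  have hεα : (ε : ℂ) * α = 1 := by exact_mod_cast inv_mul_cancel₀ hα0.ne'
  have hm : ∀ a : ℂ, ‖a‖ ≤ 1 → z + ε • a ∈ cthickening δ K := fun a ha =>
    mem_cthickening_of_dist_le _ z δ K hz (by
      rw [dist_self_add_left, norm_smul, Real.norm_of_nonneg hε.le]; nlinarith)
  set U : ℂ → ℂ := fun w => (θ w : ℂ) * ph Φ (n + 1) w with hUd
  set U0 : ℂ → ℂ := fun w => (θ w : ℂ) * ph Φ n w with hU0d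
  have cU : ContDiff ℝ 1 U := contDiff_cut hθ hθs (hL.cd_ph _)
  have cU0 : ContDiff ℝ 1 U0 := contDiff_cut hθ hθs (hL.cd_ph _)
  have ev : ∀ w ∈ cthickening δ K, ∀ F : ℂ → ℂ, (fun w => (θ w : ℂ) * F w) =ᶠ[𝓝 w] F := by
    intro w hw F
    filter_upwards [eventually_nhdsSet_iff_forall.1 hθ1 w hw] with u hu
    simp [hu]
  have cs : Continuous fun a : ℂ => z + ε • a := by fun_prop
  have cph : ∀ m, ContinuousOn (fun a : ℂ => ‖ph Φ m (z + ε • a)‖) (closedBall 0 1) := fun m =>
    ((hL.cd_ph m).continuousOn.comp cs.continuousOn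
      fun a ha => hδU (hm a (by simpa using ha))).norm
  have iG : Integrable fun a => kS a * (‖ph Φ n (z + ε • a)‖ + ε * ‖ph Φ (n + 1) (z + ε • a)‖) :=
    integrable_kS_mul ((cph n).add (continuousOn_const.mul (cph (n + 1))))
  have b1 : ‖U z - moll ε U z‖ ≤ cH⁻¹ * C1 *
      ∫ a, kS a * (‖ph Φ n (z + ε • a)‖ + ε * ‖ph Φ (n + 1) (z + ε • a)‖) := by
    refine (cauchy_pompeiu cU z hε).trans ?_
    rw [div_eq_inv_mul, mul_assoc, mul_assoc]
    refine mul_le_mul_of_nonneg_left ?_ (by positivity)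
    rw [← integral_const_mul, ← integral_const_mul]
    refine integral_mono_of_nonneg
      (Eventually.of_forall fun a => mul_nonneg hε.le (mul_nonneg (kS_nonneg a) (norm_nonneg _)))
      (iG.const_mul _) (Eventually.of_forall fun a => ?_)
    by_cases ha : ‖a‖ ≤ 1
    · have hw := hm a ha
      have hy : ((z + ε • a).im : ℂ) ≠ 0 := by exact_mod_cast (ne_of_gt (hδU hw))
      have e0 : dzb U (z + ε • a) = dzb (ph Φ (n + 1)) (z + ε • a) := by
        simp only [dzb, (ev _ hw _).fderiv_eq, hUd]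
      have e1 := hL.dzb_ph n (hδU hw)
      rw [← hα] at e1
      have e2 : (ε : ℂ) * dzb U (z + ε • a) = 1 / (2 * ((z + ε • a).im : ℂ)) *
          (-ph Φ n (z + ε • a) + I * (n + 1) * (ε * ph Φ (n + 1) (z + ε • a))) := by
        rw [e0]
        generalize ((z + ε • a).im : ℂ) = y at hy e1 ⊢
        field_simp
        linear_combination (-I * ε) * e1
          + (2 * y * ε * dzb (ph Φ (n + 1)) (z + ε • a) + ε * α * ph Φ n (z + ε • a)) * I_mul_I
          - ph Φ n (z + ε • a) * hεα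
      have e3 : ε * ‖dzb U (z + ε • a)‖
          ≤ C1 * (‖ph Φ n (z + ε • a)‖ + ε * ‖ph Φ (n + 1) (z + ε • a)‖) := by
        have := congrArg norm e2
        rw [norm_mul, Complex.norm_real, Real.norm_of_nonneg hε.le, norm_mul] at this
        rw [this, hC1, mul_assoc |Z|]
        refine mul_le_mul ((hZ _ hw).trans (le_abs_self Z)) ((norm_add_le _ _).trans ?_)
          (norm_nonneg _) (abs_nonneg Z)
        rw [norm_neg, norm_mul, norm_mul, norm_mul, norm_I, one_mul, Complex.norm_real,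
          Real.norm_of_nonneg hε.le]
        have p1 := norm_nonneg (ph Φ n (z + ε • a))
        have p2 : 0 ≤ ε * ‖ph Φ (n + 1) (z + ε • a)‖ := by positivity
        have p3 := norm_nonneg ((n : ℂ) + 1)
        nlinarith [mul_nonneg p1 p3]
      have := mul_le_mul_of_nonneg_left e3 (kS_nonneg a)
      simp only
      linarith
    · simp [kS_zero (not_le.1 ha)]
  have b2 : ‖moll ε U z‖ ≤ C2 *
      ∫ a, kS a * (‖ph Φ n (z + ε • a)‖ + ε * ‖ph Φ (n + 1) (z + ε • a)‖) := by
    rw [moll_ladder cU0 z (c := -I * n), ← integral_const_mul]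
    · refine norm_integral_le_of_norm_le (iG.const_mul _) ?_
      filter_upwards [(volume : Measure ℂ).ae_ne 0] with a ha0
      by_cases ha : ‖a‖ ≤ 1
      · have hw := hm a ha
        have e0 : U0 (z + ε • a) = ph Φ n (z + ε • a) := (ev _ hw _).eq_of_nhds
        have e1 : ‖-2 * dz (fun a => (hk a : ℂ)) a * (z + ε • a).im + ε * (-I * n + I) * hk a‖
            ≤ C2 := by
          refine (norm_add_le _ _).trans (add_le_add ?_ ?_)
          · rw [norm_mul, norm_mul, norm_neg, Complex.norm_ofNat]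
            exact mul_le_mul (mul_le_mul_of_nonneg_left (hM2 a) (by norm_num))
              ((hY _ hw).trans (le_abs_self Y)) (norm_nonneg _) (by positivity)
          · rw [norm_mul, norm_mul, Complex.norm_real, Real.norm_of_nonneg hε.le]
            exact mul_le_mul (mul_le_of_le_one_left (norm_nonneg _) hε1) (hM1 a) (norm_nonneg _)
              (norm_nonneg _)
        rw [norm_mul, e0]
        refine mul_le_mul e1 ?_ (norm_nonneg _) (by positivity)
        have p1 := norm_nonneg (ph Φ n (z + ε • a))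
        have p2 : 0 ≤ ε * ‖ph Φ (n + 1) (z + ε • a)‖ := by positivity
        have p3 := one_le_kS ha0 ha
        nlinarith
      · rw [dz_hkC_zero (not_le.1 ha), hk_zero (not_le.1 ha), kS_zero (not_le.1 ha)]
        simp
    · intro a ha
      have hw := hm a ha
      have e0 : U0 (z + ε • a) = ph Φ n (z + ε • a) := (ev _ hw _).eq_of_nhds
      have e1 : U (z + ε • a) = ph Φ (n + 1) (z + ε • a) := (ev _ hw _).eq_of_nhds
      have e2 : dz U0 (z + ε • a) = dz (ph Φ n) (z + ε • a) := by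
        simp only [dz, (ev _ hw _).fderiv_eq, hU0d]
      have e3 := hL.dz_ph n (hδU hw)
      rw [← hα] at e3
      rw [e0, e1, e2]
      linear_combination (I * ε) * e3
        - (2 * ε * ((z + ε • a).im : ℂ) * dz (ph Φ n) (z + ε • a)
          - ε * α * ph Φ (n + 1) (z + ε • a)) * I_mul_I
        - ph Φ (n + 1) (z + ε • a) * hεα
  have e : ph Φ (n + 1) z = (U z - moll ε U z) + moll ε U z := by
    rw [sub_add_cancel]
    exact (ev z (self_subset_cthickening K hz) _).eq_of_nhds.symm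
  rw [e, add_mul]
  exact (norm_add_le _ _).trans (add_le_add b1 b2)

end Pool.Agent.Lib.MP_a52643_an
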