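import Pool.Agent.Lib.MP_a52643_an.Law.TDef
import Pool.Agent.Lib.MP_a52643_an.Law.CP

/-!
Propagation of truncated square integrability along the ladder.
-/

open Complex MeasureTheory Set Filter Topology Asymptotics Metric
open scoped ComplexConjugate ContDiff ENNReal

noncomputable section

namespace Pool.Agent.Lib.MP_a52643_an

variable {J : Type} {l : Filter J} {lam : J → ℝ} {Φ : J → ℤ → V → ℂ}

lemma LH.vol {u : J → ℂ → ℝ} (h : LH l u) (hc : ∀ j, ContinuousOn (u j) UH)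
    (h0 : ∀ j z, 0 ≤ u j z) {K : Set ℂ} (hK : IsCompact K) (hU : K ⊆ UH) :
    ∃ C : ℝ, 0 ≤ C ∧ ∀ᶠ j in l, ∫ z in K, u j z ≤ C := by
  obtain ⟨C, hC⟩ := h K hK hU
  obtain ⟨Y, hY⟩ := hK.exists_bound_of_continuousOn (f := fun z : ℂ => z.im ^ 2) (by fun_prop)
  refine ⟨max Y 0 * |C|, by positivity, hC.mono fun j hj => ?_⟩
  refine (setIntegral_le_hyp (Y := max Y 0) (hc j) (h0 j) hK hU fun z hz =>
    ((le_abs_self _).trans (hY z hz)).trans (le_max_left _ _)).trans ?_
  exact mul_le_mul_of_nonneg_left (hj.trans (le_abs_self C)) (le_max_right _ _)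

lemma UU_step (h : Fam2 l lam Φ) (n : ℤ) (h0 : UU l fun j z => ‖ph (Φ j) n z‖ ^ 2) :
    UU l fun j z => ‖ph (Φ j) (n + 1) z‖ ^ 2 := by
  have c : ∀ j n, ContinuousOn (fun z => ‖ph (Φ j) n z‖) UH := fun j n =>
    ((h.lad j).cd_ph n).continuousOn.norm
  have t := (tendsto_al h.tend n).inv_tendsto_atTop
  have r0 : ∀ j, 0 ≤ (al (lam j) n)⁻¹ := fun j => inv_nonneg.2 (al_nonneg _ _)
  have s1 : UU l fun j z => ((al (lam j) n)⁻¹) ^ 2 * ‖ph (Φ j) (n + 1) z‖ ^ 2 := by
    refine UU.of_small (fun j => continuousOn_const.mul ((c j _).pow 2))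
      (fun j z => by positivity) fun K hK hU δ hδ => ?_
    obtain ⟨C, C0, hC⟩ := (h.lh2 (n + 1)).vol (fun j => (c j _).pow 2) (fun j z => by positivity)
      hK hU
    have t2 : Tendsto (fun j => ((al (lam j) n)⁻¹) ^ 2 * C) l (𝓝 0) := by
      simpa using (t.pow 2).mul_const C
    filter_upwards [hC, t2.eventually (ge_mem_nhds hδ)] with j h1 h2
    rw [integral_const_mul]
    exact (mul_le_mul_of_nonneg_left h1 (by positivity)).trans h2
  refine UU.avg measurable_kS integrable_kS kS_nonneg (fun a => kS_zero) r0 t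
    (g := fun j z => ‖ph (Φ j) n z‖ + (al (lam j) n)⁻¹ * ‖ph (Φ j) (n + 1) z‖)
    (fun j => (c j _).add (continuousOn_const.mul (c j _)))
    (fun j z => by have := r0 j; positivity) ?_ (fun j => c j _) (fun j z => norm_nonneg _)
    fun K hK hU => ?_
  · refine (h0.add s1).of_le (fun j => ((c j _).add (continuousOn_const.mul (c j _))).pow 2)
      (fun j z => by positivity) fun K _ _ => ⟨2, Eventually.of_forall fun j z _ => ?_⟩
    nlinarith [sq_nonneg (‖ph (Φ j) n z‖ - (al (lam j) n)⁻¹ * ‖ph (Φ j) (n + 1) z‖)]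
  · obtain ⟨C, T, hC⟩ := ladder_pt hK hU n
    exact ⟨C, ((tendsto_al h.tend n).eventually_ge_atTop T).mono fun j hj =>
      hC _ _ (h.lad j) hj⟩

theorem Fam2.uf (h : Fam2 l lam Φ) (h0 : UU l fun j z => ‖ph (Φ j) 0 z‖ ^ 2) : UF l lam Φ := by
  have key : ∀ n : ℕ, UU l fun j z => ‖ph (Φ j) n z‖ ^ 2 := by
    intro n
    induction n with
    | zero => exact h0
    | succ n ih => exact_mod_cast UU_step h n ih
  refine ⟨h, fun n => ?_⟩
  rcases Int.eq_nat_or_neg n with ⟨m, rfl | rfl⟩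
  · exact key m
  · simpa only [ph, (h.lad _).norm_neg] using key m

end Pool.Agent.Lib.MP_a52643_an
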