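import Pool.Agent.Lib.MP_a52643_an.Law.Three
import Pool.Agent.Lib.MP_a52643_an.Law.Prop

/-!
Global statements along an ultrafilter, without fourth power bounds.
-/

open MeasureTheory Set Filter Topology Metric UpperHalfPlane
open scoped ENNReal MatrixGroups Pointwise NNReal ComplexConjugate ContDiff Laplacian

noncomputable section

namespace Pool.Agent.Lib.MP_a52643_an

variable {Γ : Type*} [Group Γ] [MulAction Γ ℍ] [Countable Γ] {l : Γ → SL2} {D : Set ℍ}

structure Eig2 (Γ : Type*) [Group Γ] [MulAction Γ ℍ] (D : Set ℍ) (φ : ℍ → ℝ) (lam : ℝ) : Prop where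
  inv : ∀ (γ : Γ) z, φ (γ • z) = φ z
  sm : ContDiffOn ℝ ∞ (fun z => φ (ofComplex z)) UH
  eig : ∀ z ∈ UH, z.im ^ 2 * Δ (fun z => φ (ofComplex z)) z = -lam * φ (ofComplex z)
  int : IntegrableOn (fun z => φ z ^ 2) D

omit [Countable Γ] in
lemma Eig2.cont {φ : ℍ → ℝ} {lam : ℝ} (h : Eig2 Γ D φ lam) : Continuous φ := by
  have := h.sm.continuousOn.comp_continuous continuous_coe fun z => z.im_pos
  simpa only [Function.comp_def, ofComplex_apply] using this

omit [Countable Γ] in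
lemma Eig2.iw (hD : FD l D) {φ : ℍ → ℝ} {lam : ℝ} (h : Eig2 Γ D φ lam) {g : ℝ → ℝ}
    (hg : Continuous g) (g0 : ∀ t, 0 ≤ g t) {a b : ℝ} (hb : ∀ t, g t ≤ a + b * t ^ 2) :
    IW Γ D fun z => g (φ z) := by
  have : IsFiniteMeasure (volume.restrict D) := isFiniteMeasure_restrict.2 hD.fin
  refine ⟨(hg.comp h.cont).measurable, fun z => g0 _, fun γ z => by simp only [h.inv], ?_⟩
  exact ((integrable_const a).add (h.int.const_mul b)).mono'
    (hg.comp h.cont).aestronglyMeasurable (Eventually.of_forall fun z => by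
      rw [Real.norm_of_nonneg (g0 _)]; exact hb _)

omit [Countable Γ] in
lemma Eig2.ladder (hD : FD l D) {φ : ℍ → ℝ} {lam : ℝ} (hl : 0 < lam) (h : Eig2 Γ D φ lam) :
    ∃ Φ : ℤ → V → ℂ, Ladder lam Φ ∧ (∀ z : ℍ, ph Φ 0 z = φ z) ∧
      ∀ γ n, Inv (ea (l γ)) (eb (l γ)) (ec (l γ)) (ed (l γ)) (Φ n) := by
  obtain ⟨Φ, h1, h2, h3⟩ := exists_ladder hl h.sm h.eig
  refine ⟨Φ, h1, fun z => by simp [ph, h2, pr], fun γ => h3 _ _ _ _ (det_eq _) fun z hz => ?_⟩
  have := coe_act (l γ) ⟨z, hz⟩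
  rw [← hD.act] at this
  rw [← show ((γ • (⟨z, hz⟩ : ℍ) : ℍ) : ℂ) = _ from this, ofComplex_apply, h.inv,
    ofComplex_apply_of_im_pos hz]

lemma FD.local_le (hD : FD l D) {K : Set ℂ} (hK : IsCompact K) (hU : K ⊆ UH) :
    ∃ C : ℝ, 0 < C ∧ ∀ (w : ℍ → ℝ) (u : ℂ → ℝ), IW Γ D w → ContinuousOn u UH → (∀ z, 0 ≤ u z) →
      (∀ z : ℍ, u z = w z) →
      ∫ z in K, u z ∂hyp ≤ C * ∫ z in D, w z ∧ ∫ z in K, u z ≤ C * ∫ z in D, w z := by
  have hK' := isEmbedding_coe.isInducing.isCompact_preimage' hK fun z hz => ⟨⟨z, hU hz⟩, rfl⟩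
  obtain ⟨c, hc, hc'⟩ := hD.tsum_compact hK'
  obtain ⟨Y, hY⟩ := hK.exists_bound_of_continuousOn (f := fun z : ℂ => z.im ^ 2) (by fun_prop)
  have c0 : 0 ≤ c.toReal := ENNReal.toReal_nonneg
  have y1 := le_max_right Y 1
  refine ⟨max Y 1 * (c.toReal + 1), by positivity, fun w u hw hu u0 e => ?_⟩
  have w0 : 0 ≤ ∫ z in D, w z := integral_nonneg hw.nn
  have h1 : ∫ z in K, u z ∂hyp ≤ (c.toReal + 1) * ∫ z in D, w z := by
    rw [← measurePreserving_coe.setIntegral_preimage_emb measurableEmbedding_coe]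
    simp only [e]
    exact (hw.le hD hK'.measurableSet hc hc').2.trans (by gcongr; linarith)
  constructor
  · exact h1.trans (by rw [mul_assoc]; exact le_mul_of_one_le_left (by positivity) y1)
  · refine (setIntegral_le_hyp (Y := max Y 1) hu u0 hK hU fun z hz =>
      ((le_abs_self _).trans (hY z hz)).trans (le_max_left _ _)).trans ?_
    rw [mul_assoc]
    exact mul_le_mul_of_nonneg_left h1 (by positivity)

lemma tendsto_of_tau' {J : Type} {L : Filter J} (hD : FD l D) {u : J → ℍ → ℝ} {u0 : ℍ → ℝ}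
    (hu : ∀ j, Measurable (u j)) (hu0 : Measurable u0)
    (hb : ∀ s > 0, ∃ T ≥ 0, ∃ (w : J → ℍ → ℝ) (w0 : ℍ → ℝ), (∀ j, IW Γ D (w j)) ∧ IW Γ D w0 ∧
      (∀ j z, |u j z| ≤ T + w j z) ∧ (∀ z, |u0 z| ≤ T + w0 z) ∧
      (∀ᶠ j in L, ∫ z in D, w j z ≤ s) ∧ ∫ z in D, w0 z ≤ s)
    (ht : ∀ τ : ℂ → ℝ, TF τ →
      Tendsto (fun j => ∫ z : ℍ, τ z * u j z) L (𝓝 (∫ z : ℍ, τ z * u0 z)))
    {ψ : ℍ → ℝ} (hψ : Measurable ψ) {B : ℝ} (hB : ∀ z, |ψ z| ≤ B) :
    Tendsto (fun j => ∫ z in D, ψ z * u j z) L (𝓝 (∫ z in D, ψ z * u0 z)) := by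
  have B0 : 0 ≤ B := (abs_nonneg _).trans (hB I)
  rw [Metric.tendsto_nhds]
  intro ε hε
  set s := ε / 5 / ((2 * B + 1) * 2)
  have s0 : 0 < s := by positivity
  obtain ⟨T, hT, w, w0, hw, hw0, h1, h2, hM, hM0⟩ := hb s s0
  obtain ⟨τ, O, hτ⟩ := exists_tau hD hψ hB (η := ε / 5 / (T + 1)) (by positivity)
  have e1 : (2 * B + 1) * 1 * (2 * s) = ε / 5 := by simp only [s]; field_simp
  have e2 : T * (ε / 5 / (T + 1)) ≤ ε / 5 := by
    rw [← mul_div_assoc, div_le_iff₀ (by positivity)]; nlinarith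
  have a0 := hτ.err hD hψ hB hu0 hw0 hT zero_le_one (by simpa using h2) hM0
  filter_upwards [hM, Metric.tendsto_nhds.1 (ht τ hτ.tf) (ε / 5) (by positivity)] with j h3 h4
  have a1 := hτ.err hD hψ hB (hu j) (hw j) hT zero_le_one (by simpa using h1 j) h3
  rw [Real.dist_eq, abs_lt] at h4 ⊢
  rw [abs_le] at a0 a1
  constructor <;> linarith

/-- real truncation -/
def TR (M t : ℝ) : ℝ := (TM M t).re

lemma TM_ofReal (M t : ℝ) : TM M t = TR M t := by
  simp only [TR, TM, ← Complex.ofReal_mul, Complex.ofReal_re]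

lemma continuous_TR (M : ℝ) : Continuous (TR M) :=
  Complex.continuous_re.comp ((contDiff_TM M).continuous.comp Complex.continuous_ofReal)

lemma abs_TR_le (M t : ℝ) : |TR M t| ≤ |t| := by
  simpa [TM_ofReal] using norm_TM_le M t

lemma TR_four_le {M : ℝ} (hM : 0 < M) (t : ℝ) : TR M t ^ 4 ≤ min (t ^ 2) M ^ 2 := by
  simpa [TM_ofReal, Even.pow_abs (by decide : Even 4)] using norm_TM_four hM t

lemma TR_eq {M : ℝ} (hM : 0 < M) {t : ℝ} (h : t ^ 2 ≤ M / 2) : TR M t = t := by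
  simp [TR, TM_eq hM (w := t) (by simpa using h)]

lemma min_sq_le {M : ℝ} (hM : 0 < M) (t : ℝ) : min (t ^ 2) M ^ 2 ≤ M ^ 2 + 0 * t ^ 2 := by
  rw [zero_mul, add_zero]
  exact pow_le_pow_left₀ (le_min (sq_nonneg _) hM.le) (min_le_right _ _) 2

theorem core2_pos {J : Type} {U : Ultrafilter J} (hD : FD l D) {φ : J → ℍ → ℝ} {lam : J → ℝ}
    (hl : ∀ j, 0 < lam j) (ht : Tendsto lam U atTop) (h : ∀ j, Eig2 Γ D (φ j) (lam j))
    (hn : ∀ j, ∫ z in D, φ j z ^ 2 ≤ 1)
    (hH : ∀ η > 0, ∃ A ≥ 0, ∀ Λ > 0, ∀ᶠ j in (U : Filter J), ∫ z in D, hub A Λ (φ j z ^ 2) ≤ η)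
    {M : ℝ} (hM : ∀ N > 0, ∀ η > 0, ∀ᶠ j in (U : Filter J),
      ∫ z in D, min (φ j z ^ 2) N ^ 2 ≤ M + η) :
    ∃ f : ℍ → ℝ, Measurable f ∧ IntegrableOn (fun z => f z ^ 2) D ∧ 3 * ∫ z in D, f z ^ 2 ≤ M ∧
      ∀ (ψ : ℍ → ℝ) (B : ℝ), Measurable ψ → (∀ z, |ψ z| ≤ B) →
        Tendsto (fun j => ∫ z in D, ψ z * φ j z ^ 2) U (𝓝 (∫ z in D, ψ z * f z)) ∧
        Tendsto (fun p : ℕ × J => ∫ z in D, ψ z * TR (p.1 + 1) (φ p.2 z) ^ 3) (UW U) (𝓝 0) := by
  choose Φ hL h0 hi using fun j => (h j).ladder hD (hl j)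
  have M0 : 0 ≤ M := le_of_forall_pos_le_add fun η hη => by
    obtain ⟨j, hj⟩ := (hM 1 one_pos η hη).exists
    exact (integral_nonneg fun z => by positivity).trans hj
  have c0 : ∀ j, ContinuousOn (fun z => ‖ph (Φ j) 0 z‖ ^ 2) UH := fun j =>
    ((hL j).cd_ph 0).continuousOn.norm.pow 2
  have e0 : ∀ j (z : ℍ), ‖ph (Φ j) 0 z‖ ^ 2 = φ j z ^ 2 := fun j z => by simp [h0]
  have iw2 : ∀ j, IW Γ D fun z => φ j z ^ 2 := fun j =>
    (h j).iw hD (g := fun t => t ^ 2) (by fun_prop) (fun t => sq_nonneg t) (a := 0) (b := 1)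
      fun t => by simp
  have iwH : ∀ j {A Λ : ℝ}, 0 ≤ A → 0 ≤ Λ → IW Γ D fun z => hub A Λ (φ j z ^ 2) :=
    fun j A Λ hA hΛ => (h j).iw hD (g := fun t => hub A Λ (t ^ 2))
      ((continuous_hub A Λ).comp (by fun_prop)) (fun t => hub_nonneg hΛ) (a := 0) (b := 2 * Λ)
      fun t => by simpa using hub_le_lin hΛ hA (sq_nonneg t)
  have iwM : ∀ j {N : ℝ}, 0 < N → IW Γ D fun z => min (φ j z ^ 2) N ^ 2 := fun j N hN =>
    (h j).iw hD (g := fun t => min (t ^ 2) N ^ 2) (by fun_prop) (fun t => sq_nonneg _)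
      (min_sq_le hN)
  have hF2 : Fam2 U lam Φ := by
    refine ⟨hL, ht, LB_two hL ht ?_⟩
    have : LH U fun j z => ‖ph (Φ j) 0 z‖ ^ 2 := by
      intro K hK hU
      obtain ⟨C, C0, hC⟩ := hD.local_le hK hU
      refine ⟨C, Eventually.of_forall fun j => ?_⟩
      refine (hC _ _ (iw2 j) (c0 j) (fun z => by positivity) (e0 j)).1.trans ?_
      exact mul_le_of_le_one_right C0.le (hn j)
    intro R
    obtain ⟨C, hC⟩ := this.lb (fun j z => by positivity) c0 R
    refine ⟨C, hC.mono fun j hj => le_of_eq_of_le ?_ hj⟩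
    refine setIntegral_congr_fun (measurableSet_KB R) fun v hv => ?_
    simp only [(hL j).norm_ph 0 (KB_subset_Om R hv)]
  have hF : UF U lam Φ := by
    refine hF2.uf ⟨c0, fun j z => by positivity, fun K hK hU η hη => ?_⟩
    obtain ⟨C, C0, hC⟩ := hD.local_le hK hU
    obtain ⟨A, hA, h1⟩ := hH (η / C) (by positivity)
    refine ⟨A, hA, fun Λ hΛ => (h1 Λ hΛ).mono fun j hj => ?_⟩
    refine (hC _ _ (iwH j hA hΛ.le) ((continuous_hub A Λ).comp_continuousOn (c0 j))
      (fun z => hub_nonneg hΛ.le) fun z => by simp only [Function.comp, e0]).2.trans ?_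
    rwa [← le_div_iff₀' C0]
  obtain ⟨μ, hμ⟩ := hF2.exists_isLim
  have := hμ.lf
  have pw : ∀ {ι : Type} [Fintype ι] [DecidableEq ι], Fintype.card ι ≤ 4 → ∀ {τ : ℂ → ℝ}, TF τ →
      Tendsto (fun p : ℕ × J => ∫ z : ℍ, τ z * TR (p.1 + 1) (φ p.2 z) ^ Fintype.card ι) (UW U)
        (𝓝 (QQ (ι := ι) (UW U) (trF Φ) (fun z => τ z) 1).re) := by
    intro ι _ _ hι τ hτ
    refine ((Complex.continuous_re.tendsto _).comp
      (hF.tendsto_QQ_tr hι hτ.ofReal 1)).congr fun j => ?_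
    simp only [Function.comp, GG_one, integral_hyp_coe, trF, ph_trL, h0, TM_ofReal,
      ← Complex.ofReal_pow, ← Complex.ofReal_mul, integral_complex_ofReal, Complex.ofReal_re]
  have p2 : ∀ {τ : ℂ → ℝ}, TF τ →
      Tendsto (fun j => ∫ z : ℍ, τ z * φ j z ^ 2) U (𝓝 (∫ v, τ (pr v) ∂μ)) := by
    intro τ hτ
    have := hF2.tendsto_GR hμ hτ 1
    simp only [Polynomial.eval_one, one_mul, GR, map_one, GG_one, integral_hyp_coe, h0,
      ← Complex.ofReal_pow, Complex.ofReal_re, Fintype.card_fin] at this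
    exact this
  have hM' : ∀ η > 0, ∀ᶠ p : ℕ × J in UW U,
      ∫ z in D, min (φ p.2 z ^ 2) (p.1 + 1) ^ 2 ≤ M + η := fun η hη =>
    eventually_UW (Eventually.of_forall fun N => hM (N + 1) (by positivity) η hη)
  have w2 : ∀ χ, FC Γ χ → (QQ (ι := Fin 4) (UW U) (trF Φ) (fun z => χ z) 1).re ≤ M := by
    rintro χ ⟨hχ, c1, O, hO, hfr, c2⟩
    refine le_of_forall_pos_le_add fun η hη => ?_
    refine le_of_tendsto (pw (by simp) hχ.toTF) ((hM' η hη).mono fun p hj => ?_)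
    obtain ⟨i1, b1⟩ := (iwM p.2 (level_pos p)).le_free hD hO hfr
    refine le_trans ?_ (b1.trans hj)
    rw [← setIntegral_eq_integral_of_forall_compl_eq_zero (s := O) fun z hz => by
      rw [image_eq_zero_of_notMem_tsupport fun h' => hz (c2 z h'), zero_mul]]
    simp only [Fintype.card_fin]
    exact integral_mono_of_nonneg
      (Eventually.of_forall fun z => mul_nonneg (hχ.nn _) (by positivity))
      i1 (Eventually.of_forall fun z => (mul_le_of_le_one_left (by positivity) (c1 _)).trans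
        (TR_four_le (level_pos p) _))
  obtain ⟨f, hA⟩ := exists_adm2 hF2 hμ hD (fun γ j n => hi j γ n)
    (fun χ hχ => ⟨_, (hF.qf hμ hχ).wb⟩)
    (C := M) fun χ hχ ψ hψ => ((hF.qf hμ hχ.1).wb ψ hψ).trans (w2 χ hχ)
  obtain ⟨n1, n2, n3⟩ := hA.nc hμ.ae_Om
  have sq := hμ.sq_le hD hA.mf hA.dens (C := M / 3) fun χ hχ ψ hψ => by
    linarith [(hF.qf hμ hχ.1).local_four hμ hχ.1 n1 n2 hψ, w2 χ hχ]
  have mf := hA.mf.ennreal_toReal
  have iw : IW Γ D fun z => (f z).toReal ^ 2 := ⟨mf.pow_const 2, fun z => by positivity,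
    fun γ z => by simp only [hA.inv], by
      simpa only [ENNReal.toReal_pow, IntegrableOn] using
        integrable_toReal_of_lintegral_ne_top (hA.mf.pow_const 2).aemeasurable hA.sq⟩
  have fl : ∀ᵐ z : ℍ, f z < ⊤ := by
    have := hμ.lf_muH
    have e := Measure.rnDeriv_withDensity volume hA.mf
    rw [← hA.dens] at e
    filter_upwards [e, Measure.rnDeriv_lt_top (muH μ) volume] with z h1 h2
    exact h1 ▸ h2
  have b3 : 3 * ∫ z in D, (f z).toReal ^ 2 ≤ M := by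
    simp only [← ENNReal.toReal_pow]
    rw [integral_toReal (hA.mf.pow_const 2).aemeasurable (ae_restrict_of_ae
      (fl.mono fun z hz => ENNReal.pow_lt_top hz))]
    linarith [ENNReal.toReal_le_of_le_ofReal (by positivity) sq]
  refine ⟨fun z => (f z).toReal, mf, iw.int, b3, fun ψ B hψ hB => ⟨?_, ?_⟩⟩
  · refine tendsto_of_tau' hD (u := fun j z => φ j z ^ 2)
      (fun j => ((h j).cont.pow 2).measurable) mf (fun s hs => ?_) (fun τ hτ => ?_) hψ hB
    · obtain ⟨A, A0, h1⟩ := hH s hs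
      set r := s / (M + 1) with hr
      have r0 : 0 < r := by positivity
      refine ⟨2 * (A + 1) + 1 / r, by positivity, fun j z => hub A (A + 1) (φ j z ^ 2),
        fun z => r * (f z).toReal ^ 2, fun j => iwH j A0 (by positivity),
        ⟨(mf.pow_const 2).const_mul _, fun z => by positivity, fun γ z => by simp only [hA.inv],
          iw.int.const_mul _⟩, fun j z => ?_, fun z => ?_, h1 _ (by positivity), ?_⟩
      · have a1 := pos_le_hub (A := A) (Λ := A + 1) (s := φ j z ^ 2) (by linarith) (by linarith)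
        have a2 := le_max_left (φ j z ^ 2 - 2 * (A + 1)) 0
        have a3 := le_max_right (φ j z ^ 2 - 2 * (A + 1)) 0
        have : 0 < 1 / r := by positivity
        rw [abs_of_nonneg (sq_nonneg _)]
        nlinarith
      · beta_reduce
        set x := (f z).toReal
        have e : 1 / r + r * |x| ^ 2 - 2 * |x| = (1 - r * |x|) ^ 2 / r := by field_simp; ring
        have : 0 ≤ (1 - r * |x|) ^ 2 / r := by positivity
        rw [← sq_abs x]; linarith [abs_nonneg x]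
      · rw [integral_const_mul, hr, div_mul_eq_mul_div, div_le_iff₀ (by positivity)]
        exact mul_le_mul_of_nonneg_left (by linarith) hs.le
    · convert p2 hτ using 2
      rw [← hμ.integral_muH hτ.cont.measurable, muH, hA.dens,
        integral_withDensity_eq_integral_toReal_smul hA.mf fl]
      simp only [smul_eq_mul, mul_comm]
  · have cT : ∀ p : ℕ × J, Continuous fun z => TR (p.1 + 1) (φ p.2 z) := fun p =>
      (continuous_TR _).comp (h _).cont
    have := tendsto_of_tau hD (L := UW U) (u := fun p z => TR (p.1 + 1) (φ p.2 z) ^ 3)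
      (u0 := fun _ => 0) (fun p => ((cT p).pow 3).measurable)
      measurable_const (fun p => iwM p.2 (level_pos p)) iw (fun s hs => ?_) (hM' 1 one_pos)
      (fun τ hτ hd => ?_) hψ hB
    · simpa using this
    · refine ⟨(1 / s) ^ 3, by positivity, fun p z => ?_, fun z => by simp; positivity⟩
      refine le_trans ?_ (add_le_add_right
        (mul_le_mul_of_nonneg_left (TR_four_le (level_pos p) _) hs.le) _)
      rw [abs_pow, ← Even.pow_abs (by decide : Even 4)]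
      have x0 := abs_nonneg (TR (p.1 + 1) (φ p.2 z))
      rcases le_total |TR (p.1 + 1) (φ p.2 z)| (1 / s) with h1 | h1
      · exact (pow_le_pow_left₀ x0 h1 3).trans (le_add_of_nonneg_right (by positivity))
      · rw [div_le_iff₀ hs] at h1
        have := mul_le_mul_of_nonneg_left h1 (pow_nonneg x0 3)
        have : 0 ≤ (1 / s) ^ 3 := by positivity
        nlinarith
    · have key : ∀ {τ : ℂ → ℝ}, TF1 τ → Tendsto
          (fun p : ℕ × J => ∫ z : ℍ, τ z * TR (p.1 + 1) (φ p.2 z) ^ 3) (UW U) (𝓝 0) := by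
        intro τ hτ
        have := pw (ι := Fin 3) (by simp) hτ.toTF
        rw [hF.local_three hμ n3 hτ] at this
        simpa using this
      obtain ⟨θ, θ1, θ2, θ3, θ4, θ5⟩ := exists_bump hτ.hcs.isCompact isOpen_UH hτ.sub
      obtain ⟨C, hC⟩ := hτ.cont.bounded_above_of_compact_support hτ.hcs
      have C0 : 0 ≤ C := (norm_nonneg _).trans (hC 0)
      have hθ : TF1 fun z => C * θ z := ⟨⟨continuous_const.mul θ1.continuous, θ2.mul_left,
        (tsupport_mul_subset_right (f := fun _ => C) (g := θ)).trans θ3⟩,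
        contDiff_const.mul θ1, fun z => mul_nonneg C0 (θ5 z).1⟩
      have hs : TF1 fun z => τ z + C * θ z := ⟨⟨hτ.cont.add hθ.cont, hτ.hcs.add hθ.hcs,
        (tsupport_add τ fun z => C * θ z).trans (union_subset hτ.sub hθ.sub)⟩, hd.add hθ.cd,
        fun z => by
          by_cases hz : z ∈ tsupport τ
          · rw [θ4.self_of_nhdsSet z hz, mul_one]; linarith [(abs_le.1 (hC z)).1]
          · rw [image_eq_zero_of_notMem_tsupport hz, zero_add]; exact hθ.nn z⟩
      have ii : ∀ {σ : ℂ → ℝ}, TF σ → ∀ p : ℕ × J,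
          Integrable fun z : ℍ => σ z * TR (p.1 + 1) (φ p.2 z) ^ 3 := fun hσ p =>
        ((hσ.cont.comp continuous_coe).mul ((cT p).pow 3)).integrable_of_hasCompactSupport
          hσ.hcs_coe.mul_right
      have := (key hs).sub (key hθ)
      simp only [sub_zero, mul_zero, integral_zero] at this ⊢
      refine this.congr fun p => ?_
      rw [← integral_sub (ii hs.toTF p) (ii hθ.toTF p)]
      congr 1; ext z; ring

end Pool.Agent.Lib.MP_a52643_an
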