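import Pool.Agent.Lib.MP_a52643_an.Law.TFun
import Pool.Agent.Lib.MP_a52643_an.Law.Bite

/-!
The limit formula for the truncated quartic functional.
-/

open Complex MeasureTheory Set Filter Topology Asymptotics Metric Polynomial
open scoped ComplexConjugate ContDiff ENNReal

noncomputable section

namespace Pool.Agent.Lib.MP_a52643_an

lemma continuous_cut {θ F : ℂ → ℝ} (hθ : Continuous θ) (hs : tsupport θ ⊆ UH)
    (hF : ContinuousOn F UH) : Continuous fun z => θ z * F z := by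
  rw [continuous_iff_continuousAt]
  intro z
  by_cases hz : z ∈ UH
  · exact hθ.continuousAt.mul (hF.continuousAt (isOpen_UH.mem_nhds hz))
  · have : θ =ᶠ[𝓝 z] 0 := notMem_tsupport_iff_eventuallyEq.1 fun h => hz (hs h)
    refine (continuousAt_const (y := (0 : ℝ))).congr ?_
    filter_upwards [this] with w hw
    simp [hw]

section fam

variable {J : Type} {l : Filter J} {lam : J → ℝ} {Φ : J → ℤ → V → ℂ}

lemma Fam2.lh_psi (h : Fam2 l lam Φ) (a b : ℤ) : LH l fun j z => ‖psi (Φ j) ![a, b] z‖ := by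
  intro K hK hU
  obtain ⟨C1, h1⟩ := h.lh2 a K hK hU
  obtain ⟨C2, h2⟩ := h.lh2 b K hK hU
  refine ⟨C1 + C2, ?_⟩
  filter_upwards [h1, h2] with j h1 h2
  have i1 : IntegrableOn (fun z => ‖ph (Φ j) a z‖ ^ 2) K hyp :=
    integrableOn_hyp (((h.lad j).cd_ph a).continuousOn.norm.pow 2) hK hU
  have i2 : IntegrableOn (fun z => ‖ph (Φ j) b z‖ ^ 2) K hyp :=
    integrableOn_hyp (((h.lad j).cd_ph b).continuousOn.norm.pow 2) hK hU
  calc _ ≤ ∫ z in K, (‖ph (Φ j) a z‖ ^ 2 + ‖ph (Φ j) b z‖ ^ 2) ∂hyp := by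
        refine integral_mono (integrableOn_hyp ((h.lad j).cd_psi _).continuousOn.norm hK hU)
          (i1.add i2) fun z => ?_
        simp only [psi_two, norm_mul]
        nlinarith [sq_nonneg (‖ph (Φ j) a z‖ - ‖ph (Φ j) b z‖), sq_nonneg ‖ph (Φ j) a z‖,
          sq_nonneg ‖ph (Φ j) b z‖]
    _ ≤ _ := by rw [integral_add i1 i2]; linarith

lemma LH.equi {F : J → ℂ → ℂ} (hc : ∀ j, ContinuousOn (F j) UH) (hF : LH l fun j z => ‖F j z‖)
    {K : Set ℂ} (hK : IsCompact K) {ε : ℝ} (hε : 0 < ε)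
    (hU : cthickening ε K ⊆ UH) : ∀ η > 0, ∃ δ > 0, ∀ᶠ j in l, ∀ x ∈ K, ∀ x' ∈ K, dist x x' < δ →
      dist (∫ y, (kern ε x y : ℂ) * F j y ∂hyp) (∫ y, (kern ε x' y : ℂ) * F j y ∂hyp) ≤ η := by
  intro η hη
  have hK1 := hK.cthickening (r := ε)
  obtain ⟨C, hC⟩ := hF _ hK1 hU
  set M := |C| + 1
  have hM : 0 < M := by positivity
  have uc := (hK.prod hK1).uniformContinuousOn_of_continuous (continuous_kern ε).continuousOn
  obtain ⟨δ, hδ, h1⟩ := Metric.uniformContinuousOn_iff.1 uc (η / M) (by positivity)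
  refine ⟨δ, hδ, hC.mono fun j hj x hx x' hx' hd => ?_⟩
  have b1 : ∀ x ∈ K, closedBall x ε ⊆ cthickening ε K := fun x hx =>
    closedBall_subset_cthickening hx ε
  rw [dist_eq_norm, ← integral_sub ((tf_kern hε ((b1 x hx).trans hU)).ofReal.integrable_mul (hc j))
    ((tf_kern hε ((b1 x' hx').trans hU)).ofReal.integrable_mul (hc j)),
    ← setIntegral_eq_integral_of_forall_compl_eq_zero (s := cthickening ε K)]
  · have i1 : IntegrableOn (fun z => ‖F j z‖) (cthickening ε K) hyp :=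
      integrableOn_hyp (hc j).norm hK1 hU
    calc _ ≤ ∫ y in cthickening ε K, η / M * ‖F j y‖ ∂hyp := by
          refine norm_integral_le_of_norm_le (i1.const_mul _)
            ((ae_restrict_iff' hK1.measurableSet).2 (Eventually.of_forall fun y hy => ?_))
          have := h1 (x, y) ⟨hx, hy⟩ (x', y) ⟨hx', hy⟩
            (by rw [Prod.dist_eq]; exact max_lt hd (by simpa using hδ))
          rw [← sub_mul, norm_mul, ← ofReal_sub, Complex.norm_real]
          exact mul_le_mul_of_nonneg_right this.le (norm_nonneg _)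
      _ ≤ η / M * M := by
          rw [integral_const_mul]
          refine mul_le_mul_of_nonneg_left ?_ (by positivity)
          have := le_abs_self C
          simp only [M]; linarith
      _ = η := by field_simp
  · intro y hy
    have z : ∀ x ∈ K, kern ε x y = 0 := fun x hx =>
      image_eq_zero_of_notMem_tsupport fun h => hy (b1 x hx (tsupport_kern hε x h))
    simp [z x hx, z x' hx']

end fam

def E4 (Φ : ℤ → V → ℂ) (a b : ℤ) (z : ℂ) : ℝ :=
  (‖ph Φ a z‖ ^ 2 + ‖ph Φ b z‖ ^ 2) + (‖ph Φ (a + 1) z‖ ^ 2 + ‖ph Φ (b + 1) z‖ ^ 2)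

lemma E4_nonneg (Φ : ℤ → V → ℂ) (a b : ℤ) (z : ℂ) : 0 ≤ E4 Φ a b z := by unfold E4; positivity

lemma norm_psi_two_le (Φ : ℤ → V → ℂ) (a b : ℤ) (z : ℂ) :
    ‖psi Φ ![a, b] z‖ ≤ ‖ph Φ a z‖ ^ 2 + ‖ph Φ b z‖ ^ 2 := by
  simp only [psi_two, norm_mul]
  nlinarith [sq_nonneg (‖ph Φ a z‖ - ‖ph Φ b z‖), sq_nonneg ‖ph Φ a z‖, sq_nonneg ‖ph Φ b z‖]

lemma exists_pr {θ : ℂ → ℝ} (hθ : TF1 θ) (h1 : ∀ z, θ z ≤ 1) {R : ℝ}
    (hR : tsupport θ ⊆ closedBall 0 R) {K : Set ℂ} (hK : ∀ z ∈ K, θ z = 1) (a b : ℤ) :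
    ∃ C : ℝ, 1 ≤ C ∧ ∀ (lam : ℝ) (Φ : ℤ → V → ℂ), Ladder lam Φ → |al lam a - al lam b| ≤ 1 →
      ∀ M : ℝ, 0 < M → ∀ e : ℂ → ℝ, (∀ z, 0 ≤ e z) → (∀ z ∈ tsupport θ, C * E4 Φ a b z ≤ e z) →
      Pr R (M / 4) e K (fun z => θ z * psi Φ ![a, b] z) (fun z => θ z * psi Φ ![a + 1, b + 1] z)
        (psi (trL M Φ) ![a, b]) (psi (trL M Φ) ![a + 1, b + 1]) := by
  have hd : ContDiff ℝ 1 fun z => (θ z : ℂ) := ofRealCLM.contDiff.comp hθ.cd
  have hc : HasCompactSupport fun z => (θ z : ℂ) := hθ.toTF.ofReal.hcs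
  obtain ⟨C1, b1⟩ := (continuous_dz hd).bounded_above_of_compact_support (hcs_dz hc)
  obtain ⟨C2, b2⟩ := (continuous_dzb hd).bounded_above_of_compact_support (hcs_dzb hc)
  obtain ⟨C3, b3⟩ := hθ.hcs.isCompact.exists_bound_of_continuousOn
    ((contOn_inv_im 1 2 two_ne_zero).mono hθ.sub)
  have c1 : 0 ≤ C1 := (norm_nonneg _).trans (b1 0)
  have c2 : 0 ≤ C2 := (norm_nonneg _).trans (b2 0)
  have KU : K ⊆ tsupport θ := fun z hz => subset_tsupport _ (by simp [hK z hz])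
  set S : ℝ := 2 + ‖(a + b : ℂ)‖ + ‖(a + b + 2 : ℂ)‖ with hS
  have S0 : 0 ≤ S := by positivity
  refine ⟨1 + C1 + C2 + |C3| * S, by have := abs_nonneg C3; nlinarith,
    fun lam Φ hL hal M hM e e0 he => ?_⟩
  have hC : 0 ≤ |C3| * S := by positivity
  have n1 : ∀ z, ‖psi Φ ![a, b] z‖ ≤ E4 Φ a b z := fun z =>
    (norm_psi_two_le Φ a b z).trans (le_add_of_nonneg_right (by positivity))
  have n2 : ∀ z, ‖psi Φ ![a + 1, b + 1] z‖ ≤ E4 Φ a b z := fun z =>
    (norm_psi_two_le Φ _ _ z).trans (le_add_of_nonneg_left (by positivity))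
  have n3 : ∀ z, ‖psi Φ ![a + 1, b] z‖ ≤ E4 Φ a b z := fun z =>
    (norm_psi_two_le Φ _ _ z).trans (by
      unfold E4; nlinarith [sq_nonneg ‖ph Φ a z‖, sq_nonneg ‖ph Φ (b + 1) z‖])
  have n4 : ∀ z, ‖psi Φ ![a, b + 1] z‖ ≤ E4 Φ a b z := fun z =>
    (norm_psi_two_le Φ _ _ z).trans (by
      unfold E4; nlinarith [sq_nonneg ‖ph Φ b z‖, sq_nonneg ‖ph Φ (a + 1) z‖])
  have E : ∀ z ∈ tsupport θ, E4 Φ a b z ≤ e z := fun z hz =>
    le_trans (by nlinarith [E4_nonneg Φ a b z]) (he z hz)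
  have nθ : ∀ z, ‖(θ z : ℂ)‖ ≤ 1 := fun z => by
    rw [Complex.norm_real, Real.norm_of_nonneg (hθ.nn z)]; exact h1 z
  have cut : ∀ {F : ℂ → ℂ}, (∀ z, ‖F z‖ ≤ E4 Φ a b z) → ∀ z, ‖θ z * F z‖ ≤ e z := by
    intro F hF z
    by_cases hz : z ∈ tsupport θ
    · rw [norm_mul]
      exact (mul_le_of_le_one_left (norm_nonneg _) (nθ z)).trans ((hF z).trans (E z hz))
    · simp [image_eq_zero_of_notMem_tsupport hz, e0]
  have bu : ∀ a b z, ‖psi (trL M Φ) ![a, b] z‖ ≤ 4 * (M / 4) := fun a b z => by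
    simp only [psi_two, norm_mul, ph_trL]
    nlinarith [norm_TM_sq_le hM (ph Φ a z), norm_TM_sq_le hM (ph Φ b z),
      sq_nonneg (‖TM M (ph Φ a z)‖ - ‖TM M (ph Φ b z)‖)]
  have du : ∀ a b, ∀ z ∈ K, ‖ph Φ a z‖ ^ 2 + ‖ph Φ b z‖ ^ 2 ≤ e z →
      ‖psi (trL M Φ) ![a, b] z - θ z * psi Φ ![a, b] z‖ ≤ 4 * max (e z - M / 4) 0 := by
    intro a b z hz h
    simp only [psi_two, ph_trL, hK z hz, ofReal_one, one_mul]
    have := le_max_right (e z - M / 4) 0
    linarith [TM_mul_sub hM _ _ h]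
  refine ⟨contDiff_cut hθ.cd hθ.sub (hL.cd_psi _), contDiff_cut hθ.cd hθ.sub (hL.cd_psi _),
    fun z hz => ?_, fun z => ⟨cut n1 z, cut n2 z, ?_⟩,
    (hL.cd_psi_trL M _).continuousOn.mono (KU.trans hθ.sub),
    (hL.cd_psi_trL M _).continuousOn.mono (KU.trans hθ.sub),
    fun z _ => ⟨bu _ _ z, bu _ _ z⟩, fun z hz => ⟨du _ _ z hz ?_, du _ _ z hz ?_⟩⟩
  · have : θ z = 0 := image_eq_zero_of_notMem_tsupport fun h => by
      have := hR h
      rw [mem_closedBall_zero_iff] at this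
      linarith
    simp [this]
  · by_cases hz : z ∈ tsupport θ
    · have hz' := hθ.sub hz
      have d0 := hd.differentiable one_ne_zero z
      have d : ∀ a b, DifferentiableAt ℝ (psi Φ ![a, b]) z := fun a b =>
        ((hL.cd_psi _).contDiffAt (isOpen_UH.mem_nhds hz')).differentiableAt one_ne_zero
      have e1 : eP (fun z => θ z * psi Φ ![a, b] z) (fun z => θ z * psi Φ ![a + 1, b + 1] z) z
          = θ z * eP (psi Φ ![a, b]) (psi Φ ![a + 1, b + 1]) z
            + dz (fun z => (θ z : ℂ)) z * psi Φ ![a, b] z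
            + dzb (fun z => (θ z : ℂ)) z * psi Φ ![a + 1, b + 1] z := by
        simp only [eP, dz_mul d0 (d _ _), dzb_mul d0 (d _ _)]; ring
      have k : ‖1 / (2 * (z.im : ℂ))‖ ≤ |C3| := (b3 z hz).trans (le_abs_self _)
      have e2 : eP (psi Φ ![a, b]) (psi Φ ![a + 1, b + 1]) z = 1 / (2 * (z.im : ℂ)) *
          ((al lam a - al lam b : ℝ) * psi Φ ![a + 1, b] z
            - (al lam a - al lam b : ℝ) * psi Φ ![a, b + 1] z
            + I * (a + b) * psi Φ ![a, b] z + I * (a + b + 2) * psi Φ ![a + 1, b + 1] z) := by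
        have hy : (z.im : ℂ) ≠ 0 := by exact_mod_cast (ne_of_gt hz')
        rw [hL.eP_psi a b hz']
        field_simp
        linear_combination (-((a + b) * psi Φ ![a, b] z
          + (a + b + 2) * psi Φ ![a + 1, b + 1] z)) * I_mul_I
      have E0 := E4_nonneg Φ a b z
      have k2 : ‖eP (psi Φ ![a, b]) (psi Φ ![a + 1, b + 1]) z‖ ≤ |C3| * (S * E4 Φ a b z) := by
        rw [e2, norm_mul]
        refine mul_le_mul k ?_ (norm_nonneg _) (abs_nonneg _)
        refine norm_add₃_le.trans ?_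
        have t1 := norm_sub_le ((al lam a - al lam b : ℝ) * psi Φ ![a + 1, b] z)
          ((al lam a - al lam b : ℝ) * psi Φ ![a, b + 1] z)
        simp only [norm_mul, Complex.norm_real, Real.norm_eq_abs, norm_I, one_mul] at t1 ⊢
        have a1 := mul_le_mul hal (n3 z) (norm_nonneg _) zero_le_one
        have a2 := mul_le_mul hal (n4 z) (norm_nonneg _) zero_le_one
        have a3 := mul_le_mul_of_nonneg_left (n1 z) (norm_nonneg (a + b : ℂ))
        have a4 := mul_le_mul_of_nonneg_left (n2 z) (norm_nonneg (a + b + 2 : ℂ))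
        rw [hS]
        linarith
      rw [e1]
      refine norm_add₃_le.trans (le_trans ?_ (he z hz))
      simp only [norm_mul]
      have a1 := mul_le_mul (nθ z) k2 (norm_nonneg _) zero_le_one
      have a2 := mul_le_mul (b1 z) (n1 z) (norm_nonneg _) c1
      have a3 := mul_le_mul (b2 z) (n2 z) (norm_nonneg _) c2
      nlinarith
    · have h0 : θ =ᶠ[𝓝 z] 0 := notMem_tsupport_iff_eventuallyEq.1 hz
      have z0 : ∀ F : ℂ → ℂ, (fun z => θ z * F z) =ᶠ[𝓝 z] fun _ => 0 := fun F => by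
        filter_upwards [h0] with w hw
        simp [hw]
      simp [eP, dz, dzb, wp, wm, (z0 _).fderiv_eq, e0]
  · exact le_trans (le_add_of_nonneg_right (by positivity)) (E z (KU hz))
  · exact le_trans (le_add_of_nonneg_left (by positivity)) (E z (KU hz))

variable {J : Type} {U : Ultrafilter J} {lam : J → ℝ} {Φ : J → ℤ → V → ℂ} {μ : Measure V}
  {χ : ℂ → ℝ}

lemma UF.uu_E4 (h : UF U lam Φ) (a b : ℤ) : UU U fun j => E4 (Φ j) a b :=
  ((h.uu a).add (h.uu b)).add ((h.uu (a + 1)).add (h.uu (b + 1)))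

lemma UF.dc (h : UF U lam Φ) (hμ : IsLim U Φ μ) (hχ : TF1 χ) (a b c d : ℤ) :
    ∃ δ > 0, ∃ C : ℝ, ∀ ε, 0 < ε → ε ≤ δ →
      ‖((∫ x, (cht χ x : ℂ) * mm μ ε c d x * mm μ ε (a + 1) (b + 1) x)
        - ∫ x, (cht χ x : ℂ) * mm μ ε (c + 1) (d + 1) x * mm μ ε a b x)
        - (QQ (UW U) (trF Φ) (fun z => χ z) (AddMonoidAlgebra.single ![a + 1, b + 1, c, d] 1)
          - QQ (UW U) (trF Φ) (fun z => χ z)
            (AddMonoidAlgebra.single ![a, b, c + 1, d + 1] 1))‖ ≤ C * ε := by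
  set K := tsupport χ
  have hK : IsCompact K := hχ.hcs.isCompact
  obtain ⟨δ, hδ, hU⟩ := hK.exists_cthickening_subset_open isOpen_UH hχ.sub
  obtain ⟨θ, θ1, θ2, θ3, θ4, θ5⟩ := exists_bump (hK.cthickening (r := δ)) isOpen_UH hU
  obtain ⟨ρ, ρ1, ρ2, ρ3, ρ4, ρ5⟩ := exists_bump θ2.isCompact isOpen_UH θ3
  have hθ : TF1 θ := ⟨⟨θ1.continuous, θ2, θ3⟩, θ1, fun z => (θ5 z).1⟩
  have θ6 : ∀ z ∈ cthickening δ K, θ z = 1 := θ4.self_of_nhdsSet
  obtain ⟨R, hR0, hR⟩ := θ2.isCompact.isBounded.subset_closedBall_lt 0 (0 : ℂ)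
  obtain ⟨C0, hC0⟩ := hχ.cutC
  obtain ⟨C1, c1, p1⟩ := exists_pr hθ (fun z => (θ5 z).2) hR
    (fun z hz => θ6 z (self_subset_cthickening K hz)) a b
  obtain ⟨C2, c2, p2⟩ := exists_pr hθ (fun z => (θ5 z).2) hR
    (fun z hz => θ6 z (self_subset_cthickening K hz)) c d
  set ut : J → ℤ → ℤ → ℂ → ℂ := fun j a b z => (θ z : ℂ) * psi (Φ j) ![a, b] z with hut
  set e : J → ℂ → ℝ := fun j z => ρ z * ((C1 + C2) * (E4 (Φ j) a b z + E4 (Φ j) c d z)) with he
  have hE := (h.uu_E4 a b).add (h.uu_E4 c d)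
  have ce : ∀ j, Continuous (e j) := fun j =>
    continuous_cut ρ1.continuous ρ3 (continuousOn_const.mul (hE.cont j))
  have e0 : ∀ j z, 0 ≤ e j z := fun j z =>
    mul_nonneg (ρ5 z).1 (mul_nonneg (by linarith) (hE.nn j z))
  have ez : ∀ j, ∀ z ∉ tsupport ρ, e j z = 0 := fun j z hz => by
    simp [he, image_eq_zero_of_notMem_tsupport hz]
  have ue : UU U e := hE.of_le (fun j => (ce j).continuousOn) e0 fun _ _ _ =>
    ⟨C1 + C2, Eventually.of_forall fun j z _ =>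
      mul_le_of_le_one_left (mul_nonneg (by linarith) (hE.nn j z)) (ρ5 z).2⟩
  obtain ⟨B, hB⟩ := ue.sq_UW ρ2.isCompact ρ3
  have ta : ∀ a b, ∀ᶠ p : ℕ × J in UW U, |al (lam p.2) a - al (lam p.2) b| ≤ 1 := fun a b =>
    tendsto_snd_UW.eventually ((tendsto_al_sub h.tend a b).abs.eventually (ge_mem_nhds (by simp)))
  obtain ⟨C, hC⟩ := bite (l := UW U) (B := B) hC0 hδ hR0
    (fun z hz => hR (subset_tsupport θ (by simp [θ6 z hz])))
    (U := fun p => ut p.2 a b) (U' := fun p => ut p.2 (a + 1) (b + 1))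
    (u := fun p => psi (trF Φ p) ![a, b]) (u' := fun p => psi (trF Φ p) ![a + 1, b + 1])
    (W := fun p => ut p.2 c d) (W' := fun p => ut p.2 (c + 1) (d + 1))
    (w := fun p => psi (trF Φ p) ![c, d]) (w' := fun p => psi (trF Φ p) ![c + 1, d + 1])
    (e := fun p => e p.2) (Λ := fun p => ((p.1 : ℝ) + 1) / 4) (fun p => ce p.2)
    (fun p => ρ2.mul_right)
    ((tendsto_level.eventually_ge_atTop 4).mono fun p hp => by linarith)
    ((ta a b).mono fun p hp => p1 _ _ (h.lad _) hp _ (level_pos p) _ (e0 _) fun z hz => by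
      simp only [he, ρ4.self_of_nhdsSet z hz, one_mul]
      nlinarith [E4_nonneg (Φ p.2) a b z, E4_nonneg (Φ p.2) c d z])
    ((ta c d).mono fun p hp => p2 _ _ (h.lad _) hp _ (level_pos p) _ (e0 _) fun z hz => by
      simp only [he, ρ4.self_of_nhdsSet z hz, one_mul]
      nlinarith [E4_nonneg (Φ p.2) a b z, E4_nonneg (Φ p.2) c d z])
    (by
      have := (ue.tail_UW ρ2.isCompact ρ3 (c := 1 / 4) (by norm_num)).div_const 4
      rw [zero_div] at this
      refine this.congr fun p => ?_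
      rw [setIntegral_eq_integral_of_forall_compl_eq_zero fun z hz => by
        rw [ez _ z hz, max_eq_right (by linarith [level_pos p])]]
      rw [show 1 / 4 * ((p.1 : ℝ) + 1) = (p.1 + 1) / 4 by ring]
      ring)
    (fun k hk => (hB (k / 4) (by positivity)).mono fun p hp => by
      rw [setIntegral_eq_integral_of_forall_compl_eq_zero fun z hz => by
        rw [ez _ z hz, min_eq_left (by positivity)]; simp] at hp
      rwa [show k * (((p.1 : ℝ) + 1) / 4) = k / 4 * (p.1 + 1) by ring])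
  refine ⟨δ, hδ, C, fun ε hε hεδ => ?_⟩
  have cdu : ∀ j a b, ContDiff ℝ 1 (ut j a b) := fun j a b =>
    contDiff_cut θ1 θ3 ((h.lad j).cd_psi _)
  have eq0 : ∀ j a b, ∀ z ∈ cthickening δ K, ut j a b z = psi (Φ j) ![a, b] z :=
    fun j a b z hz => by simp [hut, θ6 z hz]
  have hU' : cthickening ε K ⊆ UH := (cthickening_mono hεδ K).trans hU
  have b1 : ∀ x ∈ K, closedBall x ε ⊆ cthickening ε K := fun x hx =>
    closedBall_subset_cthickening hx ε
  have un : ∀ a b, TendstoUniformlyOn (fun j => moll ε (ut j a b)) (mm μ ε a b) U K := by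
    intro a b
    have := tendstoUniformlyOn_of_equi (g0 := mm μ ε a b) hK
      (fun x hx => hμ.mode2 h.toFam2 (tf_kern hε ((b1 x hx).trans hU')).ofReal a b)
      (LH.equi (fun j => ((h.lad j).cd_psi _).continuousOn) (h.toFam2.lh_psi a b) hK hε hU')
    refine this.congr (Eventually.of_forall fun j x hx => ?_)
    exact (moll_eq_kern hε ((b1 x hx).trans hU') fun y hy =>
      eq0 j a b y (cthickening_mono hεδ K (b1 x hx hy))).symm
  have tm : ∀ a b c d, Tendsto (fun p : ℕ × J => ∫ x, (cht χ x : ℂ) * moll ε (ut p.2 c d) x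
      * moll ε (ut p.2 a b) x) (UW U) (𝓝 (∫ x, (cht χ x : ℂ) * mm μ ε c d x * mm μ ε a b x)) :=
    fun a b c d => (tendsto_integral_mul_mul hK hχ.cd_cht.continuous
      (fun x hx => by simp [cht_zero hx]) (fun j => continuous_moll (cdu j _ _).continuous ε)
      (fun j => continuous_moll (cdu j _ _).continuous ε) (un c d) (un a b)).comp tendsto_snd_UW
  have tq : ∀ a b c d, Tendsto (fun p => ∫ x, (cht χ x : ℂ) * psi (trF Φ p) ![c, d] x
      * psi (trF Φ p) ![a, b] x) (UW U)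
      (𝓝 (QQ (UW U) (trF Φ) (fun z => χ z) (AddMonoidAlgebra.single ![a, b, c, d] 1))) := by
    intro a b c d
    refine (h.tendsto_QQ_tr (by simp) hχ.toTF.ofReal _).congr fun p => ?_
    have := integral_hyp_cht hχ.toTF (psi (trF Φ p) ![a, b, c, d])
    simp only [real_smul] at this
    simp only [GG_single, ofReal_one, one_mul, this]
    simp only [psi_four, mul_assoc]
  refine le_of_forall_pos_le_add fun η hη => ?_
  exact le_of_tendsto (((tm _ _ _ _).sub (tm _ _ _ _)).sub ((tq _ _ _ _).sub (tq _ _ _ _))).norm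
    (hC ε hε hεδ η hη)

theorem UF.qf (h : UF U lam Φ) (hμ : IsLim U Φ μ) (hχ : TF1 χ) :
    QF μ χ (QQ (UW U) (trF Φ) fun z => χ z) :=
  ⟨h.kills hχ, QQ_rel _ _ _, h.pos hμ hχ, h.dc hμ hχ⟩

end Pool.Agent.Lib.MP_a52643_an
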