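import Pool.Agent.Lib.MP_a52643_an.Law.Core

/-!
Constraints on limit laws of eigenfunctions.
-/

open MeasureTheory Set Filter Topology Metric UpperHalfPlane
open scoped ENNReal MatrixGroups Pointwise NNReal ComplexConjugate ContDiff Laplacian

noncomputable section

namespace Pool.Agent.Lib.MP_a52643_an

variable {Γ : Type*} [Group Γ] [MulAction Γ ℍ] [Countable Γ] {l : Γ → SL2} {D : Set ℍ}

omit [Countable Γ] in
lemma eig2_zero (D : Set ℍ) : Eig2 Γ D (fun _ => 0) 1 :=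
  ⟨fun _ _ => rfl, contDiffOn_const, fun z _ => by simp, by simp⟩

theorem core2 {J : Type} {U : Ultrafilter J} (hD : FD l D) {φ : J → ℍ → ℝ} {lam : J → ℝ}
    (ht : Tendsto lam U atTop) (h : ∀ j, Eig2 Γ D (φ j) (lam j))
    (hn : ∀ j, ∫ z in D, φ j z ^ 2 ≤ 1)
    (hH : ∀ η > 0, ∃ A ≥ 0, ∀ Λ > 0, ∀ᶠ j in (U : Filter J), ∫ z in D, hub A Λ (φ j z ^ 2) ≤ η)
    {M : ℝ} (hM : ∀ N > 0, ∀ η > 0, ∀ᶠ j in (U : Filter J),
      ∫ z in D, min (φ j z ^ 2) N ^ 2 ≤ M + η) :
    ∃ f : ℍ → ℝ, Measurable f ∧ IntegrableOn (fun z => f z ^ 2) D ∧ 3 * ∫ z in D, f z ^ 2 ≤ M ∧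
      ∀ (ψ : ℍ → ℝ) (B : ℝ), Measurable ψ → (∀ z, |ψ z| ≤ B) →
        Tendsto (fun j => ∫ z in D, ψ z * φ j z ^ 2) U (𝓝 (∫ z in D, ψ z * f z)) ∧
        Tendsto (fun p : ℕ × J => ∫ z in D, ψ z * TR (p.1 + 1) (φ p.2 z) ^ 3) (UW U) (𝓝 0) := by
  have ev := ht.eventually_gt_atTop 0
  obtain ⟨f, h1, h2, h3, h4⟩ := core2_pos (U := U) hD (M := M)
    (φ := fun j => if 0 < lam j then φ j else fun _ => 0)
    (lam := fun j => if 0 < lam j then lam j else 1)
    (fun j => by split_ifs with h' <;> simp [h']) (ht.congr' (ev.mono fun j hj => by simp [hj]))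
    (fun j => by
      split_ifs
      · exact h j
      · exact eig2_zero D)
    (fun j => by
      split_ifs
      · exact hn j
      · simp)
    (fun η hη => by
      obtain ⟨A, A0, hA⟩ := hH η hη
      exact ⟨A, A0, fun Λ hΛ => by
        filter_upwards [ev, hA Λ hΛ] with j h1 h2; simpa [h1] using h2⟩)
    (fun N hN η hη => by filter_upwards [ev, hM N hN η hη] with j h1 h2; simpa [h1] using h2)
  exact ⟨f, h1, h2, h3, fun ψ B hψ hB =>
    ⟨(h4 ψ B hψ hB).1.congr' (ev.mono fun j hj => by simp [hj]),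
      (h4 ψ B hψ hB).2.congr' ((tendsto_snd_UW.eventually ev).mono fun j hj => by simp [hj])⟩⟩

/-- the laws of the functions converge weakly, after normalising the area -/
def LawTo (D : Set ℍ) (φ : ℕ → ℍ → ℝ) (ν : Measure ℝ) : Prop :=
  ∀ (g : ℝ → ℝ) (C : ℝ), Continuous g → (∀ t, |g t| ≤ C) →
    Tendsto (fun j => ∫ z in D, g (φ j z)) atTop (𝓝 (volume.real D * ∫ t, g t ∂ν))

section
variable {φ : ℕ → ℍ → ℝ} {lam : ℕ → ℝ} {ν : Measure ℝ} [IsProbabilityMeasure ν]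

lemma integrable_sq_of_four (h4 : Integrable (fun t : ℝ => t ^ 4) ν) :
    Integrable (fun t : ℝ => t ^ 2) ν :=
  ((integrable_const 1).add h4).mono' (by fun_prop) (Eventually.of_forall fun t => by
    rw [Real.norm_of_nonneg (sq_nonneg t), Pi.add_apply]; nlinarith [sq_nonneg (t ^ 2 - 1)])

lemma tendsto_pos_sq (h4 : Integrable (fun t : ℝ => t ^ 4) ν) :
    Tendsto (fun A : ℕ => ∫ t, max (t ^ 2 - A) 0 ^ 2 ∂ν) atTop (𝓝 0) := by
  have := tendsto_integral_of_dominated_convergence (μ := ν)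
    (F := fun (A : ℕ) (t : ℝ) => max (t ^ 2 - A) 0 ^ 2) (f := fun _ => 0) (fun t => t ^ 4)
    (fun A => by fun_prop) h4 (fun A => Eventually.of_forall fun t => by
      rw [Real.norm_of_nonneg (sq_nonneg _), show t ^ 4 = (t ^ 2) ^ 2 by ring]
      exact pow_le_pow_left₀ (le_max_right _ _)
        (max_le (by linarith [(Nat.cast_nonneg A : (0 : ℝ) ≤ A)]) (sq_nonneg t)) 2)
    (Eventually.of_forall fun t => tendsto_const_nhds.congr' (by
      filter_upwards [tendsto_natCast_atTop_atTop.eventually_ge_atTop (t ^ 2)] with A hA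
      rw [max_eq_right (by linarith)]; simp))
  simpa using this

omit [Countable Γ] in
lemma LawTo.hub (hD : FD l D) (h : ∀ j, Eig2 Γ D (φ j) (lam j)) (hL : LawTo D φ ν)
    (hn : ∀ j, ∫ z in D, φ j z ^ 2 = 1) (h2 : volume.real D * ∫ t, t ^ 2 ∂ν = 1)
    (h4 : Integrable (fun t : ℝ => t ^ 4) ν) {η : ℝ} (hη : 0 < η) :
    ∃ A ≥ 0, ∀ Λ > 0, ∀ᶠ j in atTop, ∫ z in D, hub A Λ (φ j z ^ 2) ≤ η := by
  have V0 : 0 ≤ volume.real D := measureReal_nonneg
  have t0 := (tendsto_pos_sq h4).const_mul (volume.real D)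
  rw [mul_zero] at t0
  obtain ⟨A, hA⟩ := (t0.eventually (gt_mem_nhds hη)).exists
  have A0 : (0 : ℝ) ≤ A := Nat.cast_nonneg A
  refine ⟨A, A0, fun Λ hΛ => ?_⟩
  have cH : Continuous fun t : ℝ => Pool.Agent.Lib.MP_a52643_an.hub A Λ (t ^ 2) :=
    (continuous_hub A Λ).comp (by fun_prop)
  have i2 := integrable_sq_of_four h4
  have iH : Integrable (fun t : ℝ => Pool.Agent.Lib.MP_a52643_an.hub A Λ (t ^ 2)) ν :=
    (i2.const_mul (2 * Λ)).mono' cH.aestronglyMeasurable (Eventually.of_forall fun t => by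
      rw [Real.norm_of_nonneg (hub_nonneg hΛ.le)]; exact hub_le_lin hΛ.le A0 (sq_nonneg t))
  have t1 := hL (fun t => Pool.Agent.Lib.MP_a52643_an.hub A Λ (t ^ 2) - 2 * Λ * t ^ 2)
    (2 * Λ * A + Λ ^ 2) (cH.sub (by fun_prop)) fun t => by
      have a := hub_le_lin hΛ.le A0 (sq_nonneg t)
      have b := le_hub (A := A) (s := t ^ 2) hΛ.le le_rfl
      rw [abs_le]; constructor <;> nlinarith [mul_nonneg hΛ.le A0]
  have i3 : Integrable (fun t : ℝ => max (t ^ 2 - A) 0 ^ 2) ν :=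
    h4.mono' (by fun_prop) (Eventually.of_forall fun t => by
      rw [Real.norm_of_nonneg (sq_nonneg _), show t ^ 4 = (t ^ 2) ^ 2 by ring]
      exact pow_le_pow_left₀ (le_max_right _ _) (max_le (by linarith) (sq_nonneg t)) 2)
  have b1 := integral_mono iH i3 fun t => hub_le_sq hΛ.le
  rw [integral_sub iH (i2.const_mul _), integral_const_mul] at t1
  have lt : volume.real D * (∫ t, Pool.Agent.Lib.MP_a52643_an.hub A Λ (t ^ 2) ∂ν
      - 2 * Λ * ∫ t, t ^ 2 ∂ν) < η - 2 * Λ := by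
    nlinarith [mul_le_mul_of_nonneg_left b1 V0]
  filter_upwards [t1.eventually (gt_mem_nhds lt)] with j hj
  have iw := (h j).iw hD cH (fun t => hub_nonneg hΛ.le) (a := 0) (b := 2 * Λ)
    fun t => by simpa using hub_le_lin hΛ.le A0 (sq_nonneg t)
  rw [integral_sub iw.int ((h j).int.const_mul _), integral_const_mul, hn] at hj
  linarith

lemma LawTo.min (hL : LawTo D φ ν) (h4 : Integrable (fun t : ℝ => t ^ 4) ν) {N η : ℝ}
    (hN : 0 < N) (hη : 0 < η) : ∀ᶠ j in atTop,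
      ∫ z in D, min (φ j z ^ 2) N ^ 2 ≤ volume.real D * ∫ t, t ^ 4 ∂ν + η := by
  have b : ∀ t : ℝ, Min.min (t ^ 2) N ^ 2 ≤ t ^ 4 := fun t => by
    rw [show t ^ 4 = (t ^ 2) ^ 2 by ring]
    exact pow_le_pow_left₀ (le_min (sq_nonneg _) hN.le) (min_le_left _ _) 2
  have t1 := hL (fun t => Min.min (t ^ 2) N ^ 2) (N ^ 2) (by fun_prop) fun t => by
    rw [abs_of_nonneg (sq_nonneg _)]; simpa using min_sq_le hN t
  have b1 : ∫ t, Min.min (t ^ 2) N ^ 2 ∂ν ≤ ∫ t, t ^ 4 ∂ν :=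
    integral_mono_of_nonneg (Eventually.of_forall fun t => sq_nonneg _) h4 (Eventually.of_forall b)
  have lt : volume.real D * ∫ t, Min.min (t ^ 2) N ^ 2 ∂ν
      < volume.real D * ∫ t, t ^ 4 ∂ν + η :=
    (mul_le_mul_of_nonneg_left b1 measureReal_nonneg).trans_lt (lt_add_of_pos_right _ hη)
  exact (t1.eventually (gt_mem_nhds lt)).mono fun j hj => hj.le

lemma abs_TR_cube {M : ℝ} (hM : 0 < M) (t : ℝ) : |TR M t ^ 3| ≤ 1 + M ^ 2 := by
  have a := (TR_four_le hM t).trans (min_sq_le hM t)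
  rw [abs_pow]
  rw [← Even.pow_abs (by decide : Even 4)] at a
  have x0 := abs_nonneg (TR M t)
  set x := |TR M t|
  rcases le_total x 1 with h | h
  · nlinarith [pow_le_one₀ x0 h (n := 3), sq_nonneg M]
  · nlinarith [pow_le_pow_right₀ h (by norm_num : 3 ≤ 4)]

lemma tendsto_TR_cube (h4 : Integrable (fun t : ℝ => t ^ 4) ν) :
    Tendsto (fun N : ℕ => ∫ t, TR (N + 1) t ^ 3 ∂ν) atTop (𝓝 (∫ t, t ^ 3 ∂ν)) :=
  tendsto_integral_of_dominated_convergence (fun t => 1 + t ^ 4)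
    (fun N => ((continuous_TR _).pow 3).aestronglyMeasurable) ((integrable_const 1).add h4)
    (fun N => Eventually.of_forall fun t => by
      rw [Real.norm_eq_abs, abs_pow, ← Even.pow_abs (by decide : Even 4)]
      refine (pow_le_pow_left₀ (abs_nonneg _) (abs_TR_le _ t) 3).trans ?_
      have x0 := abs_nonneg t
      rcases le_total |t| 1 with h | h
      · nlinarith [pow_le_one₀ x0 h (n := 3), pow_nonneg x0 4]
      · nlinarith [pow_le_pow_right₀ h (by norm_num : 3 ≤ 4)])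
    (Eventually.of_forall fun t => tendsto_const_nhds.congr' (by
      filter_upwards [tendsto_natCast_atTop_atTop.eventually_ge_atTop (2 * t ^ 2)] with N hN
      rw [TR_eq (by positivity) (by linarith)]))

theorem law_core (hD : FD l D) (ht : Tendsto lam atTop atTop) (h : ∀ j, Eig2 Γ D (φ j) (lam j))
    (hn : ∀ j, ∫ z in D, φ j z ^ 2 = 1) (hL : LawTo D φ ν)
    (h2 : volume.real D * ∫ t, t ^ 2 ∂ν = 1) (h4 : Integrable (fun t : ℝ => t ^ 4) ν)
    {U : Ultrafilter ℕ} (hU : (U : Filter ℕ) ≤ atTop) :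
    ∃ f : ℍ → ℝ, Measurable f ∧ IntegrableOn (fun z => f z ^ 2) D ∧
      3 * ∫ z in D, f z ^ 2 ≤ volume.real D * ∫ t, t ^ 4 ∂ν ∧
      ∀ (ψ : ℍ → ℝ) (B : ℝ), Measurable ψ → (∀ z, |ψ z| ≤ B) →
        Tendsto (fun j => ∫ z in D, ψ z * φ j z ^ 2) U (𝓝 (∫ z in D, ψ z * f z)) ∧
        Tendsto (fun p : ℕ × ℕ => ∫ z in D, ψ z * TR (p.1 + 1) (φ p.2 z) ^ 3) (UW U) (𝓝 0) :=
  core2 hD (ht.mono_left hU) h (fun j => (hn j).le)
    (fun η hη => by
      obtain ⟨A, A0, hA⟩ := hL.hub hD h hn h2 h4 hη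
      exact ⟨A, A0, fun Λ hΛ => hU (hA Λ hΛ)⟩)
    fun N hN η hη => hU (hL.min h4 hN hη)

theorem law_third (hD : FD l D) (ht : Tendsto lam atTop atTop) (h : ∀ j, Eig2 Γ D (φ j) (lam j))
    (hn : ∀ j, ∫ z in D, φ j z ^ 2 = 1) (hL : LawTo D φ ν)
    (h2 : volume.real D * ∫ t, t ^ 2 ∂ν = 1) (h4 : Integrable (fun t : ℝ => t ^ 4) ν) :
    ∫ t, t ^ 3 ∂ν = 0 := by
  obtain ⟨U, hU⟩ := Ultrafilter.exists_le (atTop : Filter ℕ)
  obtain ⟨f, -, -, -, hf⟩ := law_core hD ht h hn hL h2 h4 hU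
  have t1 := (hf (fun _ => 1) 1 measurable_const (by simp)).2
  simp only [one_mul] at t1
  have t2 := tendsto_UW (U := U)
    (x := fun p : ℕ × ℕ => ((∫ z in D, TR (p.1 + 1) (φ p.2 z) ^ 3 : ℝ) : ℂ))
    (fun N => (Complex.continuous_ofReal.tendsto _).comp ((hL (fun t => TR (N + 1) t ^ 3) _
      ((continuous_TR _).pow 3) (abs_TR_cube (by positivity))).mono_left hU))
    ((Complex.continuous_ofReal.tendsto _).comp ((tendsto_TR_cube h4).const_mul _))
  have e := tendsto_nhds_unique t2 ((Complex.continuous_ofReal.tendsto _).comp t1)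
  rw [Complex.ofReal_inj, mul_eq_zero] at e
  refine e.resolve_left fun e0 => ?_
  rw [e0, zero_mul] at h2
  exact zero_ne_one h2

theorem law_fourth (hD : FD l D) (ht : Tendsto lam atTop atTop) (h : ∀ j, Eig2 Γ D (φ j) (lam j))
    (hn : ∀ j, ∫ z in D, φ j z ^ 2 = 1) (hL : LawTo D φ ν)
    (h2 : volume.real D * ∫ t, t ^ 2 ∂ν = 1) (h4 : Integrable (fun t : ℝ => t ^ 4) ν)
    {ψ : ℍ → ℝ} {B : ℝ} (hψ : Measurable ψ) (hB : ∀ z, |ψ z| ≤ B) (h0 : ∫ z in D, ψ z = 0)
    (h1 : ∫ z in D, ψ z ^ 2 ≤ 1) {ε : ℝ} (hε : 0 < ε) : ∀ᶠ j in atTop,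
      3 / volume.real D + 3 * (∫ z in D, ψ z * φ j z ^ 2) ^ 2 - ε
        ≤ volume.real D * ∫ t, t ^ 4 ∂ν := by
  by_contra hc
  obtain ⟨U, hU, hU'⟩ := exists_ultra hc
  have : IsFiniteMeasure (volume.restrict D) := isFiniteMeasure_restrict.2 hD.fin
  have V0 : volume.real D ≠ 0 := fun e0 => by
    rw [e0, zero_mul] at h2
    exact zero_ne_one h2
  obtain ⟨f, m, i, q, hf⟩ := law_core hD ht h hn hL h2 h4 hU
  have t := (hf ψ B hψ hB).1
  set x := ∫ z in D, ψ z * f z with e1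
  have q' : volume.real D * ∫ t, t ^ 4 ∂ν ≤ 3 / volume.real D + 3 * x ^ 2 - ε :=
    ge_of_tendsto ((((t.pow 2).const_mul 3).const_add _).sub_const ε)
      (hU'.mono fun j hj => (not_le.1 hj).le)
  have e2 : ∫ z in D, f z = 1 := by
    have := (hf (fun _ => 1) 1 measurable_const (by simp)).1
    simp only [one_mul, hn] at this
    exact tendsto_nhds_unique this tendsto_const_nhds |>.symm ▸ rfl
  have i1 : IntegrableOn f D := ((integrable_const 1).add i).mono' m.aestronglyMeasurable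
    (Eventually.of_forall fun z => by
      rw [Real.norm_eq_abs, Pi.add_apply, ← sq_abs]; nlinarith [sq_nonneg (|f z| - 1)])
  have i2 : IntegrableOn ψ D := integrable_of_abs_le hψ hB
  have i3 : IntegrableOn (fun z => ψ z * f z) D :=
    i1.bdd_mul hψ.aestronglyMeasurable (Eventually.of_forall hB)
  have i4 : IntegrableOn (fun z => ψ z ^ 2) D := integrable_of_abs_le (hψ.pow_const 2) (B := B ^ 2)
    fun z => by rw [abs_pow]; exact pow_le_pow_left₀ (abs_nonneg _) (hB z) 2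
  set c := 1 / volume.real D
  have key : ∫ z in D, (2 * c * f z + 2 * x * (ψ z * f z) - c ^ 2 - 2 * c * x * ψ z
      - x ^ 2 * ψ z ^ 2) ≤ ∫ z in D, f z ^ 2 :=
    integral_mono (((((i1.const_mul _).add (i3.const_mul _)).sub (integrable_const _)).sub
      (i2.const_mul _)).sub (i4.const_mul _)) i fun z => by
        simp only; nlinarith [sq_nonneg (f z - c - x * ψ z)]
  rw [integral_sub (by exact ((((i1.const_mul _).add (i3.const_mul _)).sub
      (integrable_const _)).sub (i2.const_mul _))) (i4.const_mul _),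
    integral_sub (by exact (((i1.const_mul _).add (i3.const_mul _)).sub (integrable_const _)))
      (i2.const_mul _), integral_sub (by exact (i1.const_mul _).add (i3.const_mul _))
      (integrable_const _), integral_add (i1.const_mul _) (i3.const_mul _), integral_const_mul,
    integral_const_mul, integral_const_mul, integral_const_mul, setIntegral_const, ← e1, e2, h0,
    smul_eq_mul] at key
  have e3 : volume.real D * c ^ 2 = c := by simp only [c]; field_simp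
  have e4 : 3 / volume.real D = 3 * c := by simp only [c]; ring
  nlinarith [mul_le_mul_of_nonneg_left h1 (sq_nonneg x)]

end

end Pool.Agent.Lib.MP_a52643_an
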