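import Pool.Agent.Lib.MP_a52643_an.Moll

/-!
Families that are uniformly square integrable up to a part that vanishes in mean.
-/

open Complex MeasureTheory Set Filter Topology Metric
open scoped ComplexConjugate ContDiff ENNReal

noncomputable section

namespace Pool.Agent.Lib.MP_a52643_an

/-- quadratic above `A`, linear above `A + Λ` -/
def hub (A Λ s : ℝ) : ℝ :=
  2 * max 0 (min (s - A) Λ) * (s - A) - max 0 (min (s - A) Λ) ^ 2

lemma continuous_hub (A Λ : ℝ) : Continuous (hub A Λ) := by unfold hub; fun_prop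

lemma le_hub {A Λ s c : ℝ} (h0 : 0 ≤ c) (h1 : c ≤ Λ) : 2 * c * (s - A) - c ^ 2 ≤ hub A Λ s := by
  unfold hub
  rcases le_total (s - A) Λ with h | h
  · rw [min_eq_left h]
    rcases le_total 0 (s - A) with h' | h'
    · rw [max_eq_right h']; nlinarith [sq_nonneg (s - A - c)]
    · rw [max_eq_left h']; nlinarith
  · rw [min_eq_right h, max_eq_right (h0.trans h1)]; nlinarith

lemma hub_le {A Λ s b : ℝ} (hΛ : 0 ≤ Λ)
    (h : ∀ c, 0 ≤ c → c ≤ Λ → 2 * c * (s - A) - c ^ 2 ≤ b) : hub A Λ s ≤ b :=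
  h _ (le_max_left _ _) (max_le hΛ (min_le_right _ _))

lemma hub_nonneg {A Λ s : ℝ} (hΛ : 0 ≤ Λ) : 0 ≤ hub A Λ s := by
  simpa using le_hub (A := A) (s := s) le_rfl hΛ

lemma hub_mono {A Λ s t : ℝ} (hΛ : 0 ≤ Λ) (h : s ≤ t) : hub A Λ s ≤ hub A Λ t :=
  hub_le hΛ fun c h0 h1 => le_trans (by nlinarith) (le_hub h0 h1)

lemma hub_add {A A' Λ s t : ℝ} (hΛ : 0 ≤ Λ) :
    hub (A + A') Λ (s + t) ≤ 2 * hub A Λ s + 2 * hub A' Λ t :=
  hub_le hΛ fun c h0 h1 => by
    have a := le_hub (A := A) (Λ := Λ) (s := s) (c := c / 2) (by linarith) (by linarith)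
    have b := le_hub (A := A') (Λ := Λ) (s := t) (c := c / 2) (by linarith) (by linarith)
    nlinarith

lemma hub_mul {A Λ s k : ℝ} (hΛ : 0 ≤ Λ) (hk : 0 < k) :
    hub (k * A) Λ (k * s) ≤ k ^ 2 * hub A (Λ / k) s :=
  hub_le hΛ fun c h0 h1 => by
    have a := le_hub (A := A) (Λ := Λ / k) (s := s) (c := c / k) (by positivity) (by gcongr)
    have e : k ^ 2 * (2 * (c / k) * (s - A) - (c / k) ^ 2) = 2 * c * (k * s - k * A) - c ^ 2 := by
      field_simp
    rw [← e]; gcongr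

lemma hub_le_lin {A Λ s : ℝ} (hΛ : 0 ≤ Λ) (hA : 0 ≤ A) (hs : 0 ≤ s) : hub A Λ s ≤ 2 * Λ * s :=
  hub_le hΛ fun c h0 h1 => by nlinarith

lemma hub_le_sq {A Λ s : ℝ} (hΛ : 0 ≤ Λ) : hub A Λ s ≤ max (s - A) 0 ^ 2 :=
  hub_le hΛ fun c h0 h1 => by
    nlinarith [sq_nonneg (max (s - A) 0 - c), mul_le_mul_of_nonneg_left (le_max_left (s - A) 0) h0]

lemma pos_le_hub {A Λ s : ℝ} (hA : A ≤ Λ) (hΛ : 0 ≤ Λ) : Λ * max (s - 2 * Λ) 0 ≤ hub A Λ s := by
  rcases le_total (s - 2 * Λ) 0 with h | h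
  · rw [max_eq_right h, mul_zero]; exact hub_nonneg hΛ
  · rw [max_eq_left h]
    exact le_trans (by nlinarith) (le_hub hΛ le_rfl)

lemma min_sq_le_hub {A Λ s : ℝ} (hs : 0 ≤ s) (hA : 0 ≤ A) (hΛ : 0 ≤ Λ) :
    min s Λ ^ 2 ≤ 2 * A ^ 2 + 2 * hub A Λ s := by
  have m0 : 0 ≤ min s Λ := le_min hs hΛ
  have m1 := min_le_left s Λ
  have m2 := min_le_right s Λ
  rcases le_total (min s Λ) A with h | h
  · nlinarith [hub_nonneg (A := A) (s := s) hΛ]
  · have := le_hub (A := A) (Λ := Λ) (s := s) (c := min s Λ - A) (by linarith) (by linarith)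
    nlinarith [sq_nonneg (min s Λ - 2 * A)]

variable {J : Type} {l : Filter J}

structure UU (l : Filter J) (e : J → ℂ → ℝ) : Prop where
  cont : ∀ j, ContinuousOn (e j) UH
  nn : ∀ j z, 0 ≤ e j z
  bd : ∀ K : Set ℂ, IsCompact K → K ⊆ UH → ∀ η > 0, ∃ A ≥ 0, ∀ Λ > 0, ∀ᶠ j in l,
    ∫ z in K, hub A Λ (e j z) ≤ η

variable {e e' : J → ℂ → ℝ}

lemma intOn_comp {f : ℂ → ℝ} (hf : ContinuousOn f UH) {K : Set ℂ} (hK : IsCompact K)
    (hU : K ⊆ UH) {φ : ℝ → ℝ} (hφ : Continuous φ) : IntegrableOn (fun z => φ (f z)) K :=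
  (hφ.comp_continuousOn (hf.mono hU)).integrableOn_compact hK

lemma UU.add (h : UU l e) (h' : UU l e') : UU l fun j z => e j z + e' j z := by
  refine ⟨fun j => (h.cont j).add (h'.cont j), fun j z => add_nonneg (h.nn j z) (h'.nn j z),
    fun K hK hU η hη => ?_⟩
  obtain ⟨A, hA, h1⟩ := h.bd K hK hU (η / 4) (by positivity)
  obtain ⟨A', hA', h2⟩ := h'.bd K hK hU (η / 4) (by positivity)
  refine ⟨A + A', add_nonneg hA hA', fun Λ hΛ => ?_⟩
  filter_upwards [h1 Λ hΛ, h2 Λ hΛ] with j a b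
  have i1 := intOn_comp (h.cont j) hK hU (continuous_hub A Λ)
  have i2 := intOn_comp (h'.cont j) hK hU (continuous_hub A' Λ)
  have i3 := intOn_comp ((h.cont j).add (h'.cont j)) hK hU (continuous_hub (A + A') Λ)
  calc ∫ z in K, hub (A + A') Λ (e j z + e' j z)
      ≤ ∫ z in K, (2 * hub A Λ (e j z) + 2 * hub A' Λ (e' j z)) :=
        setIntegral_mono_on i3 ((i1.const_mul 2).add (i2.const_mul 2)) hK.measurableSet
          fun z _ => hub_add hΛ.le
    _ = 2 * (∫ z in K, hub A Λ (e j z)) + 2 * ∫ z in K, hub A' Λ (e' j z) := by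
        rw [integral_add (i1.const_mul 2) (i2.const_mul 2), integral_const_mul, integral_const_mul]
    _ ≤ η := by linarith

lemma UU.of_le (h : UU l e) (hc : ∀ j, ContinuousOn (e' j) UH) (h0 : ∀ j z, 0 ≤ e' j z)
    (hle : ∀ K : Set ℂ, IsCompact K → K ⊆ UH → ∃ C : ℝ, ∀ᶠ j in l, ∀ z ∈ K, e' j z ≤ C * e j z) :
    UU l e' := by
  refine ⟨hc, h0, fun K hK hU η hη => ?_⟩
  obtain ⟨C, hC⟩ := hle K hK hU
  set k := max C 1 with hk
  have k0 : 0 < k := lt_of_lt_of_le one_pos (le_max_right _ _)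
  obtain ⟨A, hA, h1⟩ := h.bd K hK hU (η / k ^ 2) (by positivity)
  refine ⟨k * A, by positivity, fun Λ hΛ => ?_⟩
  filter_upwards [h1 (Λ / k) (by positivity), hC] with j a b
  have i1 := intOn_comp (h.cont j) hK hU (continuous_hub A (Λ / k))
  have i3 := intOn_comp (hc j) hK hU (continuous_hub (k * A) Λ)
  calc ∫ z in K, hub (k * A) Λ (e' j z)
      ≤ ∫ z in K, k ^ 2 * hub A (Λ / k) (e j z) :=
        setIntegral_mono_on i3 (i1.const_mul _) hK.measurableSet fun z hz =>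
          (hub_mono hΛ.le ((b z hz).trans
            (mul_le_mul_of_nonneg_right (le_max_left _ _) (h.nn j z)))).trans (hub_mul hΛ.le k0)
    _ = k ^ 2 * ∫ z in K, hub A (Λ / k) (e j z) := integral_const_mul _ _
    _ ≤ k ^ 2 * (η / k ^ 2) := by gcongr
    _ = η := by field_simp

lemma UU.of_small (hc : ∀ j, ContinuousOn (e j) UH) (h0 : ∀ j z, 0 ≤ e j z)
    (h : ∀ K : Set ℂ, IsCompact K → K ⊆ UH → ∀ δ > 0, ∀ᶠ j in l, ∫ z in K, e j z ≤ δ) :
    UU l e := by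
  refine ⟨hc, h0, fun K hK hU η hη => ⟨0, le_rfl, fun Λ hΛ => ?_⟩⟩
  filter_upwards [h K hK hU (η / (2 * Λ)) (by positivity)] with j a
  have i1 : IntegrableOn (e j) K := ((hc j).mono hU).integrableOn_compact hK
  have i3 := intOn_comp (hc j) hK hU (continuous_hub 0 Λ)
  calc ∫ z in K, hub 0 Λ (e j z) ≤ ∫ z in K, 2 * Λ * e j z :=
        setIntegral_mono_on i3 (i1.const_mul _) hK.measurableSet fun z _ =>
          hub_le_lin hΛ.le le_rfl (h0 j z)
    _ = 2 * Λ * ∫ z in K, e j z := integral_const_mul _ _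
    _ ≤ 2 * Λ * (η / (2 * Λ)) := by gcongr
    _ = η := by field_simp

lemma UU.sum {ι : Type} (s : Finset ι) {f : ι → J → ℂ → ℝ} (h : ∀ i ∈ s, UU l (f i)) :
    UU l fun j z => ∑ i ∈ s, f i j z := by
  classical
  induction s using Finset.induction_on with
  | empty =>
    simp only [Finset.sum_empty]
    exact UU.of_small (fun _ => continuousOn_const) (fun _ _ => le_rfl)
      fun K _ _ δ hδ => Eventually.of_forall fun j => by simpa using hδ.le
  | insert i s hi ih =>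
    simp only [Finset.sum_insert hi]
    exact (h i (Finset.mem_insert_self _ _)).add
      (ih fun k hk => h k (Finset.mem_insert_of_mem hk))

lemma UU.tail (h : UU l e) {K : Set ℂ} (hK : IsCompact K) (hU : K ⊆ UH) {η : ℝ} (hη : 0 < η) :
    ∃ Λ0 > 0, ∀ Λ ≥ Λ0, ∀ᶠ j in l, Λ * ∫ z in K, max (e j z - Λ) 0 ≤ η := by
  obtain ⟨A, hA, h1⟩ := h.bd K hK hU (η / 2) (by positivity)
  refine ⟨2 * A + 1, by positivity, fun Λ hΛ => ?_⟩
  have p : 0 < Λ / 2 := by linarith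
  filter_upwards [h1 (Λ / 2) p] with j a
  have i1 := intOn_comp (h.cont j) hK hU (continuous_hub A (Λ / 2))
  have i2 := intOn_comp (h.cont j) hK hU (φ := fun s => Λ / 2 * max (s - Λ) 0) (by fun_prop)
  have : ∫ z in K, Λ / 2 * max (e j z - Λ) 0 ≤ ∫ z in K, hub A (Λ / 2) (e j z) :=
    setIntegral_mono_on i2 i1 hK.measurableSet fun z _ => by
      have := pos_le_hub (A := A) (Λ := Λ / 2) (s := e j z) (by linarith) p.le
      rwa [show 2 * (Λ / 2) = Λ by ring] at this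
  rw [integral_const_mul] at this
  linarith

lemma UU.sq (h : UU l e) {K : Set ℂ} (hK : IsCompact K) (hU : K ⊆ UH) :
    ∃ B : ℝ, ∀ Λ > 0, ∀ᶠ j in l, ∫ z in K, min (e j z) Λ ^ 2 ≤ B := by
  obtain ⟨A, hA, h1⟩ := h.bd K hK hU 1 one_pos
  refine ⟨(∫ _ in K, 2 * A ^ 2) + 2, fun Λ hΛ => ?_⟩
  filter_upwards [h1 Λ hΛ] with j a
  have i1 := intOn_comp (h.cont j) hK hU (continuous_hub A Λ)
  have i2 := intOn_comp (h.cont j) hK hU (φ := fun s => min s Λ ^ 2) (by fun_prop)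
  have i3 := intOn_comp (h.cont j) hK hU (φ := fun _ => 2 * A ^ 2) (by fun_prop)
  calc ∫ z in K, min (e j z) Λ ^ 2 ≤ ∫ z in K, (2 * A ^ 2 + 2 * hub A Λ (e j z)) :=
        setIntegral_mono_on i2 (i3.add (i1.const_mul 2)) hK.measurableSet fun z _ =>
          min_sq_le_hub (h.nn j z) hA hΛ.le
    _ = (∫ _ in K, 2 * A ^ 2) + 2 * ∫ z in K, hub A Λ (e j z) := by
        rw [integral_add i3 (i1.const_mul 2), integral_const_mul 2 fun z => hub A Λ (e j z)]
    _ ≤ _ := by linarith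

lemma hub_jensen {κ f : ℂ → ℝ} {A Λ m : ℝ} (hκi : Integrable κ) (hκ0 : ∀ a, 0 ≤ κ a)
    (hf : Integrable fun a => κ a * f a) (hh : Integrable fun a => κ a * hub A Λ (f a ^ 2))
    (hm : 0 < m) (hκm : ∫ a, κ a ≤ m) (hA : 0 ≤ A) (hΛ : 0 ≤ Λ) :
    hub A Λ (((∫ a, κ a * f a) / m) ^ 2) ≤ m⁻¹ * ∫ a, κ a * hub A Λ (f a ^ 2) := by
  refine hub_le hΛ fun c h0 h1 => ?_
  obtain ⟨t, ht⟩ : ∃ t, t = (∫ a, κ a * f a) / m := ⟨_, rfl⟩
  have hv : ∫ a, κ a * f a = t * m := by rw [ht]; field_simp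
  rw [← ht]
  have i1 : Integrable fun a => 4 * c * t * (κ a * f a) := hf.const_mul _
  have i2 : Integrable fun a => (2 * c * t ^ 2 + 2 * c * A + c ^ 2) * κ a := hκi.const_mul _
  have e1 : ∫ a, (4 * c * t * (κ a * f a) - (2 * c * t ^ 2 + 2 * c * A + c ^ 2) * κ a) ≤
      ∫ a, κ a * hub A Λ (f a ^ 2) :=
    integral_mono (i1.sub i2) hh fun a => by
      have a1 := le_hub (A := A) (s := f a ^ 2) h0 h1
      have a2 : 4 * c * t * f a - (2 * c * t ^ 2 + 2 * c * A + c ^ 2) ≤ hub A Λ (f a ^ 2) := by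
        nlinarith [mul_nonneg h0 (sq_nonneg (f a - t))]
      have a3 := mul_le_mul_of_nonneg_left a2 (hκ0 a)
      show _ ≤ _
      linarith
  rw [integral_sub i1 i2, integral_const_mul, integral_const_mul, hv] at e1
  have p : 0 ≤ 2 * c * t ^ 2 + 2 * c * A + c ^ 2 := by positivity
  have e2 := mul_le_mul_of_nonneg_left hκm p
  rw [inv_mul_eq_div, le_div_iff₀ hm]
  nlinarith

lemma shift_le {H : ℂ → ℝ} (hH : Continuous H) (H0 : ∀ z, 0 ≤ H z) {K : Set ℂ} (hK : IsCompact K)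
    {δ : ℝ} {a : ℂ} (ha : ‖a‖ ≤ δ) : ∫ z in K, H (z + a) ≤ ∫ z in cthickening δ K, H z := by
  have hm : (fun x => x + a) '' K ⊆ cthickening δ K := image_subset_iff.2 fun x hx =>
    mem_cthickening_of_dist_le _ x δ K hx (by simpa using ha)
  have hK1 : IsCompact (cthickening δ K) := hK.cthickening
  have i1 : IntegrableOn H (cthickening δ K) := hH.continuousOn.integrableOn_compact hK1
  have e := (measurePreserving_add_right (volume : Measure ℂ) a).setIntegral_image_emb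
          (measurableEmbedding_addRight a) H K
  rw [← e]
  exact setIntegral_mono_set i1 (Eventually.of_forall H0) hm.eventuallyLE

lemma avg_swap {κ H : ℂ → ℝ} (hκi : Integrable κ) (hκ0 : ∀ a, 0 ≤ κ a)
    (hκ1 : ∀ a, 1 < ‖a‖ → κ a = 0) (hH : Continuous H) (H0 : ∀ z, 0 ≤ H z) {B : ℝ}
    (HB : ∀ z, H z ≤ B) {K : Set ℂ} (hK : IsCompact K) {δ r : ℝ} (r0 : 0 ≤ r) (r1 : r ≤ δ) :
    IntegrableOn (fun z => ∫ a, κ a * H (z + r • a)) K ∧
      ∫ z in K, ∫ a, κ a * H (z + r • a) ≤ (∫ a, κ a) * ∫ z in cthickening δ K, H z := by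
  have : IsFiniteMeasure (volume.restrict K) := isFiniteMeasure_restrict.2 hK.measure_lt_top.ne
  have i0 : Integrable (fun p : ℂ × ℂ => κ p.2) ((volume.restrict K).prod volume) :=
    hκi.comp_snd _
  have i1 : Integrable (fun p : ℂ × ℂ => κ p.2 * H (p.1 + r • p.2))
      ((volume.restrict K).prod volume) :=
    i0.mul_bdd (c := B) (Continuous.aestronglyMeasurable (by fun_prop))
      (Eventually.of_forall fun p => by rw [Real.norm_of_nonneg (H0 _)]; exact HB _)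
  refine ⟨i1.integral_prod_left, ?_⟩
  rw [integral_integral_swap (f := fun z a => κ a * H (z + r • a)) i1, ← integral_mul_const]
  refine integral_mono i1.integral_prod_right (hκi.mul_const _) fun a => ?_
  show ∫ z in K, κ a * H (z + r • a) ≤ κ a * _
  rw [integral_const_mul]
  rcases lt_or_ge 1 ‖a‖ with h | h
  · simp [hκ1 a h]
  · refine mul_le_mul_of_nonneg_left (shift_le hH H0 hK ?_) (hκ0 a)
    rw [norm_smul, Real.norm_of_nonneg r0]
    nlinarith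

lemma UU.avg {κ : ℂ → ℝ} (hκ : Measurable κ) (hκi : Integrable κ) (hκ0 : ∀ a, 0 ≤ κ a)
    (hκ1 : ∀ a, 1 < ‖a‖ → κ a = 0) {r : J → ℝ} (hr0 : ∀ j, 0 ≤ r j) (hr : Tendsto r l (𝓝 0))
    {g u : J → ℂ → ℝ} (cg : ∀ j, ContinuousOn (g j) UH) (g0 : ∀ j z, 0 ≤ g j z)
    (hg : UU l fun j z => g j z ^ 2) (cu : ∀ j, ContinuousOn (u j) UH) (u0 : ∀ j z, 0 ≤ u j z)
    (hle : ∀ K : Set ℂ, IsCompact K → K ⊆ UH → ∃ C : ℝ, ∀ᶠ j in l, ∀ z ∈ K,
      u j z ≤ C * ∫ a, κ a * g j (z + r j • a)) :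
    UU l fun j z => u j z ^ 2 := by
  refine ⟨fun j => (cu j).pow 2, fun j z => sq_nonneg _, fun K hK hU η hη => ?_⟩
  obtain ⟨δ, δ0, hδ⟩ := hK.exists_cthickening_subset_open isOpen_UH hU
  have hK1 := hK.cthickening (r := δ)
  obtain ⟨θ, θ1, θ2, θ3, θ4, θ5⟩ := exists_bump hK1 isOpen_UH hδ
  have θ6 : ∀ z ∈ cthickening δ K, θ z = 1 := fun z hz => θ4.self_of_nhdsSet z hz
  obtain ⟨C, hC⟩ := hle K hK hU
  have m0 : 0 ≤ ∫ a, κ a := integral_nonneg hκ0
  obtain ⟨m, hm⟩ : ∃ m, m = (∫ a, κ a) + 1 := ⟨_, rfl⟩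
  have m1 : 0 < m := by linarith
  have m2 : ∫ a, κ a ≤ m := by linarith
  obtain ⟨k, hk⟩ : ∃ k, k = (C * m) ^ 2 + 1 := ⟨_, rfl⟩
  have k0 : 0 < k := by rw [hk]; positivity
  obtain ⟨A, hA, h1⟩ := hg.bd _ hK1 hδ (η / k ^ 2) (by positivity)
  refine ⟨k * A, by positivity, fun Λ hΛ => ?_⟩
  have hΛ1 : 0 < Λ / k := by positivity
  filter_upwards [h1 (Λ / k) hΛ1, hC, hr.eventually (ge_mem_nhds δ0)] with j a b c
  obtain ⟨G, hG⟩ : ∃ G : ℂ → ℝ, G = fun z => θ z * g j z := ⟨_, rfl⟩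
  have G1 : Continuous G := by
    rw [hG]
    exact (θ1.continuous.continuousOn.mul (cg j)).continuous_of_tsupport_subset isOpen_UH
      ((tsupport_mul_subset_left (f := θ) (g := g j)).trans θ3)
  have G2 : HasCompactSupport G := by rw [hG]; exact θ2.mul_right
  have G3 : ∀ z ∈ cthickening δ K, G z = g j z := fun z hz => by simp [hG, θ6 z hz]
  obtain ⟨B, hB⟩ := G1.bounded_above_of_compact_support G2
  obtain ⟨H, hH⟩ : ∃ H : ℂ → ℝ, H = fun z => hub A (Λ / k) (G z ^ 2) := ⟨_, rfl⟩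
  have H1 : Continuous H := by rw [hH]; exact (continuous_hub _ _).comp (G1.pow 2)
  have H0 : ∀ z, 0 ≤ H z := fun z => by rw [hH]; exact hub_nonneg hΛ1.le
  have HB : ∀ z, H z ≤ 2 * (Λ / k) * B ^ 2 := fun z => by
    rw [hH]
    refine (hub_le_lin hΛ1.le hA (sq_nonneg _)).trans ?_
    have : G z ^ 2 ≤ B ^ 2 := by
      rw [← sq_abs]; exact pow_le_pow_left₀ (abs_nonneg _) (hB z) 2
    gcongr
  obtain ⟨s1, s2⟩ := avg_swap hκi hκ0 hκ1 H1 H0 HB hK (hr0 j) c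
  have s3 : ∫ z in cthickening δ K, H z ≤ η / k ^ 2 := by
    refine le_trans (le_of_eq (setIntegral_congr_fun hK1.measurableSet fun z hz => ?_)) a
    simp only [hH, G3 z hz]
  have s4 : 0 ≤ ∫ z in cthickening δ K, H z := integral_nonneg H0
  have pt : ∀ z ∈ K, hub (k * A) Λ (u j z ^ 2) ≤
      k ^ 2 * m⁻¹ * ∫ a, κ a * H (z + r j • a) := fun z hz => by
    have e1 : ∫ a, κ a * g j (z + r j • a) = ∫ a, κ a * G (z + r j • a) := by
      refine integral_congr_ae (Eventually.of_forall fun a => ?_)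
      rcases lt_or_ge 1 ‖a‖ with h | h
      · simp [hκ1 a h]
      · have : z + r j • a ∈ cthickening δ K := by
          refine mem_cthickening_of_dist_le _ z δ K hz ?_
          rw [dist_eq_norm, add_sub_cancel_left, norm_smul, Real.norm_of_nonneg (hr0 j)]
          nlinarith [hr0 j]
        simp only [G3 _ this]
    have i1 : Integrable fun a => κ a * G (z + r j • a) :=
      hκi.mul_bdd (c := B) (Continuous.aestronglyMeasurable (by fun_prop))
        (Eventually.of_forall fun a => hB _)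
    have i2 : Integrable fun a => κ a * H (z + r j • a) :=
      hκi.mul_bdd (c := 2 * (Λ / k) * B ^ 2) (Continuous.aestronglyMeasurable (by fun_prop))
        (Eventually.of_forall fun a => by rw [Real.norm_of_nonneg (H0 _)]; exact HB _)
    have e2 := hub_jensen (f := fun a => G (z + r j • a)) (A := A) (Λ := Λ / k) hκi hκ0 i1
      (by simpa only [hH] using i2) m1 m2 hA hΛ1.le
    have e3 := b z hz
    rw [e1] at e3
    obtain ⟨v, hv⟩ : ∃ v, v = ∫ a, κ a * G (z + r j • a) := ⟨_, rfl⟩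
    rw [← hv] at e2 e3
    have e4 : u j z ^ 2 ≤ k * (v / m) ^ 2 := by
      have e5 := pow_le_pow_left₀ (u0 j z) e3 2
      have e6 : (C * v) ^ 2 = (C * m) ^ 2 * (v / m) ^ 2 := by field_simp
      rw [hk]; nlinarith [sq_nonneg (v / m)]
    refine (hub_mono hΛ.le e4).trans ((hub_mul hΛ.le k0).trans ?_)
    rw [mul_assoc]
    refine mul_le_mul_of_nonneg_left ?_ (sq_nonneg k)
    simpa only [hH] using e2
  obtain ⟨W, hW⟩ : ∃ W : ℂ → ℝ, ∀ z, ∫ a, κ a * H (z + r j • a) = W z := ⟨_, fun _ => rfl⟩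
  simp only [hW] at s1 s2 pt
  have i3 : IntegrableOn (fun z => hub (k * A) Λ (u j z ^ 2)) K :=
    intOn_comp (f := fun z => u j z ^ 2) ((cu j).pow 2) hK hU (continuous_hub (k * A) Λ)
  have i4 : IntegrableOn (fun z => k ^ 2 * m⁻¹ * W z) K := Integrable.const_mul s1 (k ^ 2 * m⁻¹)
  have f1 := setIntegral_mono_on i3 i4 hK.measurableSet pt
  rw [integral_const_mul] at f1
  have f2 : ∫ z in K, W z ≤ m * (η / k ^ 2) := s2.trans (mul_le_mul m2 s3 s4 m1.le)
  have f3 : k ^ 2 * m⁻¹ * (m * (η / k ^ 2)) = η := by field_simp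
  have f4 : 0 ≤ k ^ 2 * m⁻¹ := by positivity
  exact f1.trans ((mul_le_mul_of_nonneg_left f2 f4).trans f3.le)

end Pool.Agent.Lib.MP_a52643_an
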