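import Pool.Agent.Lib.MP_a52643_an.Law.TDef

/-!
The asymptotic relation for truncated quartic products.
-/

open Complex MeasureTheory Set Filter Topology Asymptotics Metric Polynomial
open scoped ComplexConjugate ContDiff ENNReal

noncomputable section

namespace Pool.Agent.Lib.MP_a52643_an

lemma kl_scale_TM {M : ℝ} (hM : 0 < M) (w : ℂ) :
    TM M w = (√M : ℝ) * TM 1 (w / (√M : ℝ)) := by
  have h0 : ((√M : ℝ) : ℂ) ≠ 0 := by exact_mod_cast (Real.sqrt_pos.2 hM).ne'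
  have e : normSq (w / (√M : ℝ)) / 1 = normSq w / M := by
    rw [div_one, normSq_div, normSq_ofReal, Real.mul_self_sqrt hM.le]
  simp only [TM, e]
  field_simp

lemma kl_lip_TM : ∃ L : ℝ, 0 ≤ L ∧ ∀ M > 0, ∀ w, ‖fderiv ℝ (TM M) w‖ ≤ L := by
  have hc : HasCompactSupport (TM 1) :=
    HasCompactSupport.intro (isCompact_closedBall 0 1) fun w hw => by
      have h1 : 1 < ‖w‖ := by simpa using hw
      have : bet (normSq w / 1) = 1 := bet_one (by
        rw [div_one, normSq_eq_norm_sq]; nlinarith)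
      rw [TM, this]; simp
  obtain ⟨L, hL⟩ := (contDiff_TM 1).lipschitzWith_of_hasCompactSupport hc one_ne_zero
  refine ⟨L, L.2, fun M hM w => norm_fderiv_le_of_lipschitz ℝ (C := L) ?_⟩
  refine LipschitzWith.of_dist_le_mul fun x y => ?_
  have m0 : 0 < √M := Real.sqrt_pos.2 hM
  have := hL.dist_le_mul (x / (√M : ℝ)) (y / (√M : ℝ))
  rw [dist_eq_norm, dist_eq_norm, ← sub_div, norm_div, Complex.norm_real,
    Real.norm_of_nonneg m0.le, ← mul_div_assoc, le_div_iff₀ m0] at this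
  rw [dist_eq_norm, dist_eq_norm, kl_scale_TM hM x, kl_scale_TM hM y, ← mul_sub, norm_mul,
    Complex.norm_real, Real.norm_of_nonneg m0.le, mul_comm]
  exact this

lemma kl_dz_comp {T φ : ℂ → ℂ} {z : ℂ} (hT : DifferentiableAt ℝ T (φ z))
    (hφ : DifferentiableAt ℝ φ z) :
    ‖dz (fun w => T (φ w)) z‖ ≤ ‖fderiv ℝ T (φ z)‖ * (‖dz φ z‖ + ‖dzb φ z‖) := by
  have e : fderiv ℝ (fun w => T (φ w)) z = _ := fderiv_comp z hT hφ
  set A := fderiv ℝ T (φ z)
  have e1 : fderiv ℝ φ z 1 = dz φ z + dzb φ z := (wp_add_wm _ _).symm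
  have e2 : fderiv ℝ φ z (I • 1) = I * (dz φ z - dzb φ z) := by
    simp only [dz, dzb, wp, wm]
    linear_combination (fderiv ℝ φ z (I • 1)) * I_mul_I
  have e3 : dz (fun w => T (φ w)) z
      = (A (dz φ z + dzb φ z) - I * A (I * (dz φ z - dzb φ z))) / 2 := by
    rw [dz, wp, e, ContinuousLinearMap.comp_apply, ContinuousLinearMap.comp_apply, e1, e2]
  have b1 : ‖A (dz φ z + dzb φ z)‖ ≤ ‖A‖ * (‖dz φ z‖ + ‖dzb φ z‖) :=
    (A.le_opNorm _).trans (mul_le_mul_of_nonneg_left (norm_add_le _ _) (norm_nonneg _))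
  have b2 : ‖I * A (I * (dz φ z - dzb φ z))‖ ≤ ‖A‖ * (‖dz φ z‖ + ‖dzb φ z‖) := by
    rw [norm_mul, norm_I, one_mul]
    refine (A.le_opNorm _).trans (mul_le_mul_of_nonneg_left ?_ (norm_nonneg _))
    rw [norm_mul, norm_I, one_mul]
    exact norm_sub_le _ _
  rw [e3, norm_div, Complex.norm_ofNat]
  have := norm_sub_le (A (dz φ z + dzb φ z)) (I * A (I * (dz φ z - dzb φ z)))
  linarith

lemma kl_dz_prod {ι : Type} [DecidableEq ι] (s : Finset ι) {F : ι → ℂ → ℂ} {z : ℂ}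
    (h : ∀ i ∈ s, DifferentiableAt ℝ (F i) z) :
    dz (fun w => ∏ i ∈ s, F i w) z = ∑ i ∈ s, dz (F i) z * ∏ j ∈ s.erase i, F j z := by
  simp only [dz, wp]
  rw [fderiv_finsetProd h]
  simp only [sum_apply, smul_apply, smul_eq_mul, Finset.mul_sum]
  rw [← Finset.sum_sub_distrib, Finset.sum_div]
  exact Finset.sum_congr rfl fun i _ => by ring

lemma kl_le_of_sq {x y b : ℝ} (hb : 0 ≤ b) (h : x ^ 2 * y ^ 2 ≤ b ^ 2) : x * y ≤ b :=
  le_of_sq_le_sq' (by rw [mul_pow]; exact h)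
where
  le_of_sq_le_sq' (h : (x * y) ^ 2 ≤ b ^ 2) : x * y ≤ b := (abs_le_of_sq_le_sq' h hb).2

/-- the sum of three consecutive squares -/
def klE (Φ : ℤ → V → ℂ) (n : ℤ) (z : ℂ) : ℝ :=
  ‖ph Φ (n - 1) z‖ ^ 2 + ‖ph Φ n z‖ ^ 2 + ‖ph Φ (n + 1) z‖ ^ 2

lemma Ladder.kl_D {lam : ℝ} {Φ : ℤ → V → ℂ} (h : Ladder lam Φ) {L M α A : ℝ} (hL0 : 0 ≤ L)
    (hL : ∀ w, ‖fderiv ℝ (TM M) w‖ ≤ L) (hM : 0 < M) (n : ℤ) {z : ℂ} (hz : z ∈ UH) (hα : 1 ≤ α)
    (h1 : |al lam n - α| ≤ 1) (h2 : |al lam (n - 1) - α| ≤ 1) (hA : |(n : ℝ)| ≤ A) {p : ℂ}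
    (hp : ‖p‖ ^ 2 ≤ M ^ 3) :
    ‖(2 * I * z.im * dz (ph (trL M Φ) n) z - I * α * ph (trL M Φ) (n + 1) z) * p‖
      ≤ (A + 1) * M ^ 2
        + (L * (4 + 2 * A) + 1) * α * (4 * (M * max (klE Φ n z - 1 / 4 * M) 0)) := by
  have A0 : 0 ≤ A := (abs_nonneg _).trans hA
  have hn : ‖(n : ℂ)‖ ≤ A := by simpa using hA
  have s0 := sq_nonneg ‖ph Φ (n - 1) z‖
  have s1 := sq_nonneg ‖ph Φ n z‖
  have s2 := sq_nonneg ‖ph Φ (n + 1) z‖
  have t0 : 0 ≤ max (klE Φ n z - 1 / 4 * M) 0 := le_max_right _ _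
  have d1 := h.dz_ph n hz
  rcases lt_or_ge (klE Φ n z) (M / 2) with he | he
  · have k : ∀ x : ℝ, x ^ 2 ≤ M / 2 → x * ‖p‖ ≤ M ^ 2 := fun x hx =>
      kl_le_of_sq (by positivity) (by
        calc x ^ 2 * ‖p‖ ^ 2 ≤ M * M ^ 3 := mul_le_mul (by linarith) hp (by positivity) hM.le
          _ = (M ^ 2) ^ 2 := by ring)
    unfold klE at he
    have ev : ph (trL M Φ) n =ᶠ[𝓝 z] ph Φ n := by
      have c : ContinuousAt (fun w => ‖ph Φ n w‖ ^ 2) z := (h.diff_ph n hz).continuousAt.norm.pow 2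
      filter_upwards [c.eventually (gt_mem_nhds (show ‖ph Φ n z‖ ^ 2 < M / 2 by linarith))]
        with w hw using TM_eq hM hw.le
    have e1 : dz (ph (trL M Φ) n) z = dz (ph Φ n) z := by rw [dz, dz, ev.fderiv_eq]
    have e2 : ph (trL M Φ) (n + 1) z = ph Φ (n + 1) z :=
      TM_eq hM (show ‖ph Φ (n + 1) z‖ ^ 2 ≤ M / 2 by linarith)
    have e4 : (2 * I * z.im * dz (ph Φ n) z - I * α * ph Φ (n + 1) z) * p
        = I * ((al lam n - α : ℝ) : ℂ) * (ph Φ (n + 1) z * p) - n * (ph Φ n z * p) := by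
      rw [d1]; push_cast; ring
    have b1 : ‖I * ((al lam n - α : ℝ) : ℂ) * (ph Φ (n + 1) z * p)‖ ≤ 1 * M ^ 2 := by
      rw [norm_mul, norm_mul, norm_mul, norm_I, one_mul, Complex.norm_real, Real.norm_eq_abs]
      exact mul_le_mul h1 (k _ (by linarith)) (by positivity) zero_le_one
    have b2 : ‖n * (ph Φ n z * p)‖ ≤ A * M ^ 2 := by
      rw [norm_mul, norm_mul]
      exact mul_le_mul hn (k _ (by linarith)) (by positivity) A0
    rw [e1, e2, e4]
    have := norm_sub_le (I * ((al lam n - α : ℝ) : ℂ) * (ph Φ (n + 1) z * p)) (n * (ph Φ n z * p))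
    have : 0 ≤ (L * (4 + 2 * A) + 1) * α * (4 * (M * max (klE Φ n z - 1 / 4 * M) 0)) := by
      positivity
    linarith
  · set t := 4 * (M * max (klE Φ n z - 1 / 4 * M) 0) with ht
    have k : ∀ x : ℝ, x ^ 2 ≤ klE Φ n z → x * ‖p‖ ≤ t := fun x hx => by
      have e0 : 0 ≤ klE Φ n z := by linarith
      have : x * ‖p‖ ≤ 2 * M * klE Φ n z := kl_le_of_sq (by positivity) (by
        calc x ^ 2 * ‖p‖ ^ 2 ≤ klE Φ n z * M ^ 3 := mul_le_mul hx hp (by positivity) e0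
          _ = (klE Φ n z * M ^ 2) * M := by ring
          _ ≤ (klE Φ n z * M ^ 2) * (4 * klE Φ n z) :=
              mul_le_mul_of_nonneg_left (by linarith) (by positivity)
          _ = (2 * M * klE Φ n z) ^ 2 := by ring)
      have h3 : klE Φ n z ≤ 2 * max (klE Φ n z - 1 / 4 * M) 0 := by
        have := le_max_left (klE Φ n z - 1 / 4 * M) 0
        linarith
      nlinarith
    have k0 := k ‖ph Φ (n - 1) z‖ (by unfold klE; linarith)
    have k1 := k ‖ph Φ n z‖ (by unfold klE; linarith)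
    have k2 := k ‖ph Φ (n + 1) z‖ (by unfold klE; linarith)
    have d2 := h.dzb_ph (n - 1) hz
    rw [sub_add_cancel] at d2
    have a1 : ‖((al lam n : ℝ) : ℂ)‖ ≤ 2 * α := by
      rw [Complex.norm_real, Real.norm_eq_abs, abs_le]
      rw [abs_le] at h1
      constructor <;> linarith
    have a2 : ‖((al lam (n - 1) : ℝ) : ℂ)‖ ≤ 2 * α := by
      rw [Complex.norm_real, Real.norm_eq_abs, abs_le]
      rw [abs_le] at h2
      constructor <;> linarith
    have a3 : ‖(n : ℂ)‖ ≤ A * α := hn.trans (le_mul_of_one_le_right A0 hα)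
    have b1 : ‖2 * I * z.im * dz (ph Φ n) z‖
        ≤ 2 * α * ‖ph Φ (n + 1) z‖ + A * α * ‖ph Φ n z‖ := by
      rw [d1]
      refine (norm_sub_le _ _).trans ?_
      simp only [norm_mul, norm_I, one_mul]
      gcongr
    have b2 : ‖2 * I * z.im * dzb (ph Φ n) z‖
        ≤ 2 * α * ‖ph Φ (n - 1) z‖ + A * α * ‖ph Φ n z‖ := by
      rw [d2]
      refine (norm_sub_le _ _).trans ?_
      have : ((n - 1 : ℤ) : ℂ) + 1 = n := by push_cast; ring
      simp only [_root_.norm_neg, norm_mul, norm_I, one_mul, this]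
      gcongr
    have b3 : ‖dz (ph (trL M Φ) n) z‖ ≤ L * (‖dz (ph Φ n) z‖ + ‖dzb (ph Φ n) z‖) :=
      (kl_dz_comp (T := TM M) ((contDiff_TM M).differentiable one_ne_zero _)
        (h.diff_ph n hz)).trans (mul_le_mul_of_nonneg_right (hL _) (by positivity))
    have b4 : ‖2 * I * z.im * dz (ph (trL M Φ) n) z‖
        ≤ L * (‖2 * I * z.im * dz (ph Φ n) z‖ + ‖2 * I * z.im * dzb (ph Φ n) z‖) := by
      rw [norm_mul (2 * I * (z.im : ℂ)), norm_mul (2 * I * (z.im : ℂ)),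
        norm_mul (2 * I * (z.im : ℂ))]
      calc _ ≤ ‖2 * I * (z.im : ℂ)‖ * (L * (‖dz (ph Φ n) z‖ + ‖dzb (ph Φ n) z‖)) :=
            mul_le_mul_of_nonneg_left b3 (norm_nonneg _)
        _ = _ := by ring
    have b5 : ‖I * α * ph (trL M Φ) (n + 1) z‖ ≤ α * ‖ph Φ (n + 1) z‖ := by
      rw [norm_mul, norm_mul, norm_I, one_mul, Complex.norm_real,
        Real.norm_of_nonneg (by linarith)]
      exact mul_le_mul_of_nonneg_left (norm_TM_le _ _) (by linarith)
    have b6 : ‖2 * I * z.im * dz (ph (trL M Φ) n) z - I * α * ph (trL M Φ) (n + 1) z‖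
        ≤ L * (2 * α * ‖ph Φ (n + 1) z‖ + A * α * ‖ph Φ n z‖
          + (2 * α * ‖ph Φ (n - 1) z‖ + A * α * ‖ph Φ n z‖)) + α * ‖ph Φ (n + 1) z‖ :=
      (norm_sub_le _ _).trans (add_le_add
        (b4.trans (mul_le_mul_of_nonneg_left (add_le_add b1 b2) hL0)) b5)
    have α0 : 0 ≤ α := by linarith
    rw [norm_mul]
    calc _ ≤ (L * (2 * α * ‖ph Φ (n + 1) z‖ + A * α * ‖ph Φ n z‖
          + (2 * α * ‖ph Φ (n - 1) z‖ + A * α * ‖ph Φ n z‖)) + α * ‖ph Φ (n + 1) z‖) * ‖p‖ :=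
          mul_le_mul_of_nonneg_right b6 (norm_nonneg _)
      _ = L * (2 * α * (‖ph Φ (n + 1) z‖ * ‖p‖) + A * α * (‖ph Φ n z‖ * ‖p‖)
          + (2 * α * (‖ph Φ (n - 1) z‖ * ‖p‖) + A * α * (‖ph Φ n z‖ * ‖p‖)))
          + α * (‖ph Φ (n + 1) z‖ * ‖p‖) := by ring
      _ ≤ L * (2 * α * t + A * α * t + (2 * α * t + A * α * t)) + α * t := by gcongr
      _ = (L * (4 + 2 * A) + 1) * α * t := by ring
      _ ≤ _ := le_add_of_nonneg_left (by positivity)

lemma kl_psi_update {ι : Type} [Fintype ι] [DecidableEq ι] (Φ : ℤ → V → ℂ) (a : ι → ℤ) (i : ι)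
    (z : ℂ) :
    psi Φ (a + Pi.single i 1) z = ph Φ (a i + 1) z * ∏ j ∈ Finset.univ.erase i, ph Φ (a j) z :=
  mono_update Φ a i 1 (z, 1)

lemma kl_prod_le {ι : Type} {M : ℝ} (hM : 1 ≤ M) (Φ : ℤ → V → ℂ) (a : ι → ℤ) (s : Finset ι)
    {k : ℕ} (hk : s.card ≤ k) (z : ℂ) : ‖∏ j ∈ s, ph (trL M Φ) (a j) z‖ ^ 2 ≤ M ^ k := by
  refine le_trans ?_ (pow_le_pow_right₀ hM hk)
  rw [norm_prod, ← Finset.prod_pow, ← Finset.prod_const]
  exact Finset.prod_le_prod (fun j _ => by positivity) fun j _ =>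
    norm_TM_sq_le (by linarith) _

/-- the weight used in the integration by parts -/
def klW (χ : ℂ → ℝ) (z : ℂ) : ℂ := (cht χ z : ℂ) * (2 * I * z.im)

lemma TF1.cd_klW {χ : ℂ → ℝ} (hχ : TF1 χ) : ContDiff ℝ 1 (klW χ) :=
  hχ.cd_cht.mul (contDiff_const.mul (ofRealCLM.comp imCLM).contDiff)

lemma TF1.hcs_klW {χ : ℂ → ℝ} (hχ : TF1 χ) : HasCompactSupport (klW χ) :=
  (hχ.hcs_cht.comp_left (g := ofReal) (by simp)).mul_right

lemma Ladder.cont_klE {lam : ℝ} {Φ : ℤ → V → ℂ} (h : Ladder lam Φ) (n : ℤ) :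
    ContinuousOn (klE Φ n) UH :=
  (((h.cd_ph _).continuousOn.norm.pow 2).add ((h.cd_ph _).continuousOn.norm.pow 2)).add
    ((h.cd_ph _).continuousOn.norm.pow 2)

lemma Ladder.kl_one {ι : Type} [Fintype ι] [DecidableEq ι] (hι : Fintype.card ι ≤ 4)
    {lam : ℝ} {Φ : ℤ → V → ℂ} (h : Ladder lam Φ) {χ : ℂ → ℝ} (hχ : TF1 χ)
    {C L M α A : ℝ} (hC0 : ∀ z, ‖(cht χ z : ℂ)‖ ≤ C) (hC1 : ∀ z, ‖dz (klW χ) z‖ ≤ C)
    (hL0 : 0 ≤ L) (hL : ∀ w, ‖fderiv ℝ (TM M) w‖ ≤ L) (hM1 : 1 ≤ M) (a : ι → ℤ) (hα : 1 ≤ α)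
    (h1 : ∀ i, |al lam (a i) - α| ≤ 1) (h2 : ∀ i, |al lam (a i - 1) - α| ≤ 1)
    (hA : ∀ i, |(a i : ℝ)| ≤ A) :
    α * ‖∑ i, ∫ z, (χ z : ℂ) * psi (trL M Φ) (a + Pi.single i 1) z ∂hyp‖
      ≤ volume.real (tsupport χ) * (C * (Fintype.card ι * (A + 1) + 1) * M ^ 2)
        + C * (L * (4 + 2 * A) + 1) * α * 4
          * ∑ i, M * ∫ z in tsupport χ, max (klE Φ (a i) z - 1 / 4 * M) 0 := by
  have hM : 0 < M := by linarith
  set K := tsupport χ with hKd
  have hK : IsCompact K := hχ.hcs.isCompact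
  have hU : K ⊆ UH := hχ.sub
  set u := trL M Φ with hu
  have C0 : 0 ≤ C := (norm_nonneg _).trans (hC0 0)
  have eX : ∀ b : ι → ℤ, ∫ z, (χ z : ℂ) * psi u b z ∂hyp
      = ∫ z in K, (cht χ z : ℂ) * psi u b z := fun b => by
    have := integral_hyp_cht hχ.toTF (psi u b)
    simp only [real_smul] at this
    rw [this, setIntegral_eq_integral_of_forall_compl_eq_zero]
    intro z hz
    simp [cht_zero hz]
  have iX : ∀ b : ι → ℤ, IntegrableOn (fun z => (cht χ z : ℂ) * psi u b z) K := fun b =>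
    ((hχ.cd_cht.continuous.continuousOn.mul (h.cd_psi_trL M b).continuousOn).mono
      hU).integrableOn_compact hK
  set G : ℂ → ℂ := fun z => klW χ z * psi u a z with hG
  have sc : tsupport (cht χ) ⊆ K := tsupport_mul_subset_left
  have cG : ContDiff ℝ 1 G := by
    have c1 : ContDiff ℝ 1 (cht χ) := reCLM.contDiff.comp hχ.cd_cht
    have := contDiff_cut c1 (sc.trans hU) (F := fun z => (2 * I * z.im) * psi u a z)
      ((contDiff_const.mul (ofRealCLM.comp imCLM).contDiff).contDiffOn.mul (h.cd_psi_trL M a))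
    simpa only [hG, klW, mul_assoc] using this
  have sG : tsupport G ⊆ K := closure_minimal (fun z hz => by
    by_contra h'
    exact hz (by simp [hG, klW, cht_zero h'])) (isClosed_tsupport _)
  have iG : ∫ z in K, dz G z = 0 := by
    rw [setIntegral_eq_integral_of_forall_compl_eq_zero, integral_dz cG hχ.hcs_klW.mul_right]
    intro z hz
    have : G =ᶠ[𝓝 z] 0 := notMem_tsupport_iff_eventuallyEq.1 fun h' => hz (sG h')
    simp [dz, wp, this.fderiv_eq]
  have iG' : IntegrableOn (dz G) K := (continuous_dz cG).continuousOn.integrableOn_compact hK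
  have iS : Integrable (fun z => ∑ i, (cht χ z : ℂ) * psi u (a + Pi.single i 1) z)
      (volume.restrict K) := integrable_finsetSum _ fun i _ => iX _
  have e1 : I * α * ∑ i, ∫ z, (χ z : ℂ) * psi u (a + Pi.single i 1) z ∂hyp
      = ∫ z in K, (I * α * ∑ i, (cht χ z : ℂ) * psi u (a + Pi.single i 1) z - dz G z) := by
    rw [integral_sub (iS.const_mul _) iG', iG, sub_zero, integral_const_mul,
      integral_finsetSum _ fun i _ => iX _]
    simp only [eX]
  have iT : ∀ i, IntegrableOn (fun z => max (klE Φ (a i) z - 1 / 4 * M) 0) K := fun i =>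
    ((((h.cont_klE _).sub continuousOn_const).sup continuousOn_const).mono
      hU).integrableOn_compact hK
  have iT' : Integrable (fun z => ∑ i, M * max (klE Φ (a i) z - 1 / 4 * M) 0)
      (volume.restrict K) := integrable_finsetSum _ fun i _ => (iT i).const_mul _
  have iC : IntegrableOn (fun _ : ℂ => C * (Fintype.card ι * (A + 1) + 1) * M ^ 2) K :=
    continuousOn_const.integrableOn_compact hK
  have pt : ∀ z ∈ K, ‖I * α * ∑ i, (cht χ z : ℂ) * psi u (a + Pi.single i 1) z - dz G z‖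
      ≤ C * (Fintype.card ι * (A + 1) + 1) * M ^ 2 + C * (L * (4 + 2 * A) + 1) * α * 4
        * ∑ i, M * max (klE Φ (a i) z - 1 / 4 * M) 0 := fun z hz => by
    have du : ∀ n, DifferentiableAt ℝ (ph u n) z := fun n =>
      ((h.cd_trL M n).contDiffAt (isOpen_UH.mem_nhds (hU hz))).differentiableAt one_ne_zero
    have dp : DifferentiableAt ℝ (psi u a) z :=
      ((h.cd_psi_trL M a).contDiffAt (isOpen_UH.mem_nhds (hU hz))).differentiableAt one_ne_zero
    have e2 : dz (psi u a) z = _ := kl_dz_prod Finset.univ (F := fun i => ph u (a i)) fun i _ => du _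
    have e3' : I * α * ∑ i, (cht χ z : ℂ) * psi u (a + Pi.single i 1) z - dz G z
        = -(dz (klW χ) z * psi u a z + (cht χ z : ℂ) * ∑ i,
          (2 * I * z.im * dz (ph u (a i)) z - I * α * ph u (a i + 1) z)
            * ∏ j ∈ Finset.univ.erase i, ph u (a j) z) := by
      rw [hG, dz_mul (hχ.cd_klW.differentiable one_ne_zero z) dp, e2]
      simp only [kl_psi_update, klW, Finset.mul_sum, sub_mul, mul_sub, Finset.sum_sub_distrib]
      have r1 : ∀ i, I * α * ((cht χ z : ℂ) * (ph u (a i + 1) z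
          * ∏ j ∈ Finset.univ.erase i, ph u (a j) z)) = (cht χ z : ℂ) * (I * α * ph u (a i + 1) z
          * ∏ j ∈ Finset.univ.erase i, ph u (a j) z) := fun i => by ring
      have r2 : ∀ i, (cht χ z : ℂ) * (2 * I * z.im) * (dz (ph u (a i)) z
          * ∏ j ∈ Finset.univ.erase i, ph u (a j) z) = (cht χ z : ℂ) * (2 * I * z.im
          * dz (ph u (a i)) z * ∏ j ∈ Finset.univ.erase i, ph u (a j) z) := fun i => by ring
      simp only [r1, r2]
      ring
    have b1 : ‖psi u a z‖ ≤ M ^ 2 := by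
      have := kl_prod_le hM1 Φ a Finset.univ hι z
      rw [show M ^ 4 = (M ^ 2) ^ 2 by ring] at this
      exact (abs_le_of_sq_le_sq' this (by positivity)).2
    have b2 : ∀ i, ‖(2 * I * z.im * dz (ph u (a i)) z - I * α * ph u (a i + 1) z)
        * ∏ j ∈ Finset.univ.erase i, ph u (a j) z‖ ≤ _ := fun i =>
      h.kl_D hL0 hL hM (a i) (hU hz) hα (h1 i) (h2 i) (hA i)
        (kl_prod_le hM1 Φ a (Finset.univ.erase i) (by
          rw [Finset.card_erase_of_mem (Finset.mem_univ i), Finset.card_univ]; omega) z)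
    have b3 := (norm_sum_le _ _).trans (Finset.sum_le_sum (s := Finset.univ) fun i _ => b2 i)
    rw [e3', _root_.norm_neg]
    refine (norm_add_le _ _).trans ?_
    rw [norm_mul, norm_mul]
    refine (add_le_add (mul_le_mul (hC1 z) b1 (norm_nonneg _) C0)
      (mul_le_mul (hC0 z) b3 (norm_nonneg _) C0)).trans (le_of_eq ?_)
    rw [Finset.sum_add_distrib, Finset.sum_const, Finset.card_univ, nsmul_eq_mul,
      ← Finset.mul_sum, ← Finset.mul_sum]
    ring
  have b := norm_integral_le_of_norm_le (iC.add (iT'.const_mul _))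
    ((ae_restrict_iff' hK.measurableSet).2 (Eventually.of_forall pt))
  rw [← e1, norm_mul, norm_mul, norm_I, one_mul, Complex.norm_real,
    Real.norm_of_nonneg (by linarith)] at b
  refine b.trans (le_of_eq ?_)
  simp only [Pi.add_apply]
  rw [integral_add iC (iT'.const_mul _), setIntegral_const, integral_const_mul,
    integral_finsetSum _ fun i _ => (iT i).const_mul _]
  simp only [integral_const_mul, smul_eq_mul]

variable {J : Type} {U : Ultrafilter J} {lam : J → ℝ} {Φ : J → ℤ → V → ℂ} {χ : ℂ → ℝ}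

theorem UF.vanish_gen {ι : Type} [Fintype ι] [DecidableEq ι] (hι : Fintype.card ι ≤ 4)
    (h : UF U lam Φ) (hχ : TF1 χ) (a : ι → ℤ) :
    Tendsto (fun p => ∑ i, ∫ z, (χ z : ℂ) * psi (trF Φ p) (a + Pi.single i 1) z ∂hyp)
      (UW U) (𝓝 0) := by
  obtain ⟨L, hL0, hL⟩ := kl_lip_TM
  obtain ⟨C0, hC0⟩ := hχ.cd_cht.continuous.bounded_above_of_compact_support
    (hχ.hcs_cht.comp_left (g := ofReal) (by simp))
  obtain ⟨C1, hC1⟩ := (continuous_dz hχ.cd_klW).bounded_above_of_compact_support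
    (hcs_dz hχ.hcs_klW)
  set C := max C0 C1
  set A : ℝ := ∑ i, |(a i : ℝ)|
  have hA : ∀ i, |(a i : ℝ)| ≤ A := fun i =>
    Finset.single_le_sum (f := fun i => |(a i : ℝ)|) (fun i _ => abs_nonneg _) (Finset.mem_univ i)
  have t1 : Tendsto (fun p : ℕ × J => ((p.1 : ℝ) + 1) ^ 2 / al (lam p.2) 0) (UW U) (𝓝 0) := by
    rw [NormedAddGroup.tendsto_nhds_zero]
    intro η hη
    exact eventually_UW (Eventually.of_forall fun N => NormedAddGroup.tendsto_nhds_zero.1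
      ((tendsto_al h.tend 0).const_div_atTop (((N : ℝ) + 1) ^ 2)) η hη)
  have t2 : ∀ n : ℤ, Tendsto (fun p : ℕ × J => ((p.1 : ℝ) + 1) * ∫ z in tsupport χ,
      max (klE (Φ p.2) n z - 1 / 4 * (p.1 + 1)) 0) (UW U) (𝓝 0) := fun n =>
    (((h.uu (n - 1)).add (h.uu n)).add (h.uu (n + 1))).tail_UW hχ.hcs.isCompact hχ.sub
      (by norm_num)
  have t3 := (t1.const_mul (volume.real (tsupport χ) * (C * (Fintype.card ι * (A + 1) + 1)))).add
    ((tendsto_finsetSum Finset.univ fun i _ => t2 (a i)).const_mul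
      (C * (L * (4 + 2 * A) + 1) * 4))
  simp only [mul_zero, Finset.sum_const_zero, add_zero] at t3
  refine squeeze_zero_norm' ?_ t3
  have cl : ∀ n : ℤ, ∀ᶠ j in (U : Filter J), |al (lam j) n - al (lam j) 0| ≤ 1 := fun n =>
    (tendsto_al_sub h.tend n 0).abs.eventually (ge_mem_nhds (by simp))
  filter_upwards [tendsto_snd_UW.eventually ((tendsto_al h.tend 0).eventually_ge_atTop 1),
    tendsto_snd_UW.eventually (eventually_all.2 fun i => cl (a i)),
    tendsto_snd_UW.eventually (eventually_all.2 fun i => cl (a i - 1))] with p hα h1 h2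
  have hM : (0 : ℝ) < p.1 + 1 := by positivity
  have hM1 : (1 : ℝ) ≤ p.1 + 1 := le_add_of_nonneg_left (Nat.cast_nonneg _)
  have b := (h.lad p.2).kl_one hι hχ (C := C) (fun z => (hC0 z).trans (le_max_left _ _))
    (fun z => (hC1 z).trans (le_max_right _ _)) hL0 (hL _ hM) hM1 a hα h1 h2 hA
  have α0 : 0 < al (lam p.2) 0 := by linarith
  refine le_of_mul_le_mul_left (b.trans (le_of_eq ?_)) α0
  field_simp

theorem UF.vanish (h : UF U lam Φ) (hχ : TF1 χ) (a : Fin 4 → ℤ) :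
    Tendsto (fun p => ∑ i, ∫ z, (χ z : ℂ) * psi (trF Φ p) (a + Pi.single i 1) z ∂hyp)
      (UW U) (𝓝 0) :=
  h.vanish_gen (by simp) hχ a

end Pool.Agent.Lib.MP_a52643_an
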