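import Pool.Agent.Lib.MP_a52643_an.Law.Two
import Pool.Agent.Lib.MP_a52643_an.Law.Hub

/-!
Truncated ladder functions.
-/

open Complex MeasureTheory Set Filter Topology Asymptotics Metric Polynomial
open scoped ComplexConjugate ContDiff ENNReal

noncomputable section

namespace Pool.Agent.Lib.MP_a52643_an

/-- radial truncation -/
def TM (M : ℝ) (w : ℂ) : ℂ := ((1 - bet (normSq w / M) : ℝ) : ℂ) * w

lemma bet_mem (t : ℝ) : 0 ≤ bet t ∧ bet t ≤ 1 :=
  ⟨Real.smoothTransition.nonneg _, Real.smoothTransition.le_one _⟩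

lemma contDiff_TM (M : ℝ) : ContDiff ℝ 1 (TM M) :=
  (ofRealCLM.contDiff.comp (contDiff_const.sub
    ((contDiff_bet.of_le (by simp)).comp (contDiff_normSq.div_const M)))).mul contDiff_id

lemma TM_eq {M : ℝ} (hM : 0 < M) {w : ℂ} (h : ‖w‖ ^ 2 ≤ M / 2) : TM M w = w := by
  have : bet (normSq w / M) = 0 := bet_zero (by
    rw [div_le_iff₀ hM, normSq_eq_norm_sq]; linarith)
  simp [TM, this]

lemma norm_TM_le (M : ℝ) (w : ℂ) : ‖TM M w‖ ≤ ‖w‖ := by
  have := bet_mem (normSq w / M)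
  rw [TM, norm_mul, Complex.norm_real, Real.norm_of_nonneg (by linarith)]
  exact mul_le_of_le_one_left (norm_nonneg _) (by linarith)

lemma norm_TM_sq_le {M : ℝ} (hM : 0 < M) (w : ℂ) : ‖TM M w‖ ^ 2 ≤ M := by
  rcases le_total (‖w‖ ^ 2) M with h | h
  · exact (pow_le_pow_left₀ (norm_nonneg _) (norm_TM_le M w) 2).trans h
  · have : bet (normSq w / M) = 1 := bet_one (by
      rw [le_div_iff₀ hM, normSq_eq_norm_sq]; linarith)
    simp [TM, this, hM.le]

lemma conj_TM (M : ℝ) (w : ℂ) : conj (TM M w) = TM M (conj w) := by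
  simp only [TM, map_mul, conj_ofReal, normSq_conj]

lemma TM_mul (M : ℝ) {c : ℂ} (hc : ‖c‖ = 1) (w : ℂ) : TM M (c * w) = c * TM M w := by
  have : normSq c = 1 := by rw [normSq_eq_norm_sq, hc]; simp
  simp only [TM, normSq_mul, this, one_mul]; ring

/-- truncated ladder -/
def trL (M : ℝ) (Φ : ℤ → V → ℂ) (n : ℤ) (v : V) : ℂ := TM M (Φ n v)

lemma ph_trL (M : ℝ) (Φ : ℤ → V → ℂ) (n : ℤ) (z : ℂ) : ph (trL M Φ) n z = TM M (ph Φ n z) := rfl

lemma Ladder.cnj_trL {lam : ℝ} {Φ : ℤ → V → ℂ} (h : Ladder lam Φ) (M : ℝ) (n : ℤ) (v : V) :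
    conj (trL M Φ n v) = (-1) ^ n * trL M Φ (-n) v := by
  rw [trL, conj_TM, h.cnj, TM_mul _ (by simp), trL]

lemma Ladder.cd_trL {lam : ℝ} {Φ : ℤ → V → ℂ} (h : Ladder lam Φ) (M : ℝ) (n : ℤ) :
    ContDiffOn ℝ 1 (ph (trL M Φ) n) UH := (contDiff_TM M).comp_contDiffOn (h.cd_ph n)

lemma Ladder.cd_psi_trL {lam : ℝ} {Φ : ℤ → V → ℂ} (h : Ladder lam Φ) (M : ℝ) {ι : Type}
    [Fintype ι] (a : ι → ℤ) : ContDiffOn ℝ 1 (psi (trL M Φ) a) UH :=
  contDiffOn_prod fun i _ => h.cd_trL M (a i)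

variable {J : Type}

/-- truncated family, indexed by the level and by the original index -/
def trF (Φ : J → ℤ → V → ℂ) (p : ℕ × J) : ℤ → V → ℂ := trL (p.1 + 1) (Φ p.2)

structure UF (l : Filter J) (lam : J → ℝ) (Φ : J → ℤ → V → ℂ) : Prop extends Fam2 l lam Φ where
  uu : ∀ n, UU l fun j z => ‖ph (Φ j) n z‖ ^ 2

variable {U : Ultrafilter J} {lam : J → ℝ} {Φ : J → ℤ → V → ℂ} {e : J → ℂ → ℝ}

lemma tendsto_snd_UW : Tendsto Prod.snd (UW U : Filter (ℕ × J)) U := fun _ hs =>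
  eventually_UW (Eventually.of_forall fun _ => hs)

lemma tendsto_fst_UW : Tendsto Prod.fst (UW U : Filter (ℕ × J)) atTop := fun _ hs =>
  eventually_UW (mem_of_superset hs fun _ h => Eventually.of_forall fun _ => h)

lemma tendsto_level : Tendsto (fun p : ℕ × J => (p.1 : ℝ) + 1) (UW U) atTop :=
  tendsto_atTop_add_const_right _ _ (tendsto_natCast_atTop_atTop.comp tendsto_fst_UW)

lemma UU.tail_UW (h : UU U e) {K : Set ℂ} (hK : IsCompact K) (hU : K ⊆ UH) {c : ℝ} (hc : 0 < c) :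
    Tendsto (fun p : ℕ × J => ((p.1 : ℝ) + 1) * ∫ z in K, max (e p.2 z - c * (p.1 + 1)) 0)
      (UW U) (𝓝 0) := by
  rw [NormedAddGroup.tendsto_nhds_zero]
  intro η hη
  obtain ⟨Λ0, -, h1⟩ := h.tail hK hU (η := c * η / 2) (by positivity)
  apply eventually_UW
  have t : Tendsto (fun N : ℕ => c * ((N : ℝ) + 1)) atTop atTop :=
    (tendsto_atTop_add_const_right _ _ tendsto_natCast_atTop_atTop).const_mul_atTop hc
  filter_upwards [t.eventually_ge_atTop Λ0] with N hN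
  filter_upwards [h1 _ hN] with j hj
  have : 0 ≤ ∫ z in K, max (e j z - c * (N + 1)) 0 := integral_nonneg fun z => le_max_right _ _
  rw [Real.norm_of_nonneg (by positivity)]
  nlinarith

lemma UU.sq_UW (h : UU U e) {K : Set ℂ} (hK : IsCompact K) (hU : K ⊆ UH) :
    ∃ B : ℝ, ∀ c > 0, ∀ᶠ p : ℕ × J in UW U, ∫ z in K, min (e p.2 z) (c * (p.1 + 1)) ^ 2 ≤ B := by
  obtain ⟨B, hB⟩ := h.sq hK hU
  exact ⟨B, fun c hc => eventually_UW (Eventually.of_forall fun N =>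
    hB (c * (N + 1)) (by positivity))⟩

end Pool.Agent.Lib.MP_a52643_an
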