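import Pool.Agent.Lib.MP_a52643_an.Law.Kill
import Pool.Agent.Lib.MP_a52643_an.Law.Abs

/-!
The truncated quartic functional.
-/

open Complex MeasureTheory Set Filter Topology Asymptotics Metric Polynomial
open scoped ComplexConjugate ContDiff ENNReal

noncomputable section

namespace Pool.Agent.Lib.MP_a52643_an

lemma TF.norm_integral_le {τ : ℂ → ℂ} (hτ : TF τ) : ∃ C : ℝ, 0 ≤ C ∧ ∀ F : ℂ → ℂ,
    ContinuousOn F UH → ‖∫ z, τ z * F z ∂hyp‖ ≤ C * ∫ z in tsupport τ, ‖F z‖ := by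
  have hK := hτ.hcs.isCompact
  have c1 : ContinuousOn (fun z : ℂ => (1 / z.im ^ 2) * ‖τ z‖) UH :=
    (continuousOn_const.div (by fun_prop) fun z hz => pow_ne_zero 2 (ne_of_gt hz)).mul
      hτ.cont.norm.continuousOn
  obtain ⟨C, hC⟩ := hK.exists_bound_of_continuousOn (c1.mono hτ.sub)
  refine ⟨max C 0, le_max_right _ _, fun F hF => ?_⟩
  rw [integral_hyp_weight, setIntegral_eq_of_subset_of_forall_sdiff_eq_zero
    isOpen_UH.measurableSet hτ.sub fun z hz => by simp [image_eq_zero_of_notMem_tsupport hz.2],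
    ← integral_const_mul]
  refine norm_integral_le_of_norm_le (((hF.mono hτ.sub).norm.integrableOn_compact hK).const_mul _)
    ((ae_restrict_iff' hK.measurableSet).2 (Eventually.of_forall fun z hz => ?_))
  rw [norm_smul, norm_mul, ← mul_assoc, Real.norm_of_nonneg (by positivity)]
  exact mul_le_mul_of_nonneg_right (((le_abs_self _).trans (hC z hz)).trans (le_max_left _ _))
    (norm_nonneg _)

section generic

variable {ι : Type} [Fintype ι] [DecidableEq ι]

omit [DecidableEq ι] in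
lemma cont_GG_of {Ψ : ℤ → V → ℂ} (h : ∀ a : ι → ℤ, ContinuousOn (psi Ψ a) UH) (P : LA ι) :
    ContinuousOn (GG Ψ P) UH := by
  induction P using AddMonoidAlgebra.induction_linear with
  | zero => exact continuousOn_const.congr fun z _ => GG_zero Ψ z
  | add f g hf hg => exact (hf.add hg).congr fun z _ => GG_add Ψ f g z
  | single a c => exact (continuousOn_const.mul (h a)).congr fun z _ => GG_single Ψ a c z

omit [DecidableEq ι] in
lemma tendsto_QQ_of {I : Type} {L : Ultrafilter I} {Ψ : I → ℤ → V → ℂ}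
    (h : ∀ p (a : ι → ℤ), ContinuousOn (psi (Ψ p) a) UH) {τ : ℂ → ℂ} (hτ : TF τ)
    (hb : ∀ a : ι → ℤ, (fun p => ∫ z, τ z * psi (Ψ p) a z ∂hyp) =O[L] fun _ => (1 : ℝ))
    (P : LA ι) : Tendsto (fun p => ∫ z, τ z * GG (Ψ p) P z ∂hyp) L (𝓝 (QQ L Ψ τ P)) := by
  induction P using AddMonoidAlgebra.induction_linear with
  | zero => simp
  | add f g hf hg =>
    rw [map_add]
    refine (hf.add hg).congr fun j => ?_
    simp only [GG_add, mul_add]
    rw [integral_add (hτ.integrable_mul (cont_GG_of (h j) f))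
      (hτ.integrable_mul (cont_GG_of (h j) g))]
  | single a c =>
    have := (tendsto_ul (hb a)).const_mul (c : ℂ)
    simp only [QQ, lin_single, real_smul, GG_single]
    refine this.congr fun j => ?_
    rw [← integral_const_mul]
    congr 1; ext z; ring

omit [DecidableEq ι] in
lemma prod_neg_one_zpow (a : ι → ℤ) : ∏ i, (-1 : ℂ) ^ a i = (-1) ^ ∑ i, a i := by
  classical
  induction (Finset.univ : Finset ι) using Finset.induction_on with
  | empty => simp
  | insert i s hi ih =>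
    rw [Finset.prod_insert hi, Finset.sum_insert hi, ih, zpow_add₀ (by norm_num)]

omit [DecidableEq ι] in
lemma conj_psi_of {Ψ : ℤ → V → ℂ} (h : ∀ n v, conj (Ψ n v) = (-1) ^ n * Ψ (-n) v) (a : ι → ℤ)
    (z : ℂ) : conj (psi Ψ a z) = (-1) ^ (∑ i, a i) * psi Ψ (-a) z := by
  simp only [psi, ph, map_prod, h, Finset.prod_mul_distrib, Pi.neg_apply, prod_neg_one_zpow]

omit [DecidableEq ι] in
lemma conj_GG_of {Ψ : ℤ → V → ℂ} (h : ∀ n v, conj (Ψ n v) = (-1) ^ n * Ψ (-n) v) (P : LA ι)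
    (z : ℂ) : conj (GG Ψ P z) = GG Ψ (invol P) z := by
  induction P using AddMonoidAlgebra.induction_linear with
  | zero => simp
  | add f g hf hg => simp [hf, hg]
  | single a c =>
    simp only [invol_single, GG_single, map_mul, conj_ofReal, conj_psi_of h]
    push_cast; ring

lemma GR_eq_of {Ψ : ℤ → V → ℂ} (h : ∀ n v, conj (Ψ n v) = (-1) ^ n * Ψ (-n) v) (p : ℝ[X])
    (z : ℂ) : GG (ι := Fin 2) Ψ (aeval (cc 0 1) p) z = GR Ψ p z := by
  refine (conj_eq_iff_re.1 ?_).symm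
  rw [conj_GG_of h, ← Polynomial.aeval_algHom_apply, invol_cc]

end generic

variable {J : Type} {U : Ultrafilter J} {lam : J → ℝ} {Φ : J → ℤ → V → ℂ} {μ : Measure V}
  {χ : ℂ → ℝ}

lemma level_pos (p : ℕ × J) : (0 : ℝ) < p.1 + 1 := by positivity

lemma UF.cont_tr (h : UF U lam Φ) {ι : Type} [Fintype ι] (p : ℕ × J) (a : ι → ℤ) :
    ContinuousOn (psi (trF Φ p) a) UH := ((h.lad p.2).cd_psi_trL _ a).continuousOn

lemma norm_TM_four {M : ℝ} (hM : 0 < M) (w : ℂ) : ‖TM M w‖ ^ 4 ≤ min (‖w‖ ^ 2) M ^ 2 := by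
  rw [show 4 = 2 * 2 from rfl, pow_mul]
  exact pow_le_pow_left₀ (by positivity) (le_min
    (pow_le_pow_left₀ (norm_nonneg _) (norm_TM_le M w) 2) (norm_TM_sq_le hM w)) 2

lemma UF.isBigO_tr (h : UF U lam Φ) {ι : Type} [Fintype ι] (hι : Fintype.card ι ≤ 4)
    {τ : ℂ → ℂ} (hτ : TF τ) (a : ι → ℤ) :
    (fun p => ∫ z, τ z * psi (trF Φ p) a z ∂hyp) =O[UW U] fun _ => (1 : ℝ) := by
  classical
  have hK := hτ.hcs.isCompact
  obtain ⟨C, C0, hC⟩ := hτ.norm_integral_le
  choose B hB using fun i => (h.uu (a i)).sq_UW hK hτ.sub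
  refine IsBigO.of_bound (C * (volume.real (tsupport τ) + ∑ i, B i)) ?_
  filter_upwards [eventually_all.2 fun i => hB i 1 one_pos] with p hp
  simp only [norm_one, mul_one, one_mul] at hp ⊢
  refine (hC _ (h.cont_tr p a)).trans (mul_le_mul_of_nonneg_left ?_ C0)
  have i1 : ∀ i, IntegrableOn (fun z => min (‖ph (Φ p.2) (a i) z‖ ^ 2) (p.1 + 1) ^ 2)
      (tsupport τ) := fun i =>
    (((((h.uu (a i)).cont p.2).inf continuousOn_const).pow 2).mono hτ.sub).integrableOn_compact hK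
  have i2 : IntegrableOn (fun _ => (1 : ℝ)) (tsupport τ) := integrableOn_const hK.measure_ne_top
  have i3 := integrable_finsetSum Finset.univ fun i _ => i1 i
  calc _ ≤ ∫ z in tsupport τ, (1 + ∑ i, min (‖ph (Φ p.2) (a i) z‖ ^ 2) (p.1 + 1) ^ 2) := by
        refine integral_mono (((h.cont_tr p a).mono hτ.sub).norm.integrableOn_compact hK)
          (i2.add i3) fun z => ?_
        simp only [psi, norm_prod]
        refine (prod_le_one_add_sum hι _ fun i => norm_nonneg _).trans ?_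
        gcongr with i
        exact norm_TM_four (level_pos p) _
    _ = volume.real (tsupport τ) + ∑ i, ∫ z in tsupport τ,
          min (‖ph (Φ p.2) (a i) z‖ ^ 2) (p.1 + 1) ^ 2 := by
        rw [integral_add i2 i3, integral_finsetSum _ fun i _ => i1 i]; simp
    _ ≤ _ := by gcongr with i; exact hp i

lemma UF.tendsto_QQ_tr (h : UF U lam Φ) {ι : Type} [Fintype ι] (hι : Fintype.card ι ≤ 4)
    {τ : ℂ → ℂ} (hτ : TF τ) (P : LA ι) :
    Tendsto (fun p => ∫ z, τ z * GG (trF Φ p) P z ∂hyp) (UW U) (𝓝 (QQ (UW U) (trF Φ) τ P)) :=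
  tendsto_QQ_of h.cont_tr hτ (h.isBigO_tr hι hτ) P

lemma UF.kills_gen (h : UF U lam Φ) {ι : Type} [Fintype ι] [DecidableEq ι]
    (hι : Fintype.card ι ≤ 4) (hχ : TF1 χ) :
    Kills (QQ (ι := ι) (UW U) (trF Φ) fun z => χ z) := by
  have T := fun a : ι → ℤ => tendsto_ul (h.isBigO_tr hι hχ.toTF.ofReal a)
  refine kills_lin (fun a => ?_) fun a => ?_
  · exact tendsto_nhds_unique (tendsto_finsetSum _ fun i _ => T _) (UF.vanish_gen hι h hχ a)
  · refine tendsto_nhds_unique (tendsto_finsetSum _ fun i _ => T _) ?_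
    have := ((continuous_conj.tendsto _).comp (UF.vanish_gen hι h hχ (-a))).const_mul
      ((-1 : ℂ) ^ (∑ i, a i - 1))
    simp only [map_zero, mul_zero] at this
    refine this.congr fun p => ?_
    simp only [Function.comp, map_sum, ← integral_conj, map_mul, conj_ofReal,
      trF, conj_psi_of ((h.lad p.2).cnj_trL _), Finset.mul_sum, ← integral_const_mul]
    refine Finset.sum_congr rfl fun i _ => ?_
    congr 1; ext z
    have e1 : -(-a + Pi.single i 1) = a - Pi.single i 1 := by ring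
    have e2 : ∑ k, (-a + Pi.single i 1 : ι → ℤ) k = -(∑ i, a i - 1) := by
      simp [Finset.sum_add_distrib, Finset.sum_pi_single']; ring
    have e3 : (-1 : ℂ) ^ (∑ i, a i - 1) * (-1) ^ (-(∑ i, a i - 1)) = 1 := by
      rw [← zpow_add₀ (by norm_num)]; simp
    rw [e1, e2]
    linear_combination (χ z * psi (trL (p.1 + 1) (Φ p.2)) (a - Pi.single i 1) z) * e3

lemma UF.kills (h : UF U lam Φ) (hχ : TF1 χ) :
    Kills (QQ (ι := Fin 4) (UW U) (trF Φ) fun z => χ z) := h.kills_gen (by simp) hχ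

lemma TM_mul_sub {M : ℝ} (hM : 0 < M) (x y : ℂ) {e : ℝ} (he : ‖x‖ ^ 2 + ‖y‖ ^ 2 ≤ e) :
    ‖TM M x * TM M y - x * y‖ ≤ 2 * max (e - M / 4) 0 := by
  rcases le_total e (M / 2) with h | h
  · rw [TM_eq hM (by nlinarith [sq_nonneg ‖y‖]), TM_eq hM (by nlinarith [sq_nonneg ‖x‖]), sub_self,
      norm_zero]
    positivity
  · have h1 := norm_sub_le (TM M x * TM M y) (x * y)
    rw [norm_mul, norm_mul] at h1
    have h2 := mul_le_mul (norm_TM_le M x) (norm_TM_le M y) (norm_nonneg _) (norm_nonneg _)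
    have := le_max_left (e - M / 4) 0
    nlinarith [sq_nonneg (‖x‖ - ‖y‖)]

lemma UF.two_diff (h : UF U lam Φ) {τ : ℂ → ℂ} (hτ : TF τ) (P : LA (Fin 2)) :
    Tendsto (fun p => (∫ z, τ z * GG (trF Φ p) P z ∂hyp) - ∫ z, τ z * GG (Φ p.2) P z ∂hyp)
      (UW U) (𝓝 0) := by
  induction P using AddMonoidAlgebra.induction_linear with
  | zero => simp
  | add f g hf hg =>
    have := hf.add hg
    rw [add_zero] at this
    refine this.congr fun p => ?_
    simp only [GG_add, mul_add]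
    rw [integral_add (hτ.integrable_mul (cont_GG_of (h.cont_tr p) f))
      (hτ.integrable_mul (cont_GG_of (h.cont_tr p) g)),
      integral_add (hτ.integrable_mul ((h.lad _).cont_GG f))
      (hτ.integrable_mul ((h.lad _).cont_GG g))]
    ring
  | single a c =>
    have hK := hτ.hcs.isCompact
    obtain ⟨C, C0, hC⟩ := hτ.norm_integral_le
    have hu := (h.uu (a 0)).add (h.uu (a 1))
    have t := ((hu.tail_UW hK hτ.sub (c := 1 / 4) (by norm_num)).const_mul (C * (2 * |c|)))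
    rw [mul_zero] at t
    refine squeeze_zero_norm (fun p => ?_) t
    have c1 := cont_GG_of (h.cont_tr p) (AddMonoidAlgebra.single a c)
    have c2 := (h.lad p.2).cont_GG (AddMonoidAlgebra.single a c)
    rw [← integral_sub (hτ.integrable_mul c1) (hτ.integrable_mul c2)]
    simp only [← mul_sub]
    refine (hC _ (c1.sub c2)).trans ?_
    rw [mul_assoc, ← mul_assoc (2 * |c|), ← integral_const_mul (2 * |c| * _)]
    have i2 : IntegrableOn (fun z => max (‖ph (Φ p.2) (a 0) z‖ ^ 2 + ‖ph (Φ p.2) (a 1) z‖ ^ 2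
        - 1 / 4 * (p.1 + 1)) 0) (tsupport τ) := ((((hu.cont p.2).sub continuousOn_const).sup
      continuousOn_const).mono hτ.sub).integrableOn_compact hK
    refine mul_le_mul_of_nonneg_left (integral_mono
      (((c1.sub c2).mono hτ.sub).norm.integrableOn_compact hK) (i2.const_mul _) fun z => ?_) C0
    simp only [Pi.sub_apply, GG_single, ← mul_sub, norm_mul, Complex.norm_real, Real.norm_eq_abs,
      psi, Fin.prod_univ_two, trF, ph_trL]
    have h1 := TM_mul_sub (level_pos p) (ph (Φ p.2) (a 0) z) (ph (Φ p.2) (a 1) z) le_rfl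
    rw [show ((p.1 : ℝ) + 1) / 4 = 1 / 4 * (p.1 + 1) by ring] at h1
    have h2 : (1 : ℝ) ≤ p.1 + 1 := by simp
    have h3 := le_max_right (‖ph (Φ p.2) (a 0) z‖ ^ 2 + ‖ph (Φ p.2) (a 1) z‖ ^ 2
      - 1 / 4 * (p.1 + 1)) 0
    have h4 := abs_nonneg c
    nlinarith [mul_le_mul_of_nonneg_left h1 h4, mul_nonneg h4 (mul_nonneg (sub_nonneg.2 h2) h3)]

lemma UF.tendsto_GR_tr (h : UF U lam Φ) (hμ : IsLim U Φ μ) {τ : ℂ → ℝ} (hτ : TF τ) (q : ℝ[X]) :
    Tendsto (fun p => ∫ z, τ z * GR (trF Φ p) q z ∂hyp) (UW U)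
      (𝓝 (q.eval (-1) * ∫ v, τ (pr v) ∂μ)) := by
  have t1 := (h.toFam2.tendsto_GR hμ hτ q).comp tendsto_snd_UW
  have t2 := (continuous_re.tendsto _).comp (h.two_diff hτ.ofReal (aeval (cc 0 1) q))
  have := t2.add t1
  rw [zero_re, zero_add] at this
  refine this.congr fun p => ?_
  simp only [Function.comp, trF, GR_eq_of ((h.lad p.2).cnj_trL _), (h.lad _).GR_eq, ← ofReal_mul,
    integral_complex_ofReal, sub_re, ofReal_re]
  ring

lemma UF.tendsto_GR_sq_tr (h : UF U lam Φ) (hχ : TF1 χ) (q : ℝ[X]) :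
    Tendsto (fun p => ∫ z, χ z * GR (trF Φ p) q z ^ 2 ∂hyp) (UW U)
      (𝓝 (QQ (ι := Fin 4) (UW U) (trF Φ) (fun z => χ z)
        (aeval (cc 0 1) q * aeval (cc 2 3) q)).re) := by
  have e1 : (aeval (cc 0 1) q : LA (Fin 4)) = rel (![0, 1] : Fin 2 → Fin 4) (aeval (cc 0 1) q) := by
    rw [← aeval_algHom_apply, rel_cc]; rfl
  have e2 : (aeval (cc 2 3) q : LA (Fin 4)) = rel (![2, 3] : Fin 2 → Fin 4) (aeval (cc 0 1) q) := by
    rw [← aeval_algHom_apply, rel_cc]; rfl
  have := (continuous_re.tendsto _).comp (h.tendsto_QQ_tr (ι := Fin 4) (by simp) hχ.toTF.ofReal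
    (aeval (cc 0 1) q * aeval (cc 2 3) q))
  refine this.congr fun p => ?_
  simp only [Function.comp, e1, e2, GG_four, trF, GR_eq_of ((h.lad p.2).cnj_trL _), ← ofReal_mul,
    integral_complex_ofReal, ofReal_re, sq]

lemma UF.pos (h : UF U lam Φ) (hμ : IsLim U Φ μ) (hχ : TF1 χ) (q : ℝ[X]) (ψ : ℂ → ℝ)
    (hψ : Continuous ψ) :
    2 * (q.eval (-1) * ∫ v, χ (pr v) * ψ (pr v) ∂μ) - ∫ z, χ z * ψ z ^ 2 ∂hyp
      ≤ (QQ (ι := Fin 4) (UW U) (trF Φ) (fun z => χ z)
        (aeval (cc 0 1) q * aeval (cc 2 3) q)).re := by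
  have t := ((h.tendsto_GR_tr hμ (hχ.toTF.mul_real hψ) q).const_mul 2).sub_const
    (∫ z, χ z * ψ z ^ 2 ∂hyp)
  refine le_of_tendsto_of_tendsto' t (h.tendsto_GR_sq_tr hχ _) fun p => ?_
  have c : ContinuousOn (GR (trF Φ p) q) UH :=
    continuous_re.comp_continuousOn (cont_GG_of (h.cont_tr p) _)
  have i1 := (hχ.toTF.mul_real hψ).integrable_real c
  have i2 : Integrable (fun z => χ z * ψ z ^ 2) hyp :=
    hχ.toTF.integrable_real (hψ.pow 2).continuousOn
  rw [← integral_const_mul, ← integral_sub (i1.const_mul _) i2]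
  refine integral_mono ((i1.const_mul _).sub i2) (hχ.toTF.integrable_real (c.pow 2)) fun x => ?_
  have := mul_nonneg (hχ.nn x) (sq_nonneg (GR (trF Φ p) q x - ψ x))
  simp only
  nlinarith

end Pool.Agent.Lib.MP_a52643_an
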