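import Pool.Agent.Lib.MP_a52643_an.Law.DC

/-!
The truncated cubic functional vanishes.
-/

open Complex MeasureTheory Set Filter Topology Asymptotics Metric Polynomial
open scoped ComplexConjugate ContDiff ENNReal

noncomputable section

namespace Pool.Agent.Lib.MP_a52643_an

variable {J : Type} {U : Ultrafilter J} {lam : J → ℝ} {Φ : J → ℤ → V → ℂ} {μ : Measure V}
  {χ : ℂ → ℝ}

lemma UF.cont_GR_tr (h : UF U lam Φ) (p : ℕ × J) (q : ℝ[X]) : ContinuousOn (GR (trF Φ p) q) UH :=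
  continuous_re.comp_continuousOn (cont_GG_of (h.cont_tr p) _)

lemma UF.GR_eq_tr (h : UF U lam Φ) {p : ℕ × J} (q : ℝ[X]) (z : ℂ) :
    GG (ι := Fin 2) (trF Φ p) (aeval (cc 0 1) q) z = GR (trF Φ p) q z :=
  GR_eq_of ((h.lad p.2).cnj_trL _) q z

lemma UF.ph_zero_real_tr (h : UF U lam Φ) (p : ℕ × J) (z : ℂ) :
    ph (trF Φ p) 0 z = (ph (trF Φ p) 0 z).re := by
  have := (h.lad p.2).cnj_trL (p.1 + 1) 0 (z, 1)
  simp only [zpow_zero, neg_zero, one_mul] at this
  exact (conj_eq_iff_re.1 this).symm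

lemma UF.small_sq (h : UF U lam Φ) (hμ : IsLim U Φ μ) (hχ : TF1 χ) (n : NC μ (-1 / 2))
    {η : ℝ} (hη : 0 < η) : ∃ p : ℝ[X], p.eval (-1 / 2) = 1 ∧
      ∀ᶠ j in (UW U : Filter (ℕ × J)), ∫ z, χ z * GR (trF Φ j) p z ^ 2 ∂hyp ≤ η := by
  set L := (QQ (ι := Fin 4) (UW U) (trF Φ) (fun z => χ z) (aeval (cc 0 1) ((1 - X ^ 2) * 1 : ℝ[X]))).re
  set t := η / (8 * (|L| + 1))
  have ht : 0 < t := by positivity
  have ht' : t * (|L| + 1) = η / 8 := by simp only [t]; field_simp
  obtain ⟨δ, hδ, s1⟩ := JJ_small hμ hχ n ht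
  obtain ⟨m, hm⟩ := exists_pow_lt_of_lt_one ht
    (show max 0 (1 - 4 / 9 * δ ^ 2) < 1 from max_lt one_pos (by simp; positivity))
  set q : ℝ[X] := (1 - C (4 / 9) * (X + C (1 / 2)) ^ 2) ^ m
  set k : ℝ[X] := C (16 / 9) * (1 - X ^ 2) * q ^ 2
  refine ⟨C (4 / 3) * (1 - X ^ 2) * q, by simp [q]; norm_num, ?_⟩
  have e : C (4 / 3) * (1 - X ^ 2) * q * (C (4 / 3) * (1 - X ^ 2) * q) = (1 - X ^ 2) * k := by
    have : (C (16 / 9) : ℝ[X]) = C (4 / 3) * C (4 / 3) := by rw [← C_mul]; norm_num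
    simp only [k, this]; ring
  refine (h.tendsto_GR_sq_tr hχ _).eventually (ge_mem_nhds ?_)
  rw [(h.kills hχ).swap_pair, e]
  have b : (QQ (ι := Fin 4) (UW U) (trF Φ) (fun z => χ z) (aeval (cc 0 1) ((1 - X ^ 2) * k))).re
      ≤ 2 * t * |L| + 4 * t := by
    have tl := (((h.qf hμ hχ).tendsto_JJ hμ hχ 1).const_mul (16 / 9 * t)).add_const (4 * t)
    refine (le_of_tendsto_of_tendsto ((h.qf hμ hχ).tendsto_JJ hμ hχ k) tl ?_).trans ?_
    · filter_upwards [s1, eventually_UH hχ.toTF] with ε s1 hε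
      obtain ⟨C, hC⟩ := exists_bound_poly ((1 - X ^ 2) * k)
      obtain ⟨C', hC'⟩ := exists_bound_poly ((1 - X ^ 2) * 1)
      have i0 := hμ.integrable_JJ hχ hε.1 hε.2 ((1 - X ^ 2) * 1 : ℝ[X]).continuous.measurable hC'
      have i1 := hμ.integrable_JJ hχ hε.1 hε.2 (measurable_ind (-1 / 2) δ)
        fun c _ => abs_ind_le _ _ c
      have i3 := hμ.integrable_JJ hχ hε.1 hε.2 ((1 - X ^ 2) * k).continuous.measurable hC
      have key : (JJ μ χ ε fun c => ((1 - X ^ 2) * k).eval c)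
          ≤ 16 / 9 * t * (JJ μ χ ε fun c => ((1 - X ^ 2) * 1 : ℝ[X]).eval c)
            + 2 * JJ μ χ ε (ind (-1 / 2) δ) := by
        simp only [JJ]
        rw [← integral_const_mul, ← integral_const_mul,
          ← integral_add (i0.const_mul _) (i1.const_mul _)]
        refine integral_mono i3 ((i0.const_mul _).add (i1.const_mul _)) fun p => ?_
        have h1 := hχ.Th_nonneg ε p
        have h2 := abs_cs_le p.2.1 p.2.2
        set c := cs p.2.1 p.2.2
        have : ((1 - X ^ 2) * k).eval c ≤ 16 / 9 * t * ((1 - X ^ 2) * 1 : ℝ[X]).eval c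
            + 2 * ind (-1 / 2) δ c := by
          simp only [k, q, eval_sub, eval_one, eval_mul, eval_pow, eval_X, eval_C, eval_add, mul_one]
          set r := 1 - 4 / 9 * (c + 1 / 2) ^ 2
          rw [abs_le] at h2
          have a0 : 0 ≤ 1 - c ^ 2 := by nlinarith
          have a1 : 1 - c ^ 2 ≤ 1 := by nlinarith
          have r0 : 0 ≤ r := by simp only [r]; nlinarith
          have r1 : r ≤ 1 := by simp only [r]; nlinarith
          have p0 : 0 ≤ r ^ m := by positivity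
          have p1 : r ^ m ≤ 1 := pow_le_one₀ r0 r1
          have p2 : (r ^ m) ^ 2 ≤ r ^ m := by nlinarith
          have p3 : (1 - c ^ 2) * (r ^ m) ^ 2 ≤ r ^ m := by nlinarith
          by_cases c1 : |c - -1 / 2| ≤ δ
          · have : ind (-1 / 2) δ c = 1 := if_pos c1
            rw [this]
            nlinarith [mul_nonneg ht.le a0]
          · have a4 : r ≤ max 0 (1 - 4 / 9 * δ ^ 2) := by
              refine le_max_of_le_right ?_
              have : δ ^ 2 ≤ (c - -1 / 2) ^ 2 := by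
                rw [← sq_abs (c - _)]; exact pow_le_pow_left₀ hδ.le (not_le.1 c1).le 2
              simp only [r]; nlinarith
            have := pow_le_pow_left₀ r0 a4 m
            have := ind_nonneg (-1 / 2) δ c
            nlinarith
        simp only
        nlinarith
      linarith
    · have := le_abs_self L
      have := abs_nonneg L
      nlinarith
  have := abs_nonneg L
  nlinarith

theorem UF.local_three (h : UF U lam Φ) (hμ : IsLim U Φ μ) (n : NC μ (-1 / 2)) {τ : ℂ → ℝ}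
    (hτ1 : TF1 τ) : QQ (ι := Fin 3) (UW U) (trF Φ) (fun z => τ z) 1 = 0 := by
  have hτ := hτ1.toTF
  obtain ⟨θ, θ1, θ2, θ3, θ4, θ5⟩ := exists_bump hτ.hcs.isCompact isOpen_UH hτ.sub
  obtain ⟨C, hC⟩ := hτ.cont.bounded_above_of_compact_support hτ.hcs
  have C0 : 0 ≤ C := (norm_nonneg _).trans (hC 0)
  have hθ : TF1 θ := ⟨⟨θ1.continuous, θ2, θ3⟩, θ1, fun z => (θ5 z).1⟩
  have hb : ∀ z, |τ z| ≤ C * θ z := fun z => by
    by_cases hz : z ∈ tsupport τ
    · rw [θ4.self_of_nhdsSet z hz, mul_one]; exact hC z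
    · rw [image_eq_zero_of_notMem_tsupport hz, abs_zero]; exact mul_nonneg C0 (θ5 z).1
  have t2 := h.tendsto_GR_tr hμ hθ.toTF 1
  set B := |eval (-1) (1 : ℝ[X]) * ∫ v, θ (pr v) ∂μ| + 1
  have hB : 0 < B := by positivity
  have b2 : ∀ᶠ j in (UW U : Filter (ℕ × J)), ∫ z, θ z * GR (trF Φ j) 1 z ∂hyp ≤ B :=
    t2.eventually (ge_mem_nhds ((le_abs_self _).trans_lt (lt_add_one _)))
  rw [← norm_le_zero_iff]
  refine le_of_forall_pos_le_add fun η hη => ?_
  set s := η / ((C + 1) * B)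
  have hs : 0 < s := by positivity
  obtain ⟨p, hp, hp'⟩ := h.small_sq hμ hθ n (η := s ^ 2 * B) (by positivity)
  rw [← (h.kills_gen (by simp) hτ1).three hp]
  have e1 : (aeval (cc 0 1) p : LA (Fin 3)) = rel (![0, 1] : Fin 2 → Fin 3) (aeval (cc 0 1) p) := by
    rw [← aeval_algHom_apply, rel_cc]; rfl
  refine le_of_tendsto (h.tendsto_QQ_tr (ι := Fin 3) (by simp) hτ.ofReal _).norm ?_
  filter_upwards [b2, hp'] with j b2 hp'
  have c1 := h.cont_GR_tr j p
  have c2 := h.cont_GR_tr j 1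
  have i1 : Integrable (fun z => θ z * GR (trF Φ j) p z ^ 2) hyp := hθ.toTF.integrable_real (c1.pow 2)
  have i2 := hθ.toTF.integrable_real c2
  have e2 : ∀ z, GR (trF Φ j) 1 z = ‖ph (trF Φ j) 0 z‖ ^ 2 := fun z => by
    rw [GR, map_one, GG_one, h.ph_zero_real_tr j z]
    simp [← ofReal_pow]
  calc _ ≤ ∫ z, C / 2 * (s⁻¹ * (θ z * GR (trF Φ j) p z ^ 2) + s * (θ z * GR (trF Φ j) 1 z)) ∂hyp := by
        refine norm_integral_le_of_norm_le (((i1.const_mul _).add (i2.const_mul _)).const_mul _)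
          (Eventually.of_forall fun z => ?_)
        rw [e1, GG_three, h.GR_eq_tr, e2, norm_mul, norm_mul, Complex.norm_real,
          Complex.norm_real, Real.norm_eq_abs, Real.norm_eq_abs, ← sq_abs (GR _ _ _)]
        set x := |GR (trF Φ j) p z|
        set y := ‖ph (trF Φ j) 0 z‖
        have x0 : 0 ≤ x := abs_nonneg _
        have y0 : 0 ≤ y := norm_nonneg _
        have a1 : x * y ≤ (s⁻¹ * x ^ 2 + s * y ^ 2) / 2 := by
          have : s⁻¹ * x ^ 2 + s * y ^ 2 - 2 * (x * y) = s⁻¹ * (x - s * y) ^ 2 := by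
            field_simp; ring
          have : 0 ≤ s⁻¹ * (x - s * y) ^ 2 := by positivity
          linarith
        calc _ ≤ C * θ z * ((s⁻¹ * x ^ 2 + s * y ^ 2) / 2) :=
              mul_le_mul (hb z) a1 (by positivity) (mul_nonneg C0 (θ5 z).1)
          _ = _ := by ring
    _ = C / 2 * (s⁻¹ * ∫ z, θ z * GR (trF Φ j) p z ^ 2 ∂hyp + s * ∫ z, θ z * GR (trF Φ j) 1 z ∂hyp) := by
        rw [integral_const_mul, integral_add (i1.const_mul _) (i2.const_mul _), integral_const_mul,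
          integral_const_mul]
    _ ≤ C / 2 * (s⁻¹ * (s ^ 2 * B) + s * B) := by gcongr
    _ = η * (C / (C + 1)) := by simp only [s]; field_simp; ring
    _ ≤ 0 + η := by
        rw [zero_add]
        exact mul_le_of_le_one_right hη.le (by rw [div_le_one (by positivity)]; linarith)

end Pool.Agent.Lib.MP_a52643_an
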