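import Pool.Agent.Lib.MP_a52643_an.Glob

/-!
The microlocal limit measure for families with local square bounds only.
-/

open Complex MeasureTheory Set Filter Topology Asymptotics Metric Polynomial
open scoped ComplexConjugate ContDiff ENNReal CompactlySupported

noncomputable section

namespace Pool.Agent.Lib.MP_a52643_an

structure Fam2 {J : Type} (l : Filter J) (lam : J → ℝ) (Φ : J → ℤ → V → ℂ) : Prop where
  lad : ∀ j, Ladder (lam j) (Φ j)
  tend : Tendsto lam l atTop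
  two : ∀ n, LB l fun j v => ‖Φ j n v‖ ^ 2

lemma prod_le_one_add_sum2 {ι : Type} [Fintype ι] (hι : Fintype.card ι ≤ 2) (x : ι → ℝ)
    (hx : ∀ i, 0 ≤ x i) : ∏ i, x i ≤ 1 + ∑ i, x i ^ 2 := by
  classical
  set S := ∑ i, x i ^ 2 with hS
  have hs0 : 0 ≤ S := Finset.sum_nonneg fun i _ => by positivity
  have h1 : ∀ i, x i ^ 2 ≤ 1 + S := fun i => by
    have := Finset.single_le_sum (f := fun i => x i ^ 2) (fun i _ => by positivity)
      (Finset.mem_univ i)
    linarith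
  have h2 : (∏ i, x i) ^ 2 ≤ (1 + S) ^ 2 := by
    rw [← Finset.prod_pow]
    calc ∏ i, x i ^ 2 ≤ ∏ _i : ι, (1 + S) :=
          Finset.prod_le_prod (fun i _ => by positivity) fun i _ => h1 i
      _ = (1 + S) ^ Fintype.card ι := by simp
      _ ≤ _ := pow_le_pow_right₀ (by linarith) hι
  exact (pow_le_pow_iff_left₀ (Finset.prod_nonneg fun i _ => hx i) (by linarith) two_ne_zero).1 h2

lemma step_two {lam : ℝ} {Φ : ℤ → V → ℂ} {ζ : V → ℝ} {R Z : ℝ} (h : Ladder lam Φ)
    (hc : Cut ζ R Z) (n : ℤ) :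
    al lam n * ∫ v, ζ v ^ 2 * ‖Φ (n + 1) v‖ ^ 2 ∂mV ≤
      al lam n * (∫ v in KB R, ‖Φ n v‖ ^ 2 ∂mV) + Z * ((∫ v in KB R, ‖Φ n v‖ ^ 2 ∂mV)
        + ∫ v, ζ v ^ 2 * ‖Φ (n + 1) v‖ ^ 2 ∂mV) := by
  have ib : Integrable (fun v => ζ v ^ 2 * ‖Φ (n + 1) v‖ ^ 2) mV :=
    hc.int_pow 1 ((h.cont _).norm.pow 2)
  have iA := integrable_ind_mul ((h.cont n).norm.pow 2) R
  set G : V → ℂ := fun v => (ζ v * ζ v : ℂ) * (Φ n v * conj (Φ (n + 1) v)) with hG
  have hG1 : ContDiffOn ℝ 1 G Om :=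
    (hc.cdo.mul hc.cdo).mul ((h.smooth n).mul (contDiffOn_conj' (h.smooth _)))
  have hG2 : CS G := (hc.csc.mul_right _).mul_right _
  have key := le_of_ibp3 (H := fun v => Ep G v) (Z - al lam n) (al lam n + Z) 0
    (hG2.Ep.integrable (continuousOn_Ep hG1)) (integral_Ep hG1 hG2) ib iA iA ?_
  · rw [integral_ind_mul] at key
    simp only [Pi.pow_apply] at key
    linarith
  intro v hv
  have hv' := slab_subset_Om hv
  have e := (((hc.hasE hv').mul (hc.hasE hv')).mul ((h.hasE n hv').mul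
    (h.hasE (n + 1) hv').conj)).ep
  set P : ℂ := 2 * ζ v * Ep (fun w => (ζ w : ℂ)) v * (Φ n v * conj (Φ (n + 1) v)) with hP
  have e' : Ep G v = P + I * ((ζ v ^ 2 * (al lam n * ‖Φ (n + 1) v‖ ^ 2
      - al lam n * ‖Φ n v‖ ^ 2) : ℝ) : ℂ) := by
    rw [hG, e, hP]
    have a1 := mul_conj_sq (Φ n v)
    have a2 := mul_conj_sq (Φ (n + 1) v)
    simp only [ofReal_mul, ofReal_sub, ← a1, ← a2, map_mul, conj_I, conj_ofReal,
      add_sub_cancel_right]
    push_cast
    ring
  have hZ : 0 ≤ Z := (norm_nonneg _).trans (hc.em v hv)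
  have p1 := al_nonneg lam n
  have hz0 := hc.nonneg v
  have hz1 := hc.le_one v
  have hPn : ‖P‖ ≤ 2 * ζ v * Z * (‖Φ n v‖ * ‖Φ (n + 1) v‖) := by
    rw [hP]
    simp only [norm_mul, Complex.norm_real, Complex.norm_ofNat, RCLike.norm_conj,
      Real.norm_of_nonneg hz0]
    have := hc.ep v hv
    gcongr
  have h1 := neg_im_le_norm P
  rw [e', add_im, I_mul_im, ofReal_re]
  simp only [Pi.pow_apply]
  set a := ‖Φ n v‖
  set b := ‖Φ (n + 1) v‖
  rcases hc.le_ind hv with h0 | h2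
  · have : 0 ≤ (KB R).indicator (fun _ => (1 : ℝ)) v := indicator_nonneg (by simp) v
    rw [h0] at hPn ⊢
    have : 0 ≤ (al lam n + Z) * ((KB R).indicator (fun _ => (1 : ℝ)) v * a ^ 2) := by positivity
    nlinarith
  · rw [h2]
    have h3 : 2 * ζ v * (a * b) ≤ a ^ 2 + ζ v ^ 2 * b ^ 2 := by nlinarith [sq_nonneg (a - ζ v * b)]
    have h5 : ζ v ^ 2 * a ^ 2 ≤ a ^ 2 := by
      have : ζ v ^ 2 ≤ 1 := by nlinarith
      nlinarith [sq_nonneg a]
    nlinarith [mul_le_mul_of_nonneg_left h3 hZ, mul_le_mul_of_nonneg_left h5 p1]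

section fam

variable {J : Type} {l : Filter J} {lam : J → ℝ} {Φ : J → ℤ → V → ℂ}

lemma LB_two_step (hL : ∀ j, Ladder (lam j) (Φ j)) (hl : Tendsto lam l atTop) (n : ℤ)
    (h : LB l fun j v => ‖Φ j n v‖ ^ 2) : LB l fun j v => ‖Φ j (n + 1) v‖ ^ 2 := by
  refine LB.of_pos (fun j v => by positivity) (fun j => ((hL j).cont _).norm.pow 2) fun R hR => ?_
  obtain ⟨ζ, Z, hc, h1⟩ := exists_cut hR
  obtain ⟨C, hC⟩ := h (R + 1)
  refine ⟨3 * C, ?_⟩
  filter_upwards [hC, (tendsto_al hl n).eventually_ge_atTop (2 * max Z 1)] with j hj t1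
  have m1 := le_max_left Z 1
  have m2 := le_max_right Z 1
  have s0 := step_two (hL j) hc n
  have s1 := hc.setIntegral_le h1 1 (F := fun v => ‖Φ j (n + 1) v‖ ^ 2)
    (((hL j).cont (n + 1)).norm.pow 2) fun v => by positivity
  have hA : 0 ≤ ∫ v in KB (R + 1), ‖Φ j n v‖ ^ 2 ∂mV := integral_nonneg fun v => by positivity
  have hb : 0 ≤ ∫ v, ζ v ^ 2 * ‖Φ j (n + 1) v‖ ^ 2 ∂mV := integral_nonneg fun v => by positivity
  set A := ∫ v in KB (R + 1), ‖Φ j n v‖ ^ 2 ∂mV
  set b := ∫ v, ζ v ^ 2 * ‖Φ j (n + 1) v‖ ^ 2 ∂mV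
  have g : al (lam j) n * b ≤ al (lam j) n * (3 * A) := by
    nlinarith [mul_le_mul_of_nonneg_right (show Z ≤ al (lam j) n / 2 by linarith) (add_nonneg hA hb)]
  have := le_of_mul_le_mul_left g (by linarith)
  have s1' : ∫ v in KB R, ‖Φ j (n + 1) v‖ ^ 2 ∂mV ≤ b := s1
  linarith

theorem LB_two (hL : ∀ j, Ladder (lam j) (Φ j)) (hl : Tendsto lam l atTop)
    (h : LB l fun j v => ‖Φ j 0 v‖ ^ 2) (n : ℤ) : LB l fun j v => ‖Φ j n v‖ ^ 2 := by
  have key : ∀ n : ℕ, LB l fun j v => ‖Φ j n v‖ ^ 2 := by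
    intro n
    induction n with
    | zero => exact h
    | succ n ih => exact_mod_cast LB_two_step hL hl n ih
  rcases Int.eq_nat_or_neg n with ⟨m, rfl | rfl⟩
  · exact key m
  · simpa only [(hL _).norm_neg] using key m

lemma Fam2.lh2 (h : Fam2 l lam Φ) (n : ℤ) : LH l fun j z => ‖ph (Φ j) n z‖ ^ 2 := by
  refine LB.lh ?_ (fun j z => by positivity) fun j => ((h.lad j).cd_ph n).continuousOn.norm.pow 2
  intro R
  obtain ⟨C, hC⟩ := h.two n R
  refine ⟨C, hC.mono fun j hj => le_of_eq_of_le ?_ hj⟩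
  refine setIntegral_congr_fun (measurableSet_KB R) fun v hv => ?_
  simp only [(h.lad j).norm_ph n (KB_subset_Om R hv)]

variable {ι : Type} [Fintype ι] [DecidableEq ι]


omit [DecidableEq ι] in
lemma Fam2.lb_mono (h : Fam2 l lam Φ) (hι : Fintype.card ι ≤ 2) (a : ι → ℤ) :
    LB l fun j v => ‖mono (Φ j) a v‖ := by
  intro R
  choose C hC using fun i => h.two (a i) R
  refine ⟨mV.real (KB R) + ∑ i, C i, ?_⟩
  filter_upwards [eventually_all.2 hC] with j hj
  have i1 : ∀ i, IntegrableOn (fun v => ‖Φ j (a i) v‖ ^ 2) (KB R) mV := fun i =>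
    integrableOn_KB (((h.lad j).cont _).norm.pow 2) R
  have i2 : IntegrableOn (fun _ => (1 : ℝ)) (KB R) mV := integrableOn_KB continuousOn_const R
  have i3 := integrable_finsetSum Finset.univ fun i _ => i1 i
  calc ∫ v in KB R, ‖mono (Φ j) a v‖ ∂mV ≤ ∫ v in KB R, (1 + ∑ i, ‖Φ j (a i) v‖ ^ 2) ∂mV := by
        refine integral_mono (integrableOn_KB ((h.lad j).cd_mono a).continuousOn.norm R)
          (i2.add i3) fun v => ?_
        simp only [mono, norm_prod]
        exact prod_le_one_add_sum2 hι _ fun i => norm_nonneg _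
    _ = mV.real (KB R) + ∑ i, ∫ v in KB R, ‖Φ j (a i) v‖ ^ 2 ∂mV := by
        rw [integral_add i2 i3, integral_finsetSum _ fun i _ => i1 i]; simp
    _ ≤ _ := by gcongr with i; exact hj i

omit [DecidableEq ι] in
lemma Fam2.isBigO_mono (h : Fam2 l lam Φ) (hι : Fintype.card ι ≤ 2) (a : ι → ℤ) {τ : V → ℂ}
    (hc : CS τ) (hτ : ContinuousOn τ Om) :
    (fun j => ∫ v, τ v * mono (Φ j) a v ∂mV) =O[l] fun _ => (1 : ℝ) :=
  (h.lb_mono hι a).isBigO (fun j => ((h.lad j).cd_mono a).continuousOn) hc hτ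

lemma Fam2.vanish_up (h : Fam2 l lam Φ) (hι : Fintype.card ι ≤ 2) (a : ι → ℤ) {τ : V → ℂ}
    (hc : CS τ) (hτ : ContDiffOn ℝ 1 τ Om) :
    Tendsto (fun j => ∑ i, ∫ v, τ v * mono (Φ j) (a + Pi.single i 1) v ∂mV) l (𝓝 0) := by
  refine tendsto_sum_zero h.tend a (fun i => h.isBigO_mono hι _ hc hτ.continuousOn) ?_
  refine ((h.isBigO_mono hι a hc.Ep (continuousOn_Ep hτ)).const_mul_left I).congr_left fun j => ?_
  have e := ibp_Ep hτ hc ((h.lad j).cd_mono a)
  have e2 : ∫ v, τ v * Ep (mono (Φ j) a) v ∂mV = ∑ i, I * (al (lam j) (a i) *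
      ∫ v, τ v * mono (Φ j) (a + Pi.single i 1) v ∂mV) := by
    simp only [← integral_const_mul]
    rw [← integral_finsetSum _ fun i _ => (((hc.mul_right _).integrable
      (hτ.continuousOn.mul ((h.lad j).cd_mono _).continuousOn)).const_mul _).const_mul _]
    refine integral_congr_ae (ae_Om.mono fun v hv => ?_)
    simp only [((h.lad j).hasE_mono a hv).ep, Finset.mul_sum]
    exact Finset.sum_congr rfl fun i _ => by ring
  rw [e2, ← Finset.mul_sum] at e
  linear_combination I * e - (∑ i, (al (lam j) (a i) *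
      ∫ v, τ v * mono (Φ j) (a + Pi.single i 1) v ∂mV)) * I_mul_I

lemma Fam2.vanish_down (h : Fam2 l lam Φ) (hι : Fintype.card ι ≤ 2) (a : ι → ℤ) {τ : V → ℂ}
    (hc : CS τ) (hτ : ContDiffOn ℝ 1 τ Om) :
    Tendsto (fun j => ∑ i, ∫ v, τ v * mono (Φ j) (a - Pi.single i 1) v ∂mV) l (𝓝 0) := by
  refine tendsto_sum_zero h.tend (fun i => a i - 1)
    (fun i => h.isBigO_mono hι _ hc hτ.continuousOn) ?_
  refine ((h.isBigO_mono hι a hc.Em (continuousOn_Em hτ)).const_mul_left I).congr_left fun j => ?_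
  have e := ibp_Em hτ hc ((h.lad j).cd_mono a)
  have e2 : ∫ v, τ v * Em (mono (Φ j) a) v ∂mV = ∑ i, I * (al (lam j) (a i - 1) *
      ∫ v, τ v * mono (Φ j) (a - Pi.single i 1) v ∂mV) := by
    simp only [← integral_const_mul]
    rw [← integral_finsetSum _ fun i _ => (((hc.mul_right _).integrable
      (hτ.continuousOn.mul ((h.lad j).cd_mono _).continuousOn)).const_mul _).const_mul _]
    refine integral_congr_ae (ae_Om.mono fun v hv => ?_)
    simp only [((h.lad j).hasE_mono a hv).em, Finset.mul_sum]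
    exact Finset.sum_congr rfl fun i _ => by ring
  rw [e2, ← Finset.mul_sum] at e
  linear_combination I * e - (∑ i, (al (lam j) (a i - 1) *
      ∫ v, τ v * mono (Φ j) (a - Pi.single i 1) v ∂mV)) * I_mul_I

omit [DecidableEq ι] in
lemma Fam2.isBigO_psi (h : Fam2 l lam Φ) (hι : Fintype.card ι ≤ 2) (a : ι → ℤ) {τ : ℂ → ℂ}
    (hτ : TF τ) : (fun j => ∫ z, τ z * psi (Φ j) a z ∂hyp) =O[l] fun _ => (1 : ℝ) := by
  simp only [integral_psi (h.lad _) hτ]
  exact h.isBigO_mono hι a (hτ.cs.mul_right _) (hτ.contOn.mul (contDiffOn_om_zpow (n := 0) _).continuousOn)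

lemma Fam2.lb_TT (h : Fam2 l lam Φ) (a b : ℤ) : LB l fun j v => ‖TT (Φ j) a b v‖ := by
  simpa [(h.lad _).TT_eq] using h.lb_mono (ι := Fin 2) (by simp) ![a, -b]

lemma Fam2.isBigO_TT (h : Fam2 l lam Φ) (a b : ℤ) {τ : V → ℂ} (hc : CS τ) (hτ : ContinuousOn τ Om) :
    (fun j => ∫ v, τ v * TT (Φ j) a b v ∂mV) =O[l] fun _ => (1 : ℝ) :=
  (h.lb_TT a b).isBigO (fun j => ((h.lad j).cd_TT a b).continuousOn) hc hτ

lemma Fam2.TT_succ (h : Fam2 l lam Φ) {τ : V → ℂ} (hc : CS τ) (hτ : ContDiffOn ℝ 1 τ Om) (a b : ℤ) :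
    Tendsto (fun j => (∫ v, τ v * TT (Φ j) (a + 1) (b + 1) v ∂mV)
      - ∫ v, τ v * TT (Φ j) a b v ∂mV) l (𝓝 0) := by
  have := (h.vanish_up (ι := Fin 2) (by simp) ![a, -(b + 1)] hc hτ).const_mul ((-1) ^ (b + 1))
  rw [mul_zero] at this
  refine this.congr fun j => ?_
  have e1 : (![a, -(b + 1)] + Pi.single 0 1 : Fin 2 → ℤ) = ![a + 1, -(b + 1)] := by
    ext i; fin_cases i <;> simp
  have e2 : (![a, -(b + 1)] + Pi.single 1 1 : Fin 2 → ℤ) = ![a, -b] := by
    ext i; fin_cases i <;> simp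
  simp only [Fin.sum_univ_two, e1, e2, (h.lad j).TT_eq, mul_left_comm (τ _), integral_const_mul]
  rw [zpow_add₀ (by norm_num)]; ring

lemma Fam2.TT_shift (h : Fam2 l lam Φ) {τ : V → ℂ} (hc : CS τ) (hτ : ContDiffOn ℝ 1 τ Om) (a b : ℤ)
    (n : ℤ) : Tendsto (fun j => (∫ v, τ v * TT (Φ j) (a + n) (b + n) v ∂mV)
      - ∫ v, τ v * TT (Φ j) a b v ∂mV) l (𝓝 0) := by
  induction n using Int.induction_on with
  | zero => simpa using tendsto_const_nhds
  | succ n ih =>
    have := (h.TT_succ hc hτ (a + n) (b + n)).add ih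
    simpa [add_assoc] using this
  | pred n ih =>
    have := ih.sub (h.TT_succ hc hτ (a + (-n - 1)) (b + (-n - 1)))
    simpa [add_assoc] using this

/-- uniform square bounds along the ladder -/
lemma Fam2.sq_bound (h : Fam2 l lam Φ) (R : ℝ) :
    ∃ C : ℝ, 0 ≤ C ∧ ∀ a : ℤ, ∀ᶠ j in l, ∫ v in KB R, ‖Φ j a v‖ ^ 2 ∂mV ≤ C := by
  obtain ⟨ζ, Z, hc, h1⟩ := exists_cut (lt_max_of_lt_right one_pos : 0 < max R 1)
  obtain ⟨C, hC⟩ := (h.isBigO_TT 0 0 hc.csc hc.cdo.continuousOn).bound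
  refine ⟨max C 0 + 1, by positivity, fun a => ?_⟩
  have t := (h.TT_shift hc.csc hc.cdo 0 0 a).norm.eventually
    (gt_mem_nhds (by simp : ‖(0 : ℂ)‖ < 1))
  filter_upwards [hC, t] with j h2 h3
  have s1 := hc.setIntegral_le (R' := R) (fun v hv => h1 v (hv.trans (le_max_left _ _))) 0
    (F := fun v => ‖Φ j a v‖ ^ 2) (((h.lad j).cont a).norm.pow 2) fun v => by positivity
  have e : ∫ v, (ζ v : ℂ) * TT (Φ j) a a v ∂mV = ((∫ v, ζ v * ‖Φ j a v‖ ^ 2 ∂mV : ℝ) : ℂ) := by
    rw [← integral_complex_ofReal]; simp only [TT, mul_conj_sq, ofReal_mul]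
  simp only [zero_add] at h3
  have h4 := norm_le_norm_add_norm_sub' (∫ v, (ζ v : ℂ) * TT (Φ j) a a v ∂mV)
    (∫ v, (ζ v : ℂ) * TT (Φ j) 0 0 v ∂mV)
  rw [e, Complex.norm_real] at h4
  rw [e] at h3
  simp only [zero_add, pow_one] at s1
  simp only [norm_one, mul_one] at h2
  have := le_max_left C 0
  have := Real.le_norm_self (∫ v, ζ v * ‖Φ j a v‖ ^ 2 ∂mV)
  have s1' : ∫ v in KB R, ‖Φ j a v‖ ^ 2 ∂mV ≤ ∫ v, ζ v * ‖Φ j a v‖ ^ 2 ∂mV := s1
  linarith

lemma Fam2.SS_bound (h : Fam2 l lam Φ) (R : ℝ) :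
    ∃ C : ℝ, 0 ≤ C ∧ (∀ a : ℤ, ∀ᶠ j in l, ∫ v in KB R, ‖Φ j a v‖ ^ 2 ∂mV ≤ C) ∧
      ∀ N : ℕ, ∀ᶠ j in l, ∫ v in KB R, ‖SS (Φ j) 0 N v‖ ^ 2 ∂mV ≤ N * C := by
  obtain ⟨C, hC0, hC⟩ := h.sq_bound R
  refine ⟨C, hC0, hC, fun N => ?_⟩
  filter_upwards [(Finset.range N).eventually_all.2 fun a _ => hC a] with j hj
  rw [(h.lad j).integral_SS]
  refine (Finset.sum_le_sum hj).trans (by simp)

lemma Fam2.XX_sum (h : Fam2 l lam Φ) {τ : V → ℂ} (hc : CS τ) (hτ : ContDiffOn ℝ 1 τ Om) (N : ℕ) :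
    Tendsto (fun j => (∫ v, Ep τ v * (SS (Φ j) (-1) N v * conj (SS (Φ j) 0 N v)) ∂mV)
      + ∫ v, Em τ v * (SS (Φ j) 0 N v * conj (SS (Φ j) (-1) N v)) ∂mV) l (𝓝 0) := by
  have key : ∀ a b : ℤ, Tendsto (fun j => (∫ v, Ep τ v * TT (Φ j) (a - 1) b v ∂mV)
      + ∫ v, Em τ v * TT (Φ j) a (b - 1) v ∂mV) l (𝓝 0) := by
    intro a b
    simp only [(h.lad _).XX_eq hc hτ]
    have h1 : (fun j => -I * (al (lam j) (a - 1) - al (lam j) (b - 1) : ℝ)) =o[l]
        fun _ => (1 : ℝ) := by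
      rw [isLittleO_one_iff]
      simpa using (tendsto_al_sub h.tend (a - 1) (b - 1)).ofReal.const_mul (-I)
    have := h1.mul_isBigO ((h.isBigO_TT a b hc hτ.continuousOn).add
      (h.isBigO_TT (a - 1) (b - 1) hc hτ.continuousOn))
    simpa only [mul_one, isLittleO_one_iff] using this
  have := tendsto_finsetSum (Finset.range N) fun (a : ℕ) _ =>
    tendsto_finsetSum (Finset.range N) fun (b : ℕ) _ => key a b
  simp only [Finset.sum_const_zero] at this
  refine this.congr fun j => ?_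
  have i1 : ∀ a b, Integrable (fun v => Ep τ v * TT (Φ j) a b v) mV := fun a b =>
    (hc.Ep.mul_right _).integrable ((continuousOn_Ep hτ).mul ((h.lad j).cd_TT a b).continuousOn)
  have i2 : ∀ a b, Integrable (fun v => Em τ v * TT (Φ j) a b v) mV := fun a b =>
    (hc.Em.mul_right _).integrable ((continuousOn_Em hτ).mul ((h.lad j).cd_TT a b).continuousOn)
  simp only [SS_mul_conj, Finset.mul_sum, Finset.sum_add_distrib, add_zero, ← sub_eq_add_neg]
  rw [integral_finsetSum _ fun a _ => integrable_finsetSum _ fun b _ => i1 _ _,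
    integral_finsetSum _ fun a _ => integrable_finsetSum _ fun b _ => i2 _ _]
  congr 1 <;> refine Finset.sum_congr rfl fun a _ => ?_
  · rw [integral_finsetSum _ fun b _ => i1 _ _]
  · rw [integral_finsetSum _ fun b _ => i2 _ _]

/-- approximate invariance under the geodesic flow -/
lemma Fam2.approx_inv (h : Fam2 l lam Φ) {τ : V → ℂ} (hc : CS τ) (hτ : ContDiffOn ℝ 1 τ Om) :
    ∃ C : ℝ, ∀ N : ℕ, 1 ≤ N → ∀ᶠ j in l,
      ‖∫ v, (Ep τ v + Em τ v) * (‖SS (Φ j) 0 N v‖ ^ 2 : ℝ) ∂mV‖ ≤ C * Real.sqrt N := by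
  obtain ⟨R1, C1, hC1, hR1, hb1⟩ := hc.Ep.exists_bound (continuousOn_Ep hτ)
  obtain ⟨R2, C2, hC2, hR2, hb2⟩ := hc.Em.exists_bound (continuousOn_Em hτ)
  obtain ⟨C, hC0, hC, hS⟩ := h.SS_bound (max R1 R2)
  refine ⟨1 + (C1 + C2) * (3 * C), fun N hN => ?_⟩
  have t := (h.XX_sum hc hτ N).norm.eventually (gt_mem_nhds (by simp : ‖(0 : ℂ)‖ < 1))
  filter_upwards [t, hC (N - 1), hC (-1), hS N] with j h1 h2 h3 h4
  have hL := h.lad j
  set D : V → ℂ := fun v => Φ j (N - 1) v - Φ j (-1) v with hD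
  have cD : ContinuousOn D Om := (hL.cont _).sub (hL.cont _)
  have cS := hL.cont_SS 0 N
  have cS' := hL.cont_SS (-1) N
  have cj : ∀ {F : V → ℂ}, ContinuousOn F Om → ContinuousOn (fun v => conj (F v)) Om :=
    fun hF => continuous_conj.comp_continuousOn hF
  have ip : ∀ {F : V → ℂ}, ContinuousOn F Om → Integrable (fun v => Ep τ v * F v) mV :=
    fun hF => (hc.Ep.mul_right _).integrable ((continuousOn_Ep hτ).mul hF)
  have im : ∀ {F : V → ℂ}, ContinuousOn F Om → Integrable (fun v => Em τ v * F v) mV :=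
    fun hF => (hc.Em.mul_right _).integrable ((continuousOn_Em hτ).mul hF)
  have i1 : Integrable (fun v => Ep τ v * (SS (Φ j) (-1) N v * conj (SS (Φ j) 0 N v))) mV :=
    ip (cS'.mul (cj cS))
  have i2 : Integrable (fun v => Em τ v * (SS (Φ j) 0 N v * conj (SS (Φ j) (-1) N v))) mV :=
    im (cS.mul (cj cS'))
  have i3 : Integrable (fun v => Ep τ v * (D v * conj (SS (Φ j) 0 N v))) mV := ip (cD.mul (cj cS))
  have i4 : Integrable (fun v => Em τ v * (SS (Φ j) 0 N v * conj (D v))) mV := im (cS.mul (cj cD))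
  have e : ∫ v, (Ep τ v + Em τ v) * (‖SS (Φ j) 0 N v‖ ^ 2 : ℝ) ∂mV
      = ((∫ v, Ep τ v * (SS (Φ j) (-1) N v * conj (SS (Φ j) 0 N v)) ∂mV)
        + ∫ v, Em τ v * (SS (Φ j) 0 N v * conj (SS (Φ j) (-1) N v)) ∂mV)
        + (∫ v, Ep τ v * (D v * conj (SS (Φ j) 0 N v)) ∂mV)
        + ∫ v, Em τ v * (SS (Φ j) 0 N v * conj (D v)) ∂mV := by
    rw [← integral_add i1 i2, ← integral_add (by exact i1.add i2) i3,
      ← integral_add (by exact (i1.add i2).add i3) i4]
    congr 1; ext v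
    have e1 : SS (Φ j) (-1) N v = SS (Φ j) 0 N v - D v := by rw [SS_sub (Φ j) N v]; simp [hD]
    rw [← mul_conj_sq, e1, map_sub]; ring
  have hsq : 1 ≤ Real.sqrt N := Real.one_le_sqrt.2 (by exact_mod_cast hN)
  have hD2 : ∫ v in KB (max R1 R2), ‖D v‖ ^ 2 ∂mV ≤ 4 * C := by
    have j1 : IntegrableOn (fun v => ‖Φ j (N - 1) v‖ ^ 2) (KB (max R1 R2)) mV :=
      integrableOn_KB ((hL.cont _).norm.pow 2) _
    have j2 : IntegrableOn (fun v => ‖Φ j (-1) v‖ ^ 2) (KB (max R1 R2)) mV :=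
      integrableOn_KB ((hL.cont _).norm.pow 2) _
    calc _ ≤ ∫ v in KB (max R1 R2), 2 * (‖Φ j (N - 1) v‖ ^ 2 + ‖Φ j (-1) v‖ ^ 2) ∂mV := by
          refine integral_mono (integrableOn_KB (cD.norm.pow 2) _) ((j1.add j2).const_mul _)
            fun v => ?_
          have := norm_sub_le (Φ j (N - 1) v) (Φ j (-1) v)
          have h0 := norm_nonneg (Φ j (N - 1) v - Φ j (-1) v)
          simp only [hD]
          nlinarith [sq_nonneg (‖Φ j (N - 1) v‖ - ‖Φ j (-1) v‖)]
      _ ≤ _ := by rw [integral_const_mul, integral_add j1 j2]; linarith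
  have hm := int_norm_mul_le cD cS (max R1 R2) (t := Real.sqrt N) (by linarith)
  have hm2 : ∫ v in KB (max R1 R2), ‖D v‖ * ‖SS (Φ j) 0 N v‖ ∂mV ≤ 3 * C * Real.sqrt N := by
    have a1 : (Real.sqrt N)⁻¹ * ∫ v in KB (max R1 R2), ‖SS (Φ j) 0 N v‖ ^ 2 ∂mV
        ≤ Real.sqrt N * C := by
      rw [inv_mul_le_iff₀ (by linarith), ← mul_assoc, Real.mul_self_sqrt (Nat.cast_nonneg N)]
      exact h4
    nlinarith [mul_le_mul_of_nonneg_left hD2 (by linarith : 0 ≤ Real.sqrt N)]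
  have n1 := norm_integral_mul_le (R := max R1 R2)
    (fun v hv h' => hR1 v hv ((le_max_left _ _).trans_lt h')) hb1 (cD.mul (cj cS))
  have n2 := norm_integral_mul_le (R := max R1 R2)
    (fun v hv h' => hR2 v hv ((le_max_right _ _).trans_lt h')) hb2 (cS.mul (cj cD))
  simp only [Pi.mul_apply, norm_mul, RCLike.norm_conj] at n1 n2
  simp only [mul_comm ‖SS _ _ _ _‖] at n2
  rw [e]
  refine norm_add₃_le.trans ?_
  nlinarith [mul_le_mul_of_nonneg_left hm2 hC1, mul_le_mul_of_nonneg_left hm2 hC2]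

variable {U : Ultrafilter J}

omit [DecidableEq ι] in
theorem Fam2.tendsto_QQ (h : Fam2 U lam Φ) (hι : Fintype.card ι ≤ 2) {τ : ℂ → ℂ} (hτ : TF τ)
    (P : LA ι) : Tendsto (fun j => ∫ z, τ z * GG (Φ j) P z ∂hyp) U (𝓝 (QQ U Φ τ P)) := by
  induction P using AddMonoidAlgebra.induction_linear with
  | zero => simp
  | add f g hf hg =>
    rw [map_add]
    refine (hf.add hg).congr fun j => ?_
    simp only [GG_add, mul_add]
    rw [integral_add (hτ.integrable_mul ((h.lad j).cont_GG f))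
      (hτ.integrable_mul ((h.lad j).cont_GG g))]
  | single a c =>
    have := (tendsto_ul (h.isBigO_psi hι a hτ)).const_mul (c : ℂ)
    simp only [QQ, lin_single, real_smul, GG_single]
    refine this.congr fun j => ?_
    rw [← integral_const_mul]
    congr 1; ext z; ring

lemma Fam2.cont_dens (h : Fam2 U lam Φ) (p : ℕ × J) : ContinuousOn (dens Φ p) Om :=
  (((h.lad p.2).cont_SS 0 p.1).norm.pow 2).div_const _

lemma Fam2.cont_densC (h : Fam2 U lam Φ) (p : ℕ × J) :
    ContinuousOn (fun v => (dens Φ p v : ℂ)) Om :=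
  continuous_ofReal.comp_continuousOn (h.cont_dens p)

lemma Fam2.lb_dens (h : Fam2 U lam Φ) : LB (UW U) fun p v => ‖(dens Φ p v : ℂ)‖ := by
  intro R
  obtain ⟨C, -, -, hC⟩ := h.SS_bound R
  refine ⟨C, eventually_UW ?_⟩
  filter_upwards [eventually_gt_atTop 0] with N hN
  filter_upwards [hC N] with j hj
  simp only [Complex.norm_real, Real.norm_of_nonneg (dens_nonneg _ _)]
  simp only [dens]
  rw [integral_div, div_le_iff₀ (by exact_mod_cast hN)]
  linarith

lemma Fam2.isBigO_dens (h : Fam2 U lam Φ) {F : V → ℝ} (hF : Continuous F)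
    (hc : HasCompactSupport F) :
    (fun p => ∫ v, F v * dens Φ p v ∂mV) =O[UW U] fun _ => (1 : ℝ) := by
  have := h.lb_dens.isBigO h.cont_densC (τ := fun v => (F v : ℂ))
    ((CS.of_hcs hc).comp (g := ofReal) (by simp)) (by fun_prop)
  simp only [← ofReal_mul, integral_complex_ofReal] at this
  exact isBigO_ofReal_left.1 this

lemma Fam2.int_dens (h : Fam2 U lam Φ) {F : V → ℝ} (hF : Continuous F) (hc : HasCompactSupport F)
    (p : ℕ × J) : Integrable (fun v => F v * dens Φ p v) mV :=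
  ((CS.of_hcs hc).mul_right _).integrable (hF.continuousOn.mul (h.cont_dens p))

theorem Fam2.exists_isLim (h : Fam2 U lam Φ) : ∃ μ, IsLim U Φ μ := by
  have T := fun F : C_c(V, ℝ) => tendsto_ul (h.isBigO_dens F.continuous F.hasCompactSupport)
  let L : C_c(V, ℝ) →ₗ[ℝ] ℝ :=
    { toFun := fun F => ul (UW U) fun p => ∫ v, F v * dens Φ p v ∂mV
      map_add' := fun F G => by
        refine tendsto_nhds_unique (T (F + G)) (((T F).add (T G)).congr fun p => ?_)
        rw [← integral_add (h.int_dens F.continuous F.hasCompactSupport p)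
          (h.int_dens G.continuous G.hasCompactSupport p)]
        simp [add_mul]
      map_smul' := fun c F => by
        refine tendsto_nhds_unique (T (c • F)) (((T F).const_mul c).congr fun p => ?_)
        rw [← integral_const_mul]
        simp [mul_assoc] }
  let Λ : C_c(V, ℝ) →ₚ[ℝ] ℝ := PositiveLinearMap.mk₀ L fun F hF =>
    ge_of_tendsto' (T F) fun p => integral_nonneg fun v => mul_nonneg (hF v) (dens_nonneg p v)
  refine ⟨RealRMK.rieszMeasure Λ, inferInstance, fun F hF hc => ?_⟩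
  have := RealRMK.integral_rieszMeasure Λ ⟨⟨F, hF⟩, hc⟩
  have e : ∫ v, F v ∂(RealRMK.rieszMeasure Λ) = _ := this
  rw [e]
  exact T ⟨⟨F, hF⟩, hc⟩

variable {μ : Measure V}

lemma IsLim.tendC2 (h : Fam2 U lam Φ) (hμ : IsLim U Φ μ) {F : V → ℂ} (hF : Continuous F)
    (hc : HasCompactSupport F) :
    Tendsto (fun p => ∫ v, F v * dens Φ p v ∂mV) (UW U) (𝓝 (∫ v, F v ∂μ)) := by
  have := hμ.lf
  have c1 : Continuous fun v => (F v).re := by fun_prop
  have c2 : Continuous fun v => (F v).im := by fun_prop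
  have s1 : HasCompactSupport fun v => (F v).re := hc.comp_left (g := re) (by simp)
  have s2 : HasCompactSupport fun v => (F v).im := hc.comp_left (g := im) (by simp)
  have := (hμ.tend _ c1 s1).ofReal.add ((hμ.tend _ c2 s2).ofReal.mul_const I)
  have e := integral_re_add_im (hF.integrable_of_hasCompactSupport hc (μ := μ))
  simp only [RCLike.re_to_complex, RCLike.im_to_complex, RCLike.I_to_complex] at e
  rw [← e]
  refine this.congr fun p => ?_
  have e2 := integral_re_add_im (((CS.of_hcs hc).mul_right fun v => (dens Φ p v : ℂ)).integrable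
    (hF.continuousOn.mul (h.cont_densC p)))
  simp only [RCLike.re_to_complex, RCLike.im_to_complex, RCLike.I_to_complex, re_mul_ofReal,
    im_mul_ofReal] at e2
  exact e2

lemma IsLim.tendW2 (h : Fam2 U lam Φ) (hμ : IsLim U Φ μ) {F : V → ℂ} (hc : WCS F)
    (hF : ContinuousOn F Om) :
    Tendsto (fun p => ∫ v, F v * dens Φ p v ∂mV) (UW U) (𝓝 (∫ v, F v ∂μ)) := by
  rw [← integral_congr_ae (hμ.ae_th F)]
  refine (hμ.tendC2 h (hc.cut hF).1 (hc.cut hF).2).congr fun p => ?_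
  exact integral_congr_ae (ae_slab.mono fun v hv => by simp [th_one hv.1.le hv.2.le])

/-- Fourier modes of the limit measure, smooth test functions -/
lemma IsLim.mode_smooth2 (h : Fam2 U lam Φ) (hμ : IsLim U Φ μ) {τ : ℂ → ℂ} (hτ : TF τ)
    (hd : ContDiff ℝ 1 τ) (a b : ℤ) :
    Tendsto (fun j => ∫ v, (τ (pr v) * om v ^ (-(a - b))) * TT (Φ j) a b v ∂mV) U
      (𝓝 (∫ v, τ (pr v) * om v ^ (-(a - b)) ∂μ)) := by
  set k := a - b with hk
  set σ : V → ℂ := fun v => τ (pr v) * om v ^ (-k) with hσ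
  have cs : CS σ := hτ.cs.mul_right _
  have cd : ContDiffOn ℝ 1 σ Om := (hd.comp_contDiffOn contDiffOn_pr).mul (contDiffOn_om_zpow _)
  have t0 := tendsto_ul (h.isBigO_TT a b cs cd.continuousOn)
  set t := ul U fun j => ∫ v, σ v * TT (Φ j) a b v ∂mV
  have key : ∀ a' b' : ℤ, Tendsto (fun j => ∫ v, σ v * TT (Φ j) a' b' v ∂mV) U
      (𝓝 (((if a' - b' = k then (1 : ℝ) else 0 : ℝ) : ℂ) * t)) := by
    intro a' b'
    split_ifs with h'
    · have := (h.TT_shift cs cd a b (a' - a)).add t0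
      have e1 : a + (a' - a) = a' := by ring
      have e2 : b + (a' - a) = b' := by omega
      simpa [e1, e2] using this
    · have : ∀ j, ∫ v, σ v * TT (Φ j) a' b' v ∂mV = 0 := fun j =>
        integral_hom_zero (k := -k + (a' - b')) (by omega) ((cs.mul_right _).integrable
          (cd.continuousOn.mul ((h.lad j).cd_TT a' b').continuousOn))
          ((hom_test τ (-k)).mul ((h.lad j).hom_TT a' b'))
      simp [this]
  have t1 : Tendsto (fun p => ∫ v, σ v * dens Φ p v ∂mV) (UW U) (𝓝 t) := by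
    refine tendsto_UW (y := fun N => (((∑ a ∈ Finset.range N, ∑ b ∈ Finset.range N,
      (if (a : ℤ) - b = k then (1 : ℝ) else 0)) / N : ℝ) : ℂ) * t) (fun N => ?_) (by
        simpa using (tendsto_card_shift k).ofReal.mul_const t)
    have := (tendsto_finsetSum (Finset.range N) fun (a : ℕ) _ =>
      tendsto_finsetSum (Finset.range N) fun (b : ℕ) _ => key a b).div_const (N : ℂ)
    have ii : ∀ j a b, Integrable (fun v => σ v * TT (Φ j) a b v) mV := fun j a b =>
      (cs.mul_right _).integrable (cd.continuousOn.mul ((h.lad j).cd_TT a b).continuousOn)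
    convert this using 2 with j
    · simp only [dens, ofReal_div, ← mul_conj_sq, SS_mul_conj, add_zero, ← mul_div_assoc,
        integral_div, Finset.mul_sum, ofReal_natCast]
      rw [integral_finsetSum _ fun a _ => integrable_finsetSum _ fun b _ => ii _ _ _]
      congr 1
      exact Finset.sum_congr rfl fun a _ => integral_finsetSum _ fun b _ => ii _ _ _
    · simp only [← Finset.sum_mul]; push_cast; ring
  rwa [tendsto_nhds_unique t1 (hμ.tendW2 h (hτ.wcs _) cd.continuousOn)] at t0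

/-- Fourier modes of the limit measure -/
theorem IsLim.mode2 (h : Fam2 U lam Φ) (hμ : IsLim U Φ μ) {τ : ℂ → ℂ} (hτ : TF τ) (a b : ℤ) :
    Tendsto (fun j => ∫ z, τ z * psi (Φ j) ![a, b] z ∂hyp) U
      (𝓝 ((-1) ^ b * ∫ v, τ (pr v) * om v ^ (-(a + b)) ∂μ)) := by
  have := hμ.lf
  have e : ∀ {τ : ℂ → ℂ} (_ : TF τ) j, ∫ z, τ z * psi (Φ j) ![a, b] z ∂hyp
      = (-1) ^ b * ∫ v, (τ (pr v) * om v ^ (-(a + b))) * TT (Φ j) a (-b) v ∂mV := by
    intro τ hτ j
    rw [integral_psi (h.lad j) hτ, ← integral_const_mul]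
    congr 1; ext v
    have : (-1 : ℂ) ^ b * (-1) ^ (-b) = 1 := by rw [← zpow_add₀ (by norm_num)]; simp
    simp only [(h.lad j).TT_eq, neg_neg, Fin.sum_univ_two, Matrix.cons_val_zero,
      Matrix.cons_val_one]
    linear_combination (-(τ (pr v) * om v ^ (-(a + b)) * mono (Φ j) ![a, b] v)) * this
  simp only [e hτ]
  refine Tendsto.const_mul _ ?_
  obtain ⟨R, hR⟩ := exists_R_of_compact hτ.hcs.isCompact hτ.sub
  obtain ⟨C, hC⟩ := h.lb_TT a (-b) R
  rw [Metric.tendsto_nhds]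
  intro ε hε
  set M := μ.real (KB R)
  have hM : 0 ≤ M := measureReal_nonneg
  set δ := ε / (3 * (|C| + M + 1)) with hδ
  have hδ0 : 0 < δ := by positivity
  have hδ1 : δ * (|C| + M + 1) = ε / 3 := by rw [hδ]; field_simp
  obtain ⟨g, hg, hgd, hg1, hg2⟩ := hτ.approx hδ0
  have t := hμ.mode_smooth2 h hg hgd a (-b)
  simp only [sub_neg_eq_add] at t
  have hz : ∀ v ∈ cslab, R < ‖v‖ → g (pr v) - τ (pr v) = 0 := by
    intro v hv h'
    have h1 : pr v ∉ tsupport τ := fun h2 => by linarith [hR v hv h2]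
    rw [image_eq_zero_of_notMem_tsupport h1, image_eq_zero_of_notMem_tsupport fun h2 => h1 (hg2 h2)]
    simp
  have hb : ∀ v ∈ Om, ‖(g (pr v) - τ (pr v)) * om v ^ (-(a + b))‖ ≤ δ := by
    intro v hv
    rw [norm_mul, norm_zpow, norm_om (snd_ne_zero hv)]; simpa using hg1 _
  have co := (contDiffOn_om_zpow (n := 0) (-(a + b))).continuousOn
  have n2 : ‖(∫ v, g (pr v) * om v ^ (-(a + b)) ∂μ) - ∫ v, τ (pr v) * om v ^ (-(a + b)) ∂μ‖
      ≤ δ * M := by
    rw [← integral_sub (hμ.integrable (hg.wcs _) (hg.contOn.mul co))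
      (hμ.integrable (hτ.wcs _) (hτ.contOn.mul co)),
      ← setIntegral_eq_integral_of_ae_compl_eq_zero (s := KB R)]
    · refine norm_setIntegral_le_of_norm_le_const (isCompact_KB R).measure_lt_top fun v hv => ?_
      rw [← sub_mul]; exact hb v (KB_subset_Om R hv)
    · filter_upwards [hμ.ae_cslab] with v hv h'
      rw [← sub_mul, hz v hv, zero_mul]
      by_contra h3
      exact h' ⟨by simpa using h3, hv⟩
  filter_upwards [hC, Metric.tendsto_nhds.1 t (ε / 3) (by positivity)] with j h1 h2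
  have cT := ((h.lad j).cd_TT a (-b)).continuousOn
  have n1 := norm_integral_mul_le (τ := fun v => (g (pr v) - τ (pr v)) * om v ^ (-(a + b))) (R := R)
    (fun v hv h' => by rw [hz v (slab_subset_cslab hv) h', zero_mul])
    (fun v hv => hb v (slab_subset_Om hv)) cT
  simp only [sub_mul] at n1
  rw [integral_sub (((hg.cs.mul_right _).mul_right _).integrable ((hg.contOn.mul co).mul cT))
    (((hτ.cs.mul_right _).mul_right _).integrable ((hτ.contOn.mul co).mul cT))] at n1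
  rw [dist_eq_norm] at h2 ⊢
  have n1' := n1.trans (mul_le_mul_of_nonneg_left (h1.trans (le_abs_self C)) hδ0.le)
  rw [norm_sub_rev] at n1'
  have := norm_sub_le_norm_sub_add_norm_sub
    (∫ v, τ (pr v) * om v ^ (-(a + b)) * TT (Φ j) a (-b) v ∂mV)
    (∫ v, g (pr v) * om v ^ (-(a + b)) * TT (Φ j) a (-b) v ∂mV)
    (∫ v, τ (pr v) * om v ^ (-(a + b)) ∂μ)
  have := norm_sub_le_norm_sub_add_norm_sub
    (∫ v, g (pr v) * om v ^ (-(a + b)) * TT (Φ j) a (-b) v ∂mV)
    (∫ v, g (pr v) * om v ^ (-(a + b)) ∂μ)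
    (∫ v, τ (pr v) * om v ^ (-(a + b)) ∂μ)
  nlinarith

theorem IsLim.mp_Lg2 (h : Fam2 U lam Φ) (hμ : IsLim U Φ μ) {a b c d : ℝ} (hd : a * d - b * c = 1)
    (hi : ∀ j n, Inv a b c d (Φ j n)) : MeasurePreserving (Lg a b c d) μ μ := by
  have := hμ.lf
  refine measurePreserving_of_smooth (LgH hd) fun F hF hc => ?_
  refine tendsto_nhds_unique (hμ.tend _ (hF.continuous.comp (LgH hd).continuous)
    (hc.comp_homeomorph (LgH hd))) ((hμ.tend F hF.continuous hc).congr fun p => ?_)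
  have mp := measurePreserving_Lg_mV hd
  rw [← mp.map_eq, integral_map mp.measurable.aemeasurable
    (by rw [mp.map_eq]; exact (h.int_dens hF.continuous hc p).1), mp.map_eq]
  refine integral_congr_ae (Pool.Agent.Lib.MP_a52643_an.ae_Om.mono fun v hv => ?_)
  simp only [dens, SS, hi _ _ v hv]
  rfl

lemma IsLim.infinitesimal2 (h : Fam2 U lam Φ) (hμ : IsLim U Φ μ) {F : V → ℝ} (hF : ContDiff ℝ 1 F)
    (hc : HasCompactSupport F) : ∫ v, fderiv ℝ F v (cj v) ∂μ = 0 := by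
  have c1 : Continuous fun v => fderiv ℝ F v (cj v) :=
    (hF.continuous_fderiv one_ne_zero).clm_apply cj.continuous
  have s1 : HasCompactSupport fun v => fderiv ℝ F v (cj v) := by
    refine (hc.fderiv ℝ).mono fun v hv => ?_
    intro h0; apply hv; simp [h0]
  refine tendsto_nhds_unique (hμ.tend _ c1 s1) ?_
  have hF' : ContDiff ℝ 1 fun v => (F v : ℂ) := ofRealCLM.contDiff.comp hF
  obtain ⟨C, hC⟩ := h.approx_inv ((CS.of_hcs hc).comp (g := ofReal) (by simp)) hF'.contDiffOn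
  rw [NormedAddGroup.tendsto_nhds_zero]
  intro ε hε
  apply eventually_UW
  have t : Tendsto (fun N : ℕ => C / Real.sqrt N) atTop (𝓝 0) :=
    (Real.tendsto_sqrt_atTop.comp tendsto_natCast_atTop_atTop).const_div_atTop C
  filter_upwards [eventually_ge_atTop 1, t.eventually (gt_mem_nhds hε)] with N hN hN'
  filter_upwards [hC N hN] with j hj
  have e : ∀ v, Ep (fun v => (F v : ℂ)) v + Em (fun v => (F v : ℂ)) v
      = ((-fderiv ℝ F v (cj v) : ℝ) : ℂ) := by
    intro v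
    have := (ofRealCLM.hasFDerivAt.comp v (hF.differentiable one_ne_zero v).hasFDerivAt).fderiv
    have e2 : fderiv ℝ (fun v => (F v : ℂ)) v = _ := this
    rw [Ep_add_Em, e2]; simp
  simp only [e, ← ofReal_mul, integral_complex_ofReal, Complex.norm_real, neg_mul, integral_neg,
    norm_neg] at hj
  have hN0 : (0 : ℝ) < N := by exact_mod_cast hN
  have hs : 0 < Real.sqrt N := Real.sqrt_pos.2 hN0
  simp only [dens, ← mul_div_assoc, integral_div, norm_div, Real.norm_natCast]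
  refine lt_of_le_of_lt ?_ hN'
  rw [div_le_div_iff₀ hN0 hs]
  refine (mul_le_mul_of_nonneg_right hj hs.le).trans (le_of_eq ?_)
  rw [mul_assoc, Real.mul_self_sqrt hN0.le]

theorem IsLim.mp_fl2 (h : Fam2 U lam Φ) (hμ : IsLim U Φ μ) (T : ℝ) :
    MeasurePreserving (fl T) μ μ := by
  have := hμ.lf
  refine measurePreserving_of_smooth (flH T) fun F hF hc => ?_
  have hcont : Continuous fun p : ℝ × V => fl p.1 p.2 := by
    simp only [fl_apply]; fun_prop
  set G : ℝ → V → ℝ := fun t v => fderiv ℝ F (fl t v) (cj (fl t v)) with hG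
  have cG : Continuous G.uncurry :=
    ((hF.continuous_fderiv one_ne_zero).comp hcont).clm_apply (cj.continuous.comp hcont)
  have hder : ∀ v t, HasDerivAt (fun t => F (fl t v)) (G t v) t := by
    intro v t
    have h1 : HasDerivAt (fun t => fl t v) (cj (fl t v)) t := by
      simp only [fl_apply, map_add, map_smul, cj_cj]
      have := ((Real.hasDerivAt_cosh t).smul_const v).add ((Real.hasDerivAt_sinh t).smul_const (cj v))
      rwa [add_comm (Real.sinh t • v)] at this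
    exact (hF.differentiable one_ne_zero _).hasFDerivAt.comp_hasDerivAt t h1
  have ftc : ∀ v, F (fl T v) - F v = ∫ t in (0 : ℝ)..T, G t v := fun v => by
    rw [intervalIntegral.integral_eq_sub_of_hasDerivAt (fun t _ => hder v t)
      ((cG.comp (continuous_id.prodMk continuous_const)).intervalIntegrable _ _), fl_zero]
  have zero : ∀ t, ∫ v, G t v ∂μ = 0 := fun t => by
    have := hμ.infinitesimal2 h (hF.comp (fl t).contDiff) (hc.comp_homeomorph (flH t))
    refine Eq.trans (integral_congr_ae (Eventually.of_forall fun v => ?_)) this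
    have e := ((hF.differentiable one_ne_zero _).hasFDerivAt.comp v (fl t).hasFDerivAt).fderiv
    have e2 : cj (fl t v) = fl t (cj v) := by simp only [fl_apply, map_add, map_smul]
    simp only [hG, e, e2, ContinuousLinearMap.comp_apply]
  set K : Set V := (fun p : ℝ × V => fl p.1 p.2) '' (uIcc (-0) (-T) ×ˢ tsupport F)
  have hK : IsCompact K := (isCompact_uIcc.prod hc.isCompact).image hcont
  have hz : ∀ t ∈ uIcc 0 T, ∀ v ∉ K, G t v = 0 := by
    intro t ht v hv
    have : fl t v ∉ tsupport F := fun h' => hv ⟨(-t, fl t v), ⟨by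
      simpa [mem_uIcc, or_comm, and_comm, neg_le_neg_iff] using ht, h'⟩, by
        simp [fl_fl, fl_zero]⟩
    have h0 : fderiv ℝ F (fl t v) = 0 := by
      by_contra h'
      exact this (support_fderiv_subset ℝ h')
    simp [hG, h0]
  have hi : Integrable G.uncurry ((volume.restrict (uIoc 0 T)).prod μ) := by
    have h1 : IntegrableOn G.uncurry (uIcc 0 T ×ˢ K) (volume.prod μ) :=
      cG.continuousOn.integrableOn_compact (isCompact_uIcc.prod hK)
    rw [Measure.restrict_prod_eq_prod_univ]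
    refine (h1.mono_set (prod_mono uIoc_subset_uIcc subset_rfl)).of_forall_sdiff_eq_zero
      (measurableSet_uIoc.prod MeasurableSet.univ) fun p hp => ?_
    exact hz p.1 (uIoc_subset_uIcc hp.1.1) p.2 fun h' => hp.2 ⟨hp.1.1, h'⟩
  have sw := intervalIntegral_integral_swap hi
  simp only [zero, intervalIntegral.integral_zero, ← ftc] at sw
  rw [integral_sub (f := fun v => F (fl T v))
    ((hF.continuous.comp (fl T).continuous).integrable_of_hasCompactSupport
    (hc.comp_homeomorph (flH T))) (hF.continuous.integrable_of_hasCompactSupport hc)] at sw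
  exact (sub_eq_zero.1 sw.symm)

lemma IsLim.QQ_two2 (h : Fam2 U lam Φ) (hμ : IsLim U Φ μ) {τ : ℂ → ℂ} (hτ : TF τ) (p : ℝ[X]) :
    QQ (ι := Fin 2) U Φ τ (aeval (cc 0 1) p) = (p.eval (-1) : ℝ) * ∫ v, τ (pr v) ∂μ := by
  have hu : ∀ v i, ![(ou v)⁻¹, -(ou v)⁻¹] i ≠ 0 := fun v i => by
    fin_cases i <;> simp [ou_ne_zero]
  have ii : ∀ P : LA (Fin 2), Integrable
      (fun v => τ (pr v) * evC ![(ou v)⁻¹, -(ou v)⁻¹] (hu v) P) μ := fun P => by
    obtain ⟨m, C, hC⟩ := ev2_bound P hu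
    exact (hμ.integrable_tf hτ).mul_bdd m.aestronglyMeasurable (Eventually.of_forall hC)
  have key : ∀ P : LA (Fin 2), QQ U Φ τ P
      = ∫ v, τ (pr v) * evC ![(ou v)⁻¹, -(ou v)⁻¹] (hu v) P ∂μ := by
    intro P
    induction P using AddMonoidAlgebra.induction_linear with
    | zero => simp
    | add f g hf hg => simp only [map_add, mul_add, hf, hg]; rw [integral_add (ii f) (ii g)]
    | single a c =>
      have e : a = ![a 0, a 1] := by ext i; fin_cases i <;> rfl
      have t := tendsto_ul (h.isBigO_psi (by simp) a hτ)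
      rw [e] at t
      have t' := tendsto_nhds_unique t (hμ.mode2 h hτ (a 0) (a 1))
      rw [← e] at t'
      simp only [QQ, lin_single, t', evC_single, real_smul, ← integral_const_mul]
      refine integral_congr_ae (hμ.ae_cslab.mono fun v hv => ?_)
      have h0 := om_ne_zero (snd_ne_zero (cslab_subset_Om hv))
      simp only [ou_eq (cslab_subset_Om hv), Fin.prod_univ_two, Matrix.cons_val]
      rw [neg_eq_neg_one_mul (om v)⁻¹, mul_zpow, neg_add, zpow_add₀ h0, zpow_neg, zpow_neg,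
        inv_zpow, inv_zpow]
      ring
  rw [key, ← integral_const_mul]
  congr 1; ext v
  rw [evC_cc_two, mul_comm]

lemma Fam2.tendsto_GR (h : Fam2 U lam Φ) (hμ : IsLim U Φ μ) {τ : ℂ → ℝ} (hτ : TF τ) (p : ℝ[X]) :
    Tendsto (fun j => ∫ z, τ z * GR (Φ j) p z ∂hyp) U (𝓝 (p.eval (-1) * ∫ v, τ (pr v) ∂μ)) := by
  have := (continuous_re.tendsto _).comp
    (h.tendsto_QQ (ι := Fin 2) (by simp) hτ.ofReal (aeval (cc 0 1) p))
  rw [hμ.QQ_two2 h hτ.ofReal, integral_complex_ofReal, ← ofReal_mul, ofReal_re] at this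
  refine this.congr fun j => ?_
  simp only [Function.comp, (h.lad j).GR_eq, ← ofReal_mul, integral_complex_ofReal, ofReal_re]

end fam

section adm

open UpperHalfPlane
open scoped MatrixGroups Pointwise NNReal

variable {J : Type} {U : Ultrafilter J} {lam : J → ℝ} {Φ : J → ℤ → V → ℂ} {μ : Measure V}
variable {Γ : Type*} [Group Γ] [MulAction Γ ℍ] [Countable Γ] {l : Γ → SL2} {D : Set ℍ}

theorem exists_adm2 (h : Fam2 U lam Φ) (hμ : IsLim U Φ μ) (hD : FD l D)
    (hi : ∀ γ j n, Inv (ea (l γ)) (eb (l γ)) (ec (l γ)) (ed (l γ)) (Φ j n))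
    (h1 : ∀ χ, TF1 χ → ∃ C, WB μ χ C) {C : ℝ} (h2 : ∀ χ, FC Γ χ → WB μ χ C) :
    ∃ f, Adm l D (μ.map nG) f := by
  have := hμ.lf_muH
  have left : ∀ γ, MeasurePreserving (fun g => l γ * g) (μ.map nG) (μ.map nG) := fun γ =>
    mp_map measurable_nG (hμ.mp_Lg2 h (det_eq _) (hi γ)) (measurable_const_mul _)
      (hμ.ae_Om.mono fun v hv => (nG_Lg _ hv).symm)
  have mH : ∀ γ : Γ, MeasurePreserving (fun z : ℍ => γ • z) (muH μ) (muH μ) := fun γ =>
    mp_map measurable_bp (left γ) (hD.mp γ).measurable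
      (Eventually.of_forall fun g => by rw [bp_mul, hD.act])
  have ai : ∀ γ : Γ, ∀ᵐ z : ℍ, (muH μ).rnDeriv volume (γ • z) = (muH μ).rnDeriv volume z := by
    intro γ
    have me : MeasurableEmbedding fun z : ℍ => γ • z := by
      simp only [hD.act]; exact measurableEmbedding_const_smul _
    have := me.rnDeriv_map (muH μ) volume
    rwa [(mH γ).map_eq, (hD.mp γ).map_eq] at this
  have mf : Measurable fun z : ℍ => ⨅ γ : Γ, (muH μ).rnDeriv volume (γ • z) :=
    Measurable.iInf fun γ => (Measure.measurable_rnDeriv _ _).comp (hD.mp γ).measurable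
  have e : muH μ = volume.withDensity fun z : ℍ => ⨅ γ : Γ, (muH μ).rnDeriv volume (γ • z) := by
    rw [withDensity_congr_ae (g := (muH μ).rnDeriv volume),
      Measure.withDensity_rnDeriv_eq _ _ (hμ.ac h1)]
    filter_upwards [ae_all_iff.2 ai] with z hz
    simp [hz]
  refine ⟨_, hD, left, fun s hs => ?_, mf, fun γ z => ?_, e,
    ne_top_of_le_ne_top ENNReal.ofReal_ne_top (hμ.sq_le hD mf e h2)⟩
  · refine mp_map measurable_nG (hμ.mp_fl2 h (-Real.log s)) (measurable_mul_const _)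
      (hμ.ae_Om.mono fun v hv => ?_)
    rw [nG_fl _ hv, neg_neg, Real.exp_log hs]
  · simp only [smul_smul]
    exact (Equiv.mulRight γ).iInf_comp (g := fun δ : Γ => (muH μ).rnDeriv volume (δ • z))

end adm

end Pool.Agent.Lib.MP_a52643_an
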