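import Pool.Agent.Lib.MP_a52643_an.Law.Fin

/-!
Unconditional lower bound for the truncated fourth moment.
-/

open MeasureTheory Set Filter Topology Metric UpperHalfPlane
open scoped ENNReal MatrixGroups Pointwise NNReal ComplexConjugate ContDiff Laplacian

noncomputable section

namespace Pool.Agent.Lib.MP_a52643_an

variable {Γ : Type*} [Group Γ] [MulAction Γ ℍ] [Countable Γ] {l : Γ → SL2} {D : Set ℍ}

/-- truncated square -/
def HN (N s : ℝ) : ℝ := s ^ 2 - max (s - N) 0 ^ 2

lemma HN_eq (N s : ℝ) : HN N s = min s N ^ 2 + 2 * N * max (s - N) 0 := by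
  unfold HN
  rcases le_total s N with h | h
  · rw [min_eq_left h, max_eq_right (by linarith)]; ring
  · rw [min_eq_right h, max_eq_left (by linarith)]; ring

lemma continuous_HN (N : ℝ) : Continuous (HN N) := by unfold HN; fun_prop

lemma HN_nonneg {N : ℝ} (hN : 0 ≤ N) (s : ℝ) : 0 ≤ HN N s := by
  rw [HN_eq]; have := le_max_right (s - N) 0; positivity

lemma HN_le_lin {N s : ℝ} (hN : 0 ≤ N) (hs : 0 ≤ s) : HN N s ≤ 0 + 2 * N * s := by
  unfold HN
  rcases le_total s N with h | h
  · rw [max_eq_right (by linarith)]; nlinarith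
  · rw [max_eq_left (by linarith)]; nlinarith

lemma min_sq_le_HN {N k s : ℝ} (hN : 0 ≤ N) (hk : N ≤ k) (hs : 0 ≤ s) : min s N ^ 2 ≤ HN k s := by
  rw [HN_eq]
  have := pow_le_pow_left₀ (le_min hs hN) (min_le_min_left s hk) 2
  have := mul_nonneg (hN.trans hk) (le_max_right (s - k) 0)
  linarith

lemma pos_le_HN {N k s : ℝ} (hN : 0 ≤ N) (hk : N ≤ k) (hs : 0 ≤ s) :
    N * max (s - N) 0 ≤ HN k s := by
  rcases le_total s N with h | h
  · rw [max_eq_right (by linarith), mul_zero]; exact HN_nonneg (hN.trans hk) s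
  · rw [max_eq_left (by linarith)]
    unfold HN
    rcases le_total s k with h' | h'
    · rw [max_eq_right (by linarith)]; nlinarith
    · rw [max_eq_left (by linarith)]; nlinarith

lemma hub_le_min {A Λ N s : ℝ} (hA : 0 ≤ A) (hN : A ≤ N) (hΛ : 0 ≤ Λ) :
    hub A Λ s ≤ min s N ^ 2 - min s A ^ 2 + 2 * Λ * max (s - N) 0 :=
  hub_le hΛ fun c h0 h1 => by
    rcases le_total s A with h | h
    · rw [min_eq_left h, min_eq_left (h.trans hN), max_eq_right (by linarith)]; nlinarith
    · rw [min_eq_right h]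
      rcases le_total s N with h' | h'
      · rw [min_eq_left h', max_eq_right (by linarith)]; nlinarith [sq_nonneg (s - A - c)]
      · rw [min_eq_right h', max_eq_left (by linarith)]
        nlinarith [sq_nonneg (N - A - c), mul_le_mul_of_nonneg_right h1 (sub_nonneg.2 h')]

omit [Countable Γ] in
lemma hub_of_HN {J : Type} {U : Ultrafilter J} (hD : FD l D) {φ : J → ℍ → ℝ} {lam k : J → ℝ}
    (h : ∀ j, Eig2 Γ D (φ j) (lam j)) (hk : Tendsto k U atTop) {M : ℝ}
    (hM : ∀ᶠ j in (U : Filter J), ∫ z in D, HN (k j) (φ j z ^ 2) ≤ M) {η : ℝ} (hη : 0 < η) :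
    ∃ A ≥ 0, ∀ Λ > 0, ∀ᶠ j in (U : Filter J), ∫ z in D, hub A Λ (φ j z ^ 2) ≤ η := by
  have iH : ∀ j, 0 ≤ k j → IntegrableOn (fun z => HN (k j) (φ j z ^ 2)) D := fun j hj =>
    ((h j).iw hD (g := fun t => HN (k j) (t ^ 2)) ((continuous_HN _).comp (by fun_prop))
      (fun t => HN_nonneg hj _) fun t => HN_le_lin hj (sq_nonneg t)).int
  have iM : ∀ j (N : ℕ), IntegrableOn (fun z => min (φ j z ^ 2) N ^ 2) D := fun j N =>
    ((h j).iw hD (g := fun t => min (t ^ 2) N ^ 2) (by fun_prop) (fun t => sq_nonneg _)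
      (a := N ^ 2) (b := 0) fun t => by
        rw [zero_mul, add_zero]
        exact pow_le_pow_left₀ (le_min (sq_nonneg _) N.cast_nonneg) (min_le_right _ _) 2).int
  have iP : ∀ j (N : ℕ), IntegrableOn (fun z => max (φ j z ^ 2 - N) 0) D := fun j N =>
    ((h j).iw hD (g := fun t => max (t ^ 2 - N) 0) (by fun_prop) (fun t => le_max_right _ _)
      (a := 0) (b := 1) fun t => max_le (by linarith [(N.cast_nonneg : (0 : ℝ) ≤ N)])
        (by positivity)).int
  have b : ∀ N : ℕ, ∀ᶠ j in (U : Filter J), ∫ z in D, min (φ j z ^ 2) N ^ 2 ≤ M ∧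
      N * ∫ z in D, max (φ j z ^ 2 - N) 0 ≤ M := fun N => by
    filter_upwards [hM, hk.eventually_ge_atTop N] with j h1 h2
    have k0 : 0 ≤ k j := N.cast_nonneg.trans h2
    refine ⟨(integral_mono (iM j N) (iH j k0) fun z =>
      min_sq_le_HN N.cast_nonneg h2 (sq_nonneg _)).trans h1, ?_⟩
    rw [← integral_const_mul]
    exact (integral_mono ((iP j N).const_mul _) (iH j k0) fun z =>
      pos_le_HN N.cast_nonneg h2 (sq_nonneg _)).trans h1
  have t := fun N : ℕ => tendsto_ul (U := U) (f := fun j => ∫ z in D, min (φ j z ^ 2) N ^ 2)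
    (Asymptotics.IsBigO.of_bound M ((b N).mono fun j hj => by
      rw [Real.norm_of_nonneg (integral_nonneg fun z => sq_nonneg _)]; simpa using hj.1))
  set G := fun N : ℕ => ul U fun j => ∫ z in D, min (φ j z ^ 2) N ^ 2
  have bG : BddAbove (range G) := ⟨M, by
    rintro _ ⟨N, rfl⟩; exact le_of_tendsto (t N) ((b N).mono fun j hj => hj.1)⟩
  obtain ⟨A, hA⟩ := exists_lt_of_lt_ciSup (sub_lt_self (⨆ N, G N) (half_pos hη))
  refine ⟨A, A.cast_nonneg, fun Λ hΛ => ?_⟩
  obtain ⟨N, hN⟩ := exists_nat_gt (max (A : ℝ) (2 * Λ * M / (η / 2)))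
  have h1 : (A : ℝ) < N := (le_max_left _ _).trans_lt hN
  have N0 : (0 : ℝ) < N := A.cast_nonneg.trans_lt h1
  have h2 : 2 * Λ * M < N * (η / 2) := (div_lt_iff₀ (half_pos hη)).1 ((le_max_right _ _).trans_lt hN)
  have lt : G N - G A < η / 2 := by linarith [le_ciSup bG N]
  filter_upwards [b N, ((t N).sub (t A)).eventually (gt_mem_nhds lt)] with j h3 h4
  have iw := (h j).iw hD (g := fun t => hub A Λ (t ^ 2)) ((continuous_hub A Λ).comp (by fun_prop))
    (fun t => hub_nonneg hΛ.le) (a := 0) (b := 2 * Λ)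
    fun t => by simpa using hub_le_lin hΛ.le A.cast_nonneg (sq_nonneg t)
  have m := integral_mono iw.int (((iM j N).sub (iM j A)).add ((iP j N).const_mul (2 * Λ)))
    fun z => hub_le_min A.cast_nonneg h1.le hΛ.le
  simp only [Pi.add_apply, Pi.sub_apply] at m
  rw [integral_add (by exact (iM j N).sub (iM j A)) ((iP j N).const_mul _),
    integral_sub (iM j N) (iM j A), integral_const_mul] at m
  have h5 : 2 * Λ * ∫ z in D, max (φ j z ^ 2 - N) 0 ≤ η / 2 := by
    refine le_of_mul_le_mul_left ?_ N0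
    nlinarith [mul_le_mul_of_nonneg_left h3.2 hΛ.le]
  linarith

omit [Countable Γ] in
lemma bessel_two (hD : FD l D) (V0 : volume.real D ≠ 0) {f ψ : ℍ → ℝ} {B : ℝ} (m : Measurable f)
    (i : IntegrableOn (fun z => f z ^ 2) D) (e2 : ∫ z in D, f z = 1) (hψ : Measurable ψ)
    (hB : ∀ z, |ψ z| ≤ B) (h0 : ∫ z in D, ψ z = 0) (h1 : ∫ z in D, ψ z ^ 2 ≤ 1) :
    1 / volume.real D + (∫ z in D, ψ z * f z) ^ 2 ≤ ∫ z in D, f z ^ 2 := by
  have : IsFiniteMeasure (volume.restrict D) := isFiniteMeasure_restrict.2 hD.fin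
  set x := ∫ z in D, ψ z * f z with e1
  have i1 : IntegrableOn f D := ((integrable_const 1).add i).mono' m.aestronglyMeasurable
    (Eventually.of_forall fun z => by
      rw [Real.norm_eq_abs, Pi.add_apply, ← sq_abs]; nlinarith [sq_nonneg (|f z| - 1)])
  have i2 : IntegrableOn ψ D := integrable_of_abs_le hψ hB
  have i3 : IntegrableOn (fun z => ψ z * f z) D :=
    i1.bdd_mul hψ.aestronglyMeasurable (Eventually.of_forall hB)
  have i4 : IntegrableOn (fun z => ψ z ^ 2) D := integrable_of_abs_le (hψ.pow_const 2) (B := B ^ 2)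
    fun z => by rw [abs_pow]; exact pow_le_pow_left₀ (abs_nonneg _) (hB z) 2
  set c := 1 / volume.real D
  have key : ∫ z in D, (2 * c * f z + 2 * x * (ψ z * f z) - c ^ 2 - 2 * c * x * ψ z
      - x ^ 2 * ψ z ^ 2) ≤ ∫ z in D, f z ^ 2 :=
    integral_mono (((((i1.const_mul _).add (i3.const_mul _)).sub (integrable_const _)).sub
      (i2.const_mul _)).sub (i4.const_mul _)) i fun z => by
        simp only; nlinarith [sq_nonneg (f z - c - x * ψ z)]
  rw [integral_sub (by exact ((((i1.const_mul _).add (i3.const_mul _)).sub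
      (integrable_const _)).sub (i2.const_mul _))) (i4.const_mul _),
    integral_sub (by exact (((i1.const_mul _).add (i3.const_mul _)).sub (integrable_const _)))
      (i2.const_mul _), integral_sub (by exact (i1.const_mul _).add (i3.const_mul _))
      (integrable_const _), integral_add (i1.const_mul _) (i3.const_mul _), integral_const_mul,
    integral_const_mul, integral_const_mul, integral_const_mul, setIntegral_const, ← e1, e2, h0,
    smul_eq_mul] at key
  have e3 : volume.real D * c ^ 2 = c := by simp only [c]; field_simp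
  nlinarith [mul_le_mul_of_nonneg_left h1 (sq_nonneg x)]

theorem trunc_fourth (hD : FD l D) {ψ : ℍ → ℝ} {B : ℝ} (hψ : Measurable ψ) (hB : ∀ z, |ψ z| ≤ B)
    (h0 : ∫ z in D, ψ z = 0) (h1 : ∫ z in D, ψ z ^ 2 ≤ 1) {ε : ℝ} (hε : 0 < ε) :
    ∃ N > 0, ∃ L : ℝ, ∀ (φ : ℍ → ℝ) (lam : ℝ), Eig2 Γ D φ lam → ∫ z in D, φ z ^ 2 = 1 → L ≤ lam →
      3 / volume.real D + 3 * (∫ z in D, ψ z * φ z ^ 2) ^ 2 - ε ≤ ∫ z in D, HN N (φ z ^ 2) := by
  by_contra hc
  push Not at hc
  choose φ lam h hn hl hb using fun j : ℕ => hc (j + 1) (by positivity) j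
  obtain ⟨U, hU⟩ := Ultrafilter.exists_le (atTop : Filter ℕ)
  have V0 : volume.real D ≠ 0 := by
    refine (ENNReal.toReal_pos (fun e => ?_) hD.fin).ne'
    have := hn 0
    rw [Measure.restrict_eq_zero.2 e, integral_zero_measure] at this
    exact zero_ne_one this
  have b : ∀ j, |∫ z in D, ψ z * φ j z ^ 2| ≤ B := fun j => by
    rw [← mul_one B, ← hn j, ← integral_const_mul, ← Real.norm_eq_abs]
    refine norm_integral_le_of_norm_le ((h j).int.const_mul _) (Eventually.of_forall fun z => ?_)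
    rw [norm_mul, Real.norm_of_nonneg (sq_nonneg (φ j z))]
    exact mul_le_mul_of_nonneg_right (hB z) (sq_nonneg _)
  have t := tendsto_ul (U := U) (f := fun j => ∫ z in D, ψ z * φ j z ^ 2)
    (Asymptotics.IsBigO.of_bound B (Eventually.of_forall fun j => by simpa using b j))
  set x := ul U fun j => ∫ z in D, ψ z * φ j z ^ 2
  have tk : Tendsto (fun j : ℕ => (j : ℝ) + 1) U atTop :=
    (tendsto_atTop_add_const_right _ _ tendsto_natCast_atTop_atTop).mono_left hU
  have hM : ∀ᶠ j : ℕ in (U : Filter ℕ), ∫ z in D, HN (j + 1) (φ j z ^ 2)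
      ≤ 3 / volume.real D + 3 * x ^ 2 - ε / 2 := by
    filter_upwards [((t.pow 2).const_mul 3).eventually
      (gt_mem_nhds (lt_add_of_pos_right _ (half_pos hε)))] with j h3
    linarith [hb j]
  obtain ⟨f, m, i, q, hf⟩ := core2 (U := U) hD
    ((tendsto_atTop_mono hl tendsto_natCast_atTop_atTop).mono_left hU) h (fun j => (hn j).le)
    (fun η hη => hub_of_HN hD h tk hM hη) (M := 3 / volume.real D + 3 * x ^ 2 - ε / 2)
    fun N hN η hη => by
      filter_upwards [hM, tk.eventually_ge_atTop N] with j h2 h3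
      have k0 : (0 : ℝ) ≤ j + 1 := by positivity
      refine (integral_mono_of_nonneg (Eventually.of_forall fun z => sq_nonneg _)
        ((h j).iw hD (g := fun t => HN (j + 1) (t ^ 2)) ((continuous_HN _).comp (by fun_prop))
          (fun t => HN_nonneg k0 _) fun t => HN_le_lin k0 (sq_nonneg t)).int
        (Eventually.of_forall fun z => min_sq_le_HN hN.le h3 (sq_nonneg _))).trans ?_
      linarith
  have e1 : x = ∫ z in D, ψ z * f z := tendsto_nhds_unique t (hf ψ B hψ hB).1
  have e2 : ∫ z in D, f z = 1 := by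
    have := (hf (fun _ => 1) 1 measurable_const (by simp)).1
    simp only [one_mul, hn] at this
    exact tendsto_nhds_unique this tendsto_const_nhds |>.symm ▸ rfl
  have := bessel_two hD V0 m i e2 hψ hB h0 h1
  rw [← e1] at this
  have e4 : 3 / volume.real D = 3 * (1 / volume.real D) := by ring
  linarith

end Pool.Agent.Lib.MP_a52643_an
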